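import Pool.Agent.Lib.BcrU.Defs

/-!
MODULE FBasic (150 lines). Elementary facts on `trim` and `age` for an up-closed finite set `P`
(`Up par rk K P`) of a forest with `rk (par x) = rk x + 1`.

Proofs.
* `rk_iter`: `rk (par^[h] x) = rk x + h` by induction.
* `mem_up`: if `x ∈ P` and `rk x + h < K` then `par^[h] x ∈ P` (induction, `Up`).
* `trim_zero`: trivial.
* `trim_succ_sub`: `p = par^[h+1] x`, `p ∈ P` so `rk x + h + 1 = rk p < K`, hence `par x ∈ P` and
  `p = par^[h] (par x)`.
* `up_trim`: `p = par^[h] x`, `rk p + 1 < K`: `par p ∈ P` and `par p = par^[h] (par x)` with `par x ∈ P`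
  (`rk x + 1 ≤ rk p + 1 < K`).
* `mem_trim_iff`: by definition `age = Nat.findGreatest _ (rk p)`; `p ∈ trim P h` forces `h ≤ rk p`; the
  sets `trim P h` decrease; `p ∈ trim P 0`.  (`Nat.findGreatest_spec`, `Nat.le_findGreatest`.)
* `exists_child`: `p ∈ trim P (h+1)`, `p = par^[h+1] x = par (par^[h] x)` (`Function.iterate_succ_apply'`),
  `y = par^[h] x` is in `P` (`mem_up`) and in `trim P h`, so `h ≤ age y`; and `age y + 1 ≤ age p = h + 1`
  by `age_child_lt`.
* `age_child_lt`: `x ∈ trim P (age x)`, `x = par^[a] z`, `par x = par^[a+1] z`.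
* `age_mono`: `trim Q h ⊆ trim P h`.
* `age_le_succ`: `a = age P p`; if `a = 0` done. `p = par^[a] x`, `x ∈ P`, `par x ∈ P` (rank). If `par x ∉ Q` then
  `hleaf (par x) .. x` is contradictory. So `par x ∈ Q` and `p = par^[a-1] (par x) ∈ trim Q (a-1)`.
-/

namespace BcrU

open Finset

variable {α : Type} [DecidableEq α] {par : α → α} {rk : α → ℕ} {K : ℕ}

theorem rk_iter (hrk : ∀ x, rk (par x) = rk x + 1) (h : ℕ) (x : α) :
    rk (par^[h] x) = rk x + h := by
  induction h with
  | zero => simp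
  | succ h ih => rw [Function.iterate_succ_apply', hrk, ih]; omega

theorem mem_up (hrk : ∀ x, rk (par x) = rk x + 1) {P : Finset α} (hP : Up par rk K P) {x : α}
    (hx : x ∈ P) {h : ℕ} (hh : rk x + h < K) : par^[h] x ∈ P := by
  induction h with
  | zero => simpa using hx
  | succ h ih =>
    rw [Function.iterate_succ_apply']
    have h1 := ih (by omega)
    refine hP.2 _ h1 ?_
    rw [rk_iter hrk]
    omega

theorem trim_zero (P : Finset α) : trim par P 0 = P := by
  ext p
  unfold trim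
  rw [mem_filter]
  constructor
  · exact fun h => h.1
  · exact fun h => ⟨h, p, h, rfl⟩

theorem trim_sub (P : Finset α) (h : ℕ) : trim par P h ⊆ P := by
  unfold trim
  exact filter_subset _ _

theorem trim_succ_sub (hrk : ∀ x, rk (par x) = rk x + 1) {P : Finset α} (hP : Up par rk K P)
    (h : ℕ) : trim par P (h + 1) ⊆ trim par P h := by
  intro p hp
  unfold trim at hp ⊢
  rw [mem_filter] at hp ⊢
  obtain ⟨hp1, x, hx, hxp⟩ := hp
  have h1 := rk_iter hrk (h + 1) x
  rw [hxp] at h1
  have h2 := hP.1 p hp1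
  refine ⟨hp1, par x, hP.2 x hx (by omega), ?_⟩
  rw [← Function.iterate_succ_apply]
  exact hxp

theorem up_trim (hrk : ∀ x, rk (par x) = rk x + 1) {P : Finset α} (hP : Up par rk K P) (h : ℕ) :
    Up par rk K (trim par P h) := by
  refine ⟨fun x hx => hP.1 x (trim_sub P h hx), fun p hp hr => ?_⟩
  unfold trim at hp ⊢
  rw [mem_filter] at hp ⊢
  obtain ⟨hp1, x, hx, hxp⟩ := hp
  have h1 := rk_iter hrk h x
  rw [hxp] at h1
  refine ⟨hP.2 p hp1 hr, par x, hP.2 x hx (by omega), ?_⟩
  rw [← Function.iterate_succ_apply, Function.iterate_succ_apply', hxp]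

private theorem FBasic_anti (hrk : ∀ x, rk (par x) = rk x + 1) {P : Finset α}
    (hP : Up par rk K P) {h a : ℕ} (hha : h ≤ a) : trim par P a ⊆ trim par P h := by
  induction a, hha using Nat.le_induction with
  | base => exact Subset.refl _
  | succ a _ ih => exact (trim_succ_sub hrk hP a).trans ih

theorem mem_trim_iff (hrk : ∀ x, rk (par x) = rk x + 1) {P : Finset α} (hP : Up par rk K P)
    {p : α} (hp : p ∈ P) (h : ℕ) : p ∈ trim par P h ↔ h ≤ age par rk P p := by
  constructor
  · intro h1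
    have h2 := h1
    unfold trim at h2
    rw [mem_filter] at h2
    obtain ⟨_, x, _, hxp⟩ := h2
    have h3 := rk_iter hrk h x
    rw [hxp] at h3
    unfold age
    exact Nat.le_findGreatest (by omega) h1
  · intro h1
    have h2 : p ∈ trim par P (age par rk P p) := by
      unfold age
      exact Nat.findGreatest_spec (P := fun h => p ∈ trim par P h) (m := 0) (Nat.zero_le _)
        (by rw [trim_zero]; exact hp)
    exact FBasic_anti hrk hP h1 h2

private theorem FBasic_mem {P : Finset α} {p x : α} {h : ℕ} (hp : p ∈ P) (hx : x ∈ P)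
    (hxp : par^[h] x = p) : p ∈ trim par P h := by
  unfold trim
  rw [mem_filter]
  exact ⟨hp, x, hx, hxp⟩

private theorem FBasic_ex {P : Finset α} {p : α} {h : ℕ} (hp : p ∈ trim par P h) :
    ∃ x ∈ P, par^[h] x = p := by
  unfold trim at hp
  rw [mem_filter] at hp
  exact hp.2

theorem age_child_lt (hrk : ∀ x, rk (par x) = rk x + 1) {P : Finset α} (hP : Up par rk K P)
    {x : α} (hx : x ∈ P) (hpx : par x ∈ P) : age par rk P x + 1 ≤ age par rk P (par x) := by
  obtain ⟨z, hz, hzx⟩ := FBasic_ex ((mem_trim_iff hrk hP hx (age par rk P x)).2 le_rfl)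
  refine (mem_trim_iff hrk hP hpx _).1 (FBasic_mem hpx hz ?_)
  rw [Function.iterate_succ_apply', hzx]

theorem exists_child (hrk : ∀ x, rk (par x) = rk x + 1) {P : Finset α} (hP : Up par rk K P)
    {p : α} (hp : p ∈ P) {h : ℕ} (ha : age par rk P p = h + 1) :
    ∃ x ∈ P, par x = p ∧ age par rk P x = h := by
  obtain ⟨x, hx, hxp⟩ := FBasic_ex ((mem_trim_iff hrk hP hp (h + 1)).2 ha.ge)
  have h1 := rk_iter hrk (h + 1) x
  rw [hxp] at h1
  have h2 := hP.1 p hp
  have hy : par^[h] x ∈ P := mem_up hrk hP hx (by omega)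
  have hyp : par (par^[h] x) = p := by rw [← hxp, Function.iterate_succ_apply']
  refine ⟨par^[h] x, hy, hyp, ?_⟩
  have h3 := (mem_trim_iff hrk hP hy h).1 (FBasic_mem hy hx rfl)
  have h4 := age_child_lt hrk hP hy (by rw [hyp]; exact hp)
  rw [hyp, ha] at h4
  omega

theorem age_lt (hrk : ∀ x, rk (par x) = rk x + 1) {P : Finset α} (hP : Up par rk K P)
    {p : α} (hp : p ∈ P) : age par rk P p < K := by
  have h1 : age par rk P p ≤ rk p := by
    unfold age
    exact Nat.findGreatest_le _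
  have h2 := hP.1 p hp
  omega

theorem age_mono (hrk : ∀ x, rk (par x) = rk x + 1) {P Q : Finset α} (hP : Up par rk K P)
    (hQ : Up par rk K Q) (hQP : Q ⊆ P) {p : α} (hp : p ∈ Q) :
    age par rk Q p ≤ age par rk P p := by
  obtain ⟨x, hx, hxp⟩ := FBasic_ex ((mem_trim_iff hrk hQ hp (age par rk Q p)).2 le_rfl)
  exact (mem_trim_iff hrk hP (hQP hp) _).1 (FBasic_mem (hQP hp) (hQP hx) hxp)

theorem age_le_succ (hrk : ∀ x, rk (par x) = rk x + 1) {P Q : Finset α} (hP : Up par rk K P)
    (hQ : Up par rk K Q) (hQP : Q ⊆ P) (hleaf : ∀ x ∈ P, x ∉ Q → ∀ y ∈ P, par y ≠ x) {p : α}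
    (hp : p ∈ Q) : age par rk P p ≤ age par rk Q p + 1 := by
  rcases Nat.eq_zero_or_pos (age par rk P p) with h0 | h0
  · omega
  · obtain ⟨b, hb⟩ : ∃ b, age par rk P p = b + 1 := ⟨age par rk P p - 1, by omega⟩
    obtain ⟨x, hx, hxp⟩ := FBasic_ex ((mem_trim_iff hrk hP (hQP hp) (b + 1)).2 hb.ge)
    have h1 := rk_iter hrk (b + 1) x
    rw [hxp] at h1
    have h2 := hP.1 p (hQP hp)
    have hpx : par x ∈ P := hP.2 x hx (by omega)
    have hq : par x ∈ Q := by
      by_contra hq
      exact hleaf (par x) hpx hq x hx rfl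
    have h3 : b ≤ age par rk Q p := by
      refine (mem_trim_iff hrk hQ hp b).1 (FBasic_mem hp hq ?_)
      rw [← Function.iterate_succ_apply]
      exact hxp
    omega

end BcrU
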