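import Pool.Agent.Lib.BcrU.NUp
import Pool.Agent.Lib.BcrU.FBasic

/-!
MODULE NVal (140 lines). The credit density at a terminal `i` (all sets containing `i` have `e = 0`).

(1) For `θ ∈ (0,1)`: `PP lev K ε θ e = {p ∈ nodes : i ∈ p.2}`. If `i ∈ B`: `e B = 0 < θ ε (k+1)`. If `B ∈ cls lev k`, `i ∉ B`:
    `Adm.pair k {i} B` (inner levels: `lev i i = 0`; `cls_lev_le`: `≤ k ≤ k+1`; cross: `k < lev i j` for `j ∈ B`, otherwise
    `j ∈ cl k i`, so `B = cl k j = cl k i ∋ i`) gives `ε (k+1) ≤ e {i} + e B = e B`, so `e B ≥ ε (k+1) > θ ε (k+1)`.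
(2) So this set is `Q = {(k, cl k i) : k < K}` (`cls_eq_cl`), with exactly one node of each rank `k < K`, and
    `par (k, cl k i) = (k+1, cl (k+1) i)`. The age of `(k, cl k i)` in `Q` is `k` (`age ≤ rk` by definition
    (`Nat.findGreatest_le`) and `(k, cl k i) = par^[k] (0, cl 0 i)`; use `mem_trim_iff` with `PP_up`).
    So `cnt (age p) = 1` and `nu = g 1 = 1` for `p ∈ Q`, `nu = 0` otherwise.
(3) `dens = (3/F) ∑_{j<q} θ_j + (1/F) ∑_{q ≤ j < m} θ_j = (∑_{j<m} θ_j + 2 ∑_{j<q} θ_j)/F = beta` if `i ∈ p.2`, else `0`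
    (`Finset.sum_range_add_sum_Ico`-like, `q ≤ m`).
-/

namespace BcrU

open Finset

variable {ι : Type} [Fintype ι] [DecidableEq ι] {lev : ι → ι → ℕ} {K : ℕ}

private theorem NVal_eq (hU : Ult K lev) {i : ι} {p : ℕ × Finset ι} (hp : p ∈ nodes lev K)
    (hi : i ∈ p.2) : p = (p.1, cl lev p.1 i) :=
  Prod.ext rfl (cls_eq_cl hU (mem_nodes.1 hp).2 hi)

private theorem NVal_PP {ε s θ : ℝ} {e : Finset ι → ℝ} (hU : Ult K lev) (hε : 0 < ε)
    (hθ : 0 < θ) (hθ1 : θ < 1) (he : Adm lev ε s e) {i : ι}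
    (hz : ∀ B : Finset ι, i ∈ B → e B = 0) {p : ℕ × Finset ι} :
    p ∈ PP lev K ε θ e ↔ p ∈ nodes lev K ∧ i ∈ p.2 := by
  have hx : (0 : ℝ) < ε * ((p.1 : ℝ) + 1) := by positivity
  unfold PP
  rw [Finset.mem_filter]
  constructor
  · rintro ⟨h1, h2⟩
    refine ⟨h1, ?_⟩
    by_contra hi
    obtain ⟨h3, h4⟩ := mem_nodes.1 h1
    have h5 : ε * ((p.1 : ℝ) + 1) ≤ e {i} + e p.2 := by
      refine he.pair p.1 {i} p.2 (Finset.singleton_nonempty i) (cls_nonempty hU h4) ?_ ?_ ?_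
      · intro a ha b hb
        rw [Finset.mem_singleton] at ha hb
        rw [ha, hb, hU.refl]
        exact Nat.zero_le _
      · intro a ha b hb
        exact (cls_lev_le hU h4 ha hb).trans (Nat.le_succ _)
      · intro a ha b hb
        rw [Finset.mem_singleton] at ha
        rw [ha]
        by_contra hlt
        have h6 : p.2 = cl lev p.1 b := cls_eq_cl hU h4 hb
        have h7 : cl lev p.1 i = cl lev p.1 b := (cl_eq_iff hU).2 (not_lt.1 hlt)
        exact hi (by rw [h6, ← h7]; exact mem_cl_self hU _ _)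
    rw [hz {i} (Finset.mem_singleton_self i), zero_add] at h5
    have h8 : θ * (ε * ((p.1 : ℝ) + 1)) < 1 * (ε * ((p.1 : ℝ) + 1)) :=
      mul_lt_mul_of_pos_right hθ1 hx
    linarith
  · rintro ⟨h1, h2⟩
    refine ⟨h1, ?_⟩
    rw [hz _ h2]
    exact mul_pos hθ hx

private theorem NVal_age {ε s θ : ℝ} {e : Finset ι → ℝ} (hU : Ult K lev) (hε : 0 < ε)
    (hθ : 0 < θ) (hθ1 : θ < 1) (he : Adm lev ε s e) {i : ι}
    (hz : ∀ B : Finset ι, i ∈ B → e B = 0) {p : ℕ × Finset ι} (hp : p ∈ nodes lev K)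
    (hi : i ∈ p.2) : age (par lev) Prod.fst (PP lev K ε θ e) p = p.1 := by
  have hmem : p ∈ PP lev K ε θ e := (NVal_PP hU hε hθ hθ1 he hz).2 ⟨hp, hi⟩
  have hK : p.1 < K := (mem_nodes.1 hp).1
  have hup := PP_up hU hε hθ he
  apply le_antisymm
  · unfold age
    exact Nat.findGreatest_le _
  · rw [← mem_trim_iff (par_fst (lev := lev)) hup hmem]
    have h0 : (cl lev 0 i) ∈ cls lev 0 := Finset.mem_image.2 ⟨i, Finset.mem_univ i, rfl⟩
    have h1 : ((0, cl lev 0 i) : ℕ × Finset ι) ∈ nodes lev K := mem_nodes.2 ⟨by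
      show 0 < K
      omega, h0⟩
    have h2 : ((0, cl lev 0 i) : ℕ × Finset ι) ∈ PP lev K ε θ e :=
      (NVal_PP hU hε hθ hθ1 he hz).2 ⟨h1, mem_cl_self hU 0 i⟩
    obtain ⟨h3, h4, h5⟩ := iter_par hU p.1 (x := ((0, cl lev 0 i) : ℕ × Finset ι)) h0
    have h6 : i ∈ ((par lev)^[p.1] ((0, cl lev 0 i) : ℕ × Finset ι)).2 := h5 (mem_cl_self hU 0 i)
    have h7 : ((par lev)^[p.1] ((0, cl lev 0 i) : ℕ × Finset ι)) = p := by
      have e1 : ((par lev)^[p.1] ((0, cl lev 0 i) : ℕ × Finset ι)).1 = p.1 := by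
        rw [h3]
        exact Nat.zero_add _
      have e2 : ((par lev)^[p.1] ((0, cl lev 0 i) : ℕ × Finset ι)).2 = cl lev (0 + p.1) i :=
        cls_eq_cl hU h4 h6
      rw [Nat.zero_add] at e2
      have e3 : p.2 = cl lev p.1 i := cls_eq_cl hU (mem_nodes.1 hp).2 hi
      exact Prod.ext e1 (e2.trans e3.symm)
    unfold trim
    rw [Finset.mem_filter]
    exact ⟨hmem, _, h2, h7⟩

private theorem NVal_nu {ε s θ : ℝ} {e : Finset ι → ℝ} (hU : Ult K lev) (hε : 0 < ε)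
    (hθ : 0 < θ) (hθ1 : θ < 1) (he : Adm lev ε s e) {i : ι}
    (hz : ∀ B : Finset ι, i ∈ B → e B = 0) {p : ℕ × Finset ι} (hp : p ∈ nodes lev K) :
    nu (par lev) Prod.fst (PP lev K ε θ e) p = if i ∈ p.2 then 1 else 0 := by
  unfold nu
  by_cases hi : i ∈ p.2
  · have hmem : p ∈ PP lev K ε θ e := (NVal_PP hU hε hθ hθ1 he hz).2 ⟨hp, hi⟩
    rw [if_pos hmem, if_pos hi]
    have hc : cnt (par lev) Prod.fst (PP lev K ε θ e)
        (age (par lev) Prod.fst (PP lev K ε θ e) p) = 1 := by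
      unfold cnt
      rw [Finset.card_eq_one]
      refine ⟨p, ?_⟩
      ext r
      rw [Finset.mem_filter, Finset.mem_singleton]
      constructor
      · rintro ⟨h1, h2⟩
        obtain ⟨h3, h4⟩ := (NVal_PP hU hε hθ hθ1 he hz).1 h1
        rw [NVal_age hU hε hθ hθ1 he hz h3 h4, NVal_age hU hε hθ hθ1 he hz hp hi] at h2
        rw [NVal_eq hU h3 h4, NVal_eq hU hp hi, h2]
      · rintro rfl
        exact ⟨hmem, rfl⟩
    rw [hc]
    unfold g
    norm_num
  · have hmem : p ∉ PP lev K ε θ e := fun h => hi ((NVal_PP hU hε hθ hθ1 he hz).1 h).2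
    rw [if_neg hmem, if_neg hi]

theorem dens_term {ε s : ℝ} {m q : ℕ} {θ : ℕ → ℝ} {e : Finset ι → ℝ} (hU : Ult K lev)
    (hε : 0 < ε) (hD : Des s m q θ) (he : Adm lev ε s e) {i : ι}
    (hz : ∀ B : Finset ι, i ∈ B → e B = 0) {p : ℕ × Finset ι} (hp : p ∈ nodes lev K) :
    dens lev K ε m q θ e p = if i ∈ p.2 then beta m q θ else 0 := by
  have hF : (0 : ℝ) < (m : ℝ) + 2 * q := by
    have := hD.hm
    positivity
  unfold dens
  have h1 : ∑ j ∈ range q, θ j * nu (par lev) Prod.fst (PP lev K ε (θ j) e) p =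
      ∑ j ∈ range q, θ j * (if i ∈ p.2 then 1 else 0) := by
    refine Finset.sum_congr rfl fun j hj => ?_
    have hj' : j < m := lt_of_lt_of_le (Finset.mem_range.1 hj) hD.hq
    rw [NVal_nu hU hε (hD.pos j hj') (hD.lt_one j hj') he hz hp]
  have h2 : ∑ j ∈ Ico q m, θ j * (if p ∈ PP lev K ε (θ j) e then 1 else 0) =
      ∑ j ∈ Ico q m, θ j * (if i ∈ p.2 then 1 else 0) := by
    refine Finset.sum_congr rfl fun j hj => ?_
    have hj' : j < m := (Finset.mem_Ico.1 hj).2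
    by_cases hi : i ∈ p.2
    · rw [if_pos hi, if_pos ((NVal_PP hU hε (hD.pos j hj') (hD.lt_one j hj') he hz).2 ⟨hp, hi⟩)]
    · rw [if_neg hi, if_neg fun h =>
        hi ((NVal_PP hU hε (hD.pos j hj') (hD.lt_one j hj') he hz).1 h).2]
  rw [h1, h2]
  by_cases hi : i ∈ p.2
  · simp only [if_pos hi, mul_one]
    unfold beta
    rw [← Finset.sum_range_add_sum_Ico θ hD.hq]
    field_simp
    ring
  · simp only [if_neg hi, mul_zero, Finset.sum_const_zero, add_zero]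

end BcrU
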