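import Pool.Agent.Lib.BcrU.LUlt

/-!
MODULE GShift (120 lines). Shift of the levels by `n`: `lev' i j = lev i j - n` (natural subtraction).

* `shift_ult`: `refl`, `symm`, `bound` clear; `ultra` from monotonicity of `· - n`.
* `cl lev' k i = cl lev (k + n) i` (`Nat.sub_le_iff_le_add`), so `kap lev' k S = kap lev (k + n) S`.
* `kap lev k S = 1` for `k ≥ K`, `S` nonempty (`kap_one`, `bound`).
* Hence `mu lev' S = mu lev S - ε ∑_{k<n} (kap lev k S - 1)`.
* `shift_stab`. If some `k < n` has `kap lev k S = 1` then `kap lev k' S = 1` for all `k' ≥ k` and `mu lev' S = 0 ≤ a`.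
  Otherwise `kap lev k S ≥ 2` for all `k < n` and `ε ∑_{k<n} (kap lev k S - 1) ≥ ε n`.
* `shift_univ`: `kap ≤ card ι`.
-/

namespace BcrU

open Finset

variable {ι : Type} [Fintype ι] [DecidableEq ι] {lev : ι → ι → ℕ} {K : ℕ}

omit [Fintype ι] [DecidableEq ι] in
theorem shift_ult (hU : Ult K lev) (n : ℕ) : Ult K fun i j => lev i j - n := by
  refine ⟨fun i => ?_, fun i j => ?_, fun i j l => ?_, fun i j => ?_⟩
  · show lev i i - n = 0
    rw [hU.refl, Nat.zero_sub]
  · show lev i j - n = lev j i - n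
    rw [hU.symm]
  · show lev i l - n ≤ max (lev i j - n) (lev j l - n)
    have h := hU.ultra i j l
    rcases le_total (lev i j) (lev j l) with h1 | h1
    · rw [max_eq_right h1] at h
      exact (Nat.sub_le_sub_right h n).trans (le_max_right _ _)
    · rw [max_eq_left h1] at h
      exact (Nat.sub_le_sub_right h n).trans (le_max_left _ _)
  · exact (Nat.sub_le _ _).trans (hU.bound i j)

private theorem GShift_kap (lev : ι → ι → ℕ) (n k : ℕ) (S : Finset ι) :
    kap (fun i j => lev i j - n) k S = kap lev (k + n) S := by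
  have h : cl (fun i j => lev i j - n) k = cl lev (k + n) := by
    funext i
    ext j
    rw [mem_cl, mem_cl]
    exact Nat.sub_le_iff_le_add
  unfold kap
  rw [h]

private theorem GShift_top (hU : Ult K lev) {S : Finset ι} (hS : S.Nonempty) {k : ℕ}
    (hk : K ≤ k) : kap lev k S = 1 :=
  kap_one hU hS fun i _ j _ => (hU.bound i j).trans hk

private theorem GShift_mu (hU : Ult K lev) (ε : ℝ) (n : ℕ) {S : Finset ι} (hS : S.Nonempty) :
    mu (fun i j => lev i j - n) K ε S =
      mu lev K ε S - ε * ∑ k ∈ range n, ((kap lev k S : ℝ) - 1) := by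
  have h1 : ∑ k ∈ range K, ((kap (fun i j => lev i j - n) k S : ℝ) - 1) =
      ∑ k ∈ range K, ((kap lev (n + k) S : ℝ) - 1) := by
    refine Finset.sum_congr rfl fun k _ => ?_
    rw [GShift_kap, add_comm k n]
  have h2 := Finset.sum_range_add (fun k => (kap lev k S : ℝ) - 1) n K
  have h3 := Finset.sum_range_add (fun k => (kap lev k S : ℝ) - 1) K n
  have h4 : ∑ x ∈ range n, ((kap lev (K + x) S : ℝ) - 1) = 0 := by
    refine Finset.sum_eq_zero fun x _ => ?_
    rw [GShift_top hU hS (Nat.le_add_right K x), Nat.cast_one, sub_self]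
  rw [add_comm n K] at h2
  rw [mu, mu, h1, ← mul_sub]
  congr 1
  linarith

theorem shift_stab (hU : Ult K lev) {ε : ℝ} (hε : 0 ≤ ε) (n : ℕ) {S : Finset ι}
    (hS : S.Nonempty) {a : ℝ} (ha : 0 ≤ a) (h : mu lev K ε S ≤ a + ε * n) :
    mu (fun i j => lev i j - n) K ε S ≤ a := by
  by_cases hc : ∃ k, k < n ∧ kap lev k S = 1
  · obtain ⟨k, hk, h1⟩ := hc
    have h2 : ∀ k' ∈ range K, ((kap (fun i j => lev i j - n) k' S : ℝ) - 1) = 0 := by
      intro k' _
      have h3 : kap lev (k' + n) S ≤ kap lev k S :=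
        kap_mono_lev hU hU (fun i j hij => hij.trans (by omega)) S
      have h4 : 1 ≤ kap lev (k' + n) S := kap_pos hS
      have h5 : kap lev (k' + n) S = 1 := by omega
      rw [GShift_kap, h5, Nat.cast_one, sub_self]
    rw [mu, Finset.sum_eq_zero h2, mul_zero]
    exact ha
  · push Not at hc
    have h2 : (n : ℝ) ≤ ∑ k ∈ range n, ((kap lev k S : ℝ) - 1) := by
      have h3 : ∑ _k ∈ range n, (1 : ℝ) ≤ ∑ k ∈ range n, ((kap lev k S : ℝ) - 1) := by
        refine Finset.sum_le_sum fun k hk => ?_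
        have h4 := hc k (Finset.mem_range.1 hk)
        have h5 : 1 ≤ kap lev k S := kap_pos hS
        have h6 : 2 ≤ kap lev k S := by omega
        have h7 : (2 : ℝ) ≤ kap lev k S := by exact_mod_cast h6
        linarith
      rw [Finset.sum_const, Finset.card_range, nsmul_eq_mul, mul_one] at h3
      exact h3
    rw [GShift_mu hU ε n hS]
    have h3 := mul_le_mul_of_nonneg_left h2 hε
    linarith

theorem shift_univ [Nonempty ι] (hU : Ult K lev) {ε : ℝ} (hε : 0 ≤ ε) (n : ℕ) :
    mu lev K ε univ - ε * n * Fintype.card ι ≤ mu (fun i j => lev i j - n) K ε univ := by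
  rw [GShift_mu hU ε n Finset.univ_nonempty]
  have h2 : ∑ k ∈ range n, ((kap lev k (univ : Finset ι) : ℝ) - 1) ≤ n * Fintype.card ι := by
    have h3 : ∑ k ∈ range n, ((kap lev k (univ : Finset ι) : ℝ) - 1) ≤
        ∑ _k ∈ range n, (Fintype.card ι : ℝ) := by
      refine Finset.sum_le_sum fun k _ => ?_
      have h4 : kap lev k (univ : Finset ι) ≤ Fintype.card ι := Finset.card_image_le
      have h5 : (kap lev k (univ : Finset ι) : ℝ) ≤ Fintype.card ι := by exact_mod_cast h4
      linarith
    rw [Finset.sum_const, Finset.card_range, nsmul_eq_mul] at h3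
    exact h3
  have h3 := mul_le_mul_of_nonneg_left h2 hε
  rw [mul_assoc]
  linarith

end BcrU
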