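import Pool.Agent.Lib.BcrU.DefsG

/-!
MODULE GDst (220 lines). Distances.

* `dst_le`: `csInf_le`, bounded below by `0` (`wc_nonneg`). `dst_nonneg`: `Real.sInf_nonneg`.
* `exists_walk`: finitely many paths: `wc c w.bypass ≤ wc c w` (edges of `bypass` are a sublist: `bypass` edges subset and nodup:
  use `sum_toFinset_eq`/`sum_toFinset_le` of file Tree: `wc (bypass) = ∑ over toFinset ≤ ∑ over w.edges.toFinset ≤ wc w`).
  The set of costs of paths is finite (`SimpleGraph.Path` is a `Fintype`/`Finite`; or: the cost of a path is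
  `∑ e ∈ S, c e` with `S` in the finite powerset of `univ : Finset (Sym2 V)`) and nonempty, take a minimum
  (`Set.Finite.exists_minimal`, `Set.exists_min_image`).
* `dst_tri`: append the optimal walks. `dst_symm`: reverse walks (`wc_reverse`). `dst_self`: the empty walk.
* `dst_mono`: `c ≤ c'` edgewise gives `wc c w ≤ wc c' w`; use the optimal walk for `c'`.
* `dst_edge`: the one edge walk (`wc_adj`).
* `cY_nonneg`, `cY_le`, `cY_anti` (`Y ⊆ Y'` gives `cY c Y' ≤ cY c Y`), `cY_empty`.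
* `wc_cY_zero`: a walk all of whose edges are in `Y` has `wc (cY c Y) w = 0`.
* `extra`: for a walk `w`: `ec c (Y ∪ w.edges.toFinset) ≤ ec c Y + wc (cY c Y) w` (edges outside `Y`, each counted once).
* `dW_pmet`.
-/

namespace BcrU

open Finset Bcr3

variable {V : Type} {G : SimpleGraph V} {c c' : Sym2 V → ℝ}

theorem dst_nonneg (hc : ∀ e, 0 ≤ c e) (u v : V) : 0 ≤ dst G c u v := by
  apply Real.sInf_nonneg
  rintro x ⟨w, rfl⟩
  exact wc_nonneg hc w

private theorem GDst_bdd (hc : ∀ e, 0 ≤ c e) (u v : V) :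
    BddBelow {x | ∃ w : G.Walk u v, x = wc c w} := by
  refine ⟨0, ?_⟩
  rintro x ⟨w, rfl⟩
  exact wc_nonneg hc w

theorem dst_le (hc : ∀ e, 0 ≤ c e) {u v : V} (w : G.Walk u v) : dst G c u v ≤ wc c w :=
  csInf_le (GDst_bdd hc u v) ⟨w, rfl⟩

private theorem GDst_path [DecidableEq V] {u v : V} (w : G.Walk u v) (hw : w.IsPath) :
    wc c w = ∑ e ∈ w.edges.toFinset, c e := by
  unfold wc
  rw [sum_toFinset_eq c w.edges hw.edges_nodup]

private theorem GDst_bypass [DecidableEq V] (hc : ∀ e, 0 ≤ c e) {u v : V} (w : G.Walk u v) :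
    wc c w.bypass ≤ wc c w := by
  rw [GDst_path w.bypass w.bypass_isPath]
  refine le_trans ?_ (sum_toFinset_le c hc w.edges)
  apply sum_le_sum_of_subset_of_nonneg
  · intro e he
    rw [List.mem_toFinset] at he ⊢
    exact w.edges_bypass_subset_edges he
  · intro e _ _; exact hc e

theorem exists_walk [Fintype V] [DecidableEq V] (hc : ∀ e, 0 ≤ c e) {u v : V}
    (h : G.Reachable u v) : ∃ w : G.Walk u v, wc c w = dst G c u v := by
  classical
  set S : Set ℝ := {x | ∃ w : G.Walk u v, w.IsPath ∧ x = wc c w} with hS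
  have hfin : S.Finite := by
    apply (Set.finite_range fun E : Finset (Sym2 V) => ∑ e ∈ E, c e).subset
    rintro x ⟨w, hw, rfl⟩
    exact ⟨w.edges.toFinset, (GDst_path w hw).symm⟩
  have hne : S.Nonempty := by
    obtain ⟨w⟩ := h
    exact ⟨_, w.bypass, w.bypass_isPath, rfl⟩
  obtain ⟨x, ⟨w, hw, rfl⟩, hx⟩ := Set.exists_min_image S id hfin hne
  refine ⟨w, le_antisymm ?_ (dst_le hc w)⟩
  have hne' : {x | ∃ w : G.Walk u v, x = wc c w}.Nonempty := ⟨wc c w, w, rfl⟩
  apply le_csInf hne'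
  rintro y ⟨w', rfl⟩
  exact (hx _ ⟨w'.bypass, w'.bypass_isPath, rfl⟩).trans (GDst_bypass hc w')

theorem dst_self (hc : ∀ e, 0 ≤ c e) (u : V) : dst G c u u = 0 := by
  apply le_antisymm _ (dst_nonneg hc u u)
  have := dst_le hc (SimpleGraph.Walk.nil : G.Walk u u)
  rwa [wc_nil] at this

theorem dst_symm (u v : V) : dst G c u v = dst G c v u := by
  unfold dst
  congr 1
  ext x
  constructor
  · rintro ⟨w, rfl⟩; exact ⟨w.reverse, (wc_reverse w).symm⟩
  · rintro ⟨w, rfl⟩; exact ⟨w.reverse, (wc_reverse w).symm⟩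

theorem dst_tri [Fintype V] [DecidableEq V] (hc : ∀ e, 0 ≤ c e) {u v w : V}
    (h₁ : G.Reachable u v) (h₂ : G.Reachable v w) : dst G c u w ≤ dst G c u v + dst G c v w := by
  obtain ⟨p, hp⟩ := exists_walk hc h₁
  obtain ⟨q, hq⟩ := exists_walk hc h₂
  rw [← hp, ← hq, ← wc_append]
  exact dst_le hc _

private theorem GDst_wc_mono (h : ∀ e, c e ≤ c' e) {u v : V} (w : G.Walk u v) :
    wc c w ≤ wc c' w := by
  unfold wc
  apply List.sum_le_sum
  intro e _
  exact h e

theorem dst_mono [Fintype V] [DecidableEq V] (hc : ∀ e, 0 ≤ c e) (hc' : ∀ e, 0 ≤ c' e)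
    (h : ∀ e, c e ≤ c' e) {u v : V} (hr : G.Reachable u v) : dst G c u v ≤ dst G c' u v := by
  obtain ⟨p, hp⟩ := exists_walk hc' hr
  rw [← hp]
  exact (dst_le hc p).trans (GDst_wc_mono h p)

theorem dst_edge (hc : ∀ e, 0 ≤ c e) {u v : V} (h : G.Adj u v) : dst G c u v ≤ c s(u, v) := by
  rw [← wc_adj (c := c) h]
  exact dst_le hc _

theorem cY_nonneg (hc : ∀ e, 0 ≤ c e) (Y : Finset (Sym2 V)) (e : Sym2 V) : 0 ≤ cY c Y e := by
  unfold cY
  split_ifs
  · exact le_rfl
  · exact hc e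

theorem cY_le (hc : ∀ e, 0 ≤ c e) (Y : Finset (Sym2 V)) (e : Sym2 V) : cY c Y e ≤ c e := by
  unfold cY
  split_ifs
  · exact hc e
  · exact le_rfl

theorem cY_anti (hc : ∀ e, 0 ≤ c e) {Y Y' : Finset (Sym2 V)} (h : Y ⊆ Y') (e : Sym2 V) :
    cY c Y' e ≤ cY c Y e := by
  unfold cY
  split_ifs with h1 h2 h2
  · exact le_rfl
  · exact hc e
  · exact absurd (h h2) h1
  · exact le_rfl

theorem cY_empty : cY c ∅ = c := by
  ext e
  unfold cY
  simp

theorem wc_cY_zero {Y : Finset (Sym2 V)} {u v : V} (w : G.Walk u v) (h : ∀ e ∈ w.edges, e ∈ Y) :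
    wc (cY c Y) w = 0 := by
  unfold wc
  apply List.sum_eq_zero
  intro x hx
  obtain ⟨e, he, rfl⟩ := List.mem_map.1 hx
  unfold cY
  rw [if_pos (h e he)]

theorem extra [DecidableEq V] (hc : ∀ e, 0 ≤ c e) (Y : Finset (Sym2 V)) {u v : V}
    (w : G.Walk u v) : ec c (Y ∪ w.edges.toFinset) ≤ ec c Y + wc (cY c Y) w := by
  unfold ec
  rw [← union_sdiff_self_eq_union, sum_union disjoint_sdiff]
  have h1 : ∑ e ∈ w.edges.toFinset \ Y, c e ≤ wc (cY c Y) w := by
    calc ∑ e ∈ w.edges.toFinset \ Y, c e = ∑ e ∈ w.edges.toFinset \ Y, cY c Y e := by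
          refine sum_congr rfl fun e he => ?_
          unfold cY
          rw [if_neg (mem_sdiff.1 he).2]
      _ ≤ ∑ e ∈ w.edges.toFinset, cY c Y e :=
          sum_le_sum_of_subset_of_nonneg sdiff_subset fun e _ _ => cY_nonneg hc Y e
      _ ≤ _ := sum_toFinset_le _ (cY_nonneg hc Y) _
  linarith

theorem dW_pmet [Fintype V] [DecidableEq V] (hc : ∀ e, 0 ≤ c e) (r : V) :
    PMet (dW G c r) where
  nn _ _ := dst_nonneg hc _ _
  self _ := dst_self hc _
  symm _ _ := dst_symm _ _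
  tri u v w := dst_tri hc (u.2.symm.trans v.2) (v.2.symm.trans w.2)

end BcrU
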