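import Pool.Agent.Lib.BcrU.LUlt

/-!
MODULE GLev (120 lines). Single linkage levels.

`levOf D ε i j = sInf {k | ReflTransGen (fun a b => D a b ≤ k ε) i j}`. With `D a b ≤ K ε` for all `a b` the set contains `K`
(single step), it is upward closed (`ReflTransGen.mono`, `k ε ≤ k' ε`), so `levOf D ε i j ≤ k ↔ ReflTransGen (D a b ≤ k ε) i j`
(`Nat.sInf_mem`, `Nat.sInf_le`). `Ult`: `refl`, symmetry from the symmetry of `D` (`Relation.ReflTransGen.symmetric`),
transitivity with `k = max`.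
-/

namespace BcrU

open Finset

variable {ι : Type} {D D' : ι → ι → ℝ} {ε : ℝ} {K : ℕ}

private theorem GLev_mono (hε : 0 < ε) {i j : ι} {k k' : ℕ} (hk : k ≤ k')
    (h : Relation.ReflTransGen (fun a b => D a b ≤ (k : ℝ) * ε) i j) :
    Relation.ReflTransGen (fun a b => D a b ≤ (k' : ℝ) * ε) i j := by
  refine Relation.ReflTransGen.mono (fun a b hab => le_trans hab ?_) _ _ h
  have h1 : (k : ℝ) ≤ (k' : ℝ) := by exact_mod_cast hk
  exact mul_le_mul_of_nonneg_right h1 hε.le

private theorem GLev_mem (hK : ∀ i j, D i j ≤ K * ε) (i j : ι) :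
    Relation.ReflTransGen (fun a b => D a b ≤ ((levOf D ε i j : ℕ) : ℝ) * ε) i j := by
  have hne : {k : ℕ | Relation.ReflTransGen (fun a b => D a b ≤ (k : ℝ) * ε) i j}.Nonempty :=
    ⟨K, Relation.ReflTransGen.single (hK i j)⟩
  exact Nat.sInf_mem hne

theorem levOf_le_iff (hε : 0 < ε) (hK : ∀ i j, D i j ≤ K * ε) {i j : ι} {k : ℕ} :
    levOf D ε i j ≤ k ↔ Relation.ReflTransGen (fun a b => D a b ≤ (k : ℝ) * ε) i j :=
  ⟨fun h => GLev_mono hε h (GLev_mem hK i j), fun h => Nat.sInf_le h⟩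

private theorem GLev_symm (hs : ∀ i j, D i j = D j i) {i j : ι} {k : ℕ}
    (h : Relation.ReflTransGen (fun a b => D a b ≤ (k : ℝ) * ε) i j) :
    Relation.ReflTransGen (fun a b => D a b ≤ (k : ℝ) * ε) j i := by
  induction h with
  | refl => exact Relation.ReflTransGen.refl
  | tail _ hbc ih =>
    refine Relation.ReflTransGen.head ?_ ih
    rw [hs]
    exact hbc

theorem levOf_ult (hε : 0 < ε) (hs : ∀ i j, D i j = D j i) (hK : ∀ i j, D i j ≤ K * ε) :
    Ult K (levOf D ε) := by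
  refine ⟨fun i => ?_, fun i j => ?_, fun i j l => ?_, fun i j => ?_⟩
  · exact Nat.le_zero.1 ((levOf_le_iff hε hK).2 Relation.ReflTransGen.refl)
  · exact le_antisymm ((levOf_le_iff hε hK).2 (GLev_symm hs (GLev_mem hK j i)))
      ((levOf_le_iff hε hK).2 (GLev_symm hs (GLev_mem hK i j)))
  · exact (levOf_le_iff hε hK).2 (Relation.ReflTransGen.trans
      (GLev_mono hε (le_max_left _ _) (GLev_mem hK i j))
      (GLev_mono hε (le_max_right _ _) (GLev_mem hK j l)))
  · exact (levOf_le_iff hε hK).2 (Relation.ReflTransGen.single (hK i j))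

theorem levOf_anti (hε : 0 < ε) (hK : ∀ i j, D i j ≤ K * ε) (h : ∀ i j, D' i j ≤ D i j)
    (i j : ι) : levOf D' ε i j ≤ levOf D ε i j := by
  have hK' : ∀ i j, D' i j ≤ K * ε := fun a b => le_trans (h a b) (hK a b)
  exact (levOf_le_iff hε hK').2
    (Relation.ReflTransGen.mono (fun a b hab => le_trans (h a b) hab) _ _ (GLev_mem hK i j))

theorem levOf_le {k : ℕ} {i j : ι} (h : D i j ≤ k * ε) : levOf D ε i j ≤ k :=
  Nat.sInf_le (Relation.ReflTransGen.single h)

end BcrU
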