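import Pool.Agent.Lib.BcrU.Core
import Pool.Agent.Lib.BcrU.GDst
import Pool.Agent.Lib.BcrU.GLev
import Pool.Agent.Lib.BcrU.GShift

/-!
MODULE GTwo (160 lines). The factor two: `MM ∅ ≤ 2 LP + error`.

`D = DD G c t ∅ = dst G c (t i) (t j)` (`cY_empty`), `lev = levOf D ε`, `lev' i j = lev i j - 1`, `Ult K` (`levOf_ult`, `shift_ult`).
For `v` reachable from `r` let `e v B = inf_{i ∈ B} dst G c v (t i)` (`Finset.inf'` for nonempty `B`, `0` for `B = ∅`), for other `v` let
`e v = e r`.
* `Adm lev' ε 1 (e v)`: `nn`; `mono` (`Finset.inf'_mono`); `pair`: `i ∈ B`, `j ∈ C` attain the minima; `k < lev' i j`, so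
  `¬ lev i j ≤ k + 1`, and `levOf_le` gives `D i j > (k+1) ε`; `D i j ≤ dst v (t i) + dst v (t j)` (`dst_tri`, `dst_symm`);
  `hub` with `s = 1`: `e (B ∪ C) ≤ e B ≤ e B + (e B + e C - ε (k+1))`.
* Lipschitz: `|e u B - e v B| ≤ dst u v ≤ c s(u,v)` (`dst_edge`); zero at `t i` for `i ∈ B` (`dst_self`).
* Design `m = 1`, `q = 0`, `θ j = 1/2`: `Des 1 1 0 θ` (`B` for `i = j = 0`), `beta 1 0 θ = 1/2`.
* `core` with `s = 1`: `(1/2) mu lev' univ ≤ (1 + 2 ε/δ) val`, `shift_univ` with `n = 1`: `MM ∅ - ε card ι ≤ mu lev' univ`.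
-/

namespace BcrU

open Finset Bcr3

variable {V : Type} [Fintype V] [DecidableEq V] {G : SimpleGraph V} {c : Sym2 V → ℝ}

open Classical in
/-- the vertex itself if it is reachable, otherwise the root -/
private noncomputable def gtRho {W : Type} (G : SimpleGraph W) (r v : W) : W :=
  if G.Reachable r v then v else r

omit [Fintype V] [DecidableEq V] in
private lemma gtRho_reach (G : SimpleGraph V) (r v : V) : G.Reachable r (gtRho G r v) := by
  unfold gtRho
  split_ifs with h
  · exact h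
  · exact SimpleGraph.Reachable.refl r

/-- the distance to a set of terminals -/
private noncomputable def gtE {ι : Type} (G : SimpleGraph V) (c : Sym2 V → ℝ) (t : ι → V)
    (v : V) (B : Finset ι) : ℝ :=
  if h : B.Nonempty then B.inf' h (fun i => dst G c v (t i)) else 0

omit [Fintype V] [DecidableEq V] in
private lemma gtE_of {ι : Type} {t : ι → V} (v : V) {B : Finset ι} (h : B.Nonempty) :
    gtE G c t v B = B.inf' h (fun i => dst G c v (t i)) := by
  unfold gtE
  rw [dif_pos h]

omit [Fintype V] [DecidableEq V] in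
private lemma gtE_nonneg (hc : ∀ e, 0 ≤ c e) {ι : Type} {t : ι → V} (v : V) {B : Finset ι}
    (h : B.Nonempty) : 0 ≤ gtE G c t v B := by
  rw [gtE_of v h]
  exact Finset.le_inf' h _ fun i _ => dst_nonneg hc _ _

omit [Fintype V] [DecidableEq V] in
private lemma gtE_mono {ι : Type} {t : ι → V} (v : V) {B C : Finset ι}
    (h : B.Nonempty) (hBC : B ⊆ C) : gtE G c t v C ≤ gtE G c t v B := by
  rw [gtE_of v h, gtE_of v (h.mono hBC)]
  exact Finset.inf'_mono _ hBC h

private lemma gtE_pair (hc : ∀ e, 0 ≤ c e) {ι : Type} {t : ι → V} {r : V}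
    (ht : ∀ i, G.Reachable r (t i)) {v : V} (hv : G.Reachable r v) {B C : Finset ι}
    (hB : B.Nonempty) (hC : C.Nonempty) {x : ℝ}
    (h : ∀ i ∈ B, ∀ j ∈ C, x ≤ dst G c (t i) (t j)) : x ≤ gtE G c t v B + gtE G c t v C := by
  rw [gtE_of v hB, gtE_of v hC]
  obtain ⟨i, hi, h1⟩ := Finset.exists_mem_eq_inf' hB (fun i => dst G c v (t i))
  obtain ⟨j, hj, h2⟩ := Finset.exists_mem_eq_inf' hC (fun i => dst G c v (t i))
  rw [h1, h2]
  have h3 := h i hi j hj
  have h4 : dst G c (t i) (t j) ≤ dst G c (t i) v + dst G c v (t j) :=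
    dst_tri hc ((ht i).symm.trans hv) (hv.symm.trans (ht j))
  rw [dst_symm (t i) v] at h4
  linarith

private lemma gtE_lip (hc : ∀ e, 0 ≤ c e) {ι : Type} {t : ι → V} {r : V}
    (ht : ∀ i, G.Reachable r (t i)) {u v : V} (hu : G.Reachable r u) (huv : G.Adj u v)
    {B : Finset ι} (hB : B.Nonempty) : gtE G c t u B ≤ gtE G c t v B + c s(u, v) := by
  rw [gtE_of u hB, gtE_of v hB]
  obtain ⟨i, hi, h1⟩ := Finset.exists_mem_eq_inf' hB (fun i => dst G c v (t i))
  rw [h1]
  refine (Finset.inf'_le _ hi).trans ?_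
  have hv : G.Reachable r v := hu.trans huv.reachable
  have h2 : dst G c u (t i) ≤ dst G c u v + dst G c v (t i) :=
    dst_tri hc huv.reachable (hv.symm.trans (ht i))
  have h3 := dst_edge hc huv
  linarith

theorem M_empty_le (hc : ∀ e, 0 ≤ c e) {R : Finset V} {r : V} {x : V → V → ℝ}
    (hx : Feasible G R r x) {ι : Type} [Fintype ι] [DecidableEq ι] {t : ι → V}
    (htR : ∀ i, t i ∈ R) (ht : ∀ i, G.Reachable r (t i)) {i0 : ι} (hi0 : t i0 = r) {K : ℕ}
    {ε : ℝ} (hε : 0 < ε) (hK : ∀ i j, dst G c (t i) (t j) ≤ K * ε) {δ : ℝ} (hδ : 0 < δ)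
    (hcm : ∀ a, c a = 0 ∨ δ ≤ c a) :
    1 / 2 * (MM G c t K ε ∅ - ε * Fintype.card ι) ≤
      (1 + 2 * ε / δ) * ∑ u, ∑ v, c s(u, v) * x u v := by
  have : Nonempty ι := ⟨i0⟩
  have hDD : ∀ i j, DD G c t ∅ i j = dst G c (t i) (t j) := by
    intro i j
    unfold DD
    rw [cY_empty]
  set lev : ι → ι → ℕ := levOf (DD G c t ∅) ε with hlev
  have hU : Ult K lev := by
    refine levOf_ult hε (fun i j => ?_) (fun i j => ?_)
    · rw [hDD, hDD]
      exact dst_symm _ _
    · rw [hDD]
      exact hK i j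
  have hU' : Ult K fun i j => lev i j - 1 := shift_ult hU 1
  -- pairs of different classes
  have hfar : ∀ (k : ℕ) (i j : ι), k < lev i j - 1 →
      ε * ((k : ℝ) + 1) ≤ dst G c (t i) (t j) := by
    intro k i j h
    by_contra h1
    rw [not_le] at h1
    have h2 : lev i j ≤ k + 1 := by
      refine levOf_le ?_
      rw [hDD]
      push_cast
      rw [mul_comm]
      exact h1.le
    omega
  have hA : ∀ v, Adm (fun i j => lev i j - 1) ε 1 (gtE G c t (gtRho G r v)) := by
    intro v
    have hr := gtRho_reach G r v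
    have hpair : ∀ (k : ℕ) (B C : Finset ι), B.Nonempty → C.Nonempty →
        (∀ i ∈ B, ∀ j ∈ C, k < lev i j - 1) → ε * ((k : ℝ) + 1) ≤
          gtE G c t (gtRho G r v) B + gtE G c t (gtRho G r v) C := by
      intro k B C hB hC h
      exact gtE_pair hc ht hr hB hC fun i hi j hj => hfar k i j (h i hi j hj)
    refine ⟨fun B hB => gtE_nonneg hc _ hB, fun B C hB hBC => gtE_mono _ hB hBC,
      fun k B C hB hC _ _ h => hpair k B C hB hC h, fun k B C hB hC _ _ h => ?_⟩
    have h1 := hpair k B C hB hC h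
    have h2 : gtE G c t (gtRho G r v) (B ∪ C) ≤ gtE G c t (gtRho G r v) B :=
      gtE_mono _ hB Finset.subset_union_left
    linarith
  have hL : ∀ u v, G.Adj u v → ∀ B : Finset ι, B.Nonempty →
      |gtE G c t (gtRho G r u) B - gtE G c t (gtRho G r v) B| ≤ c s(u, v) := by
    intro u v huv B hB
    by_cases hu : G.Reachable r u
    · have hv : G.Reachable r v := hu.trans huv.reachable
      have e1 : gtRho G r u = u := by
        unfold gtRho
        rw [if_pos hu]
      have e2 : gtRho G r v = v := by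
        unfold gtRho
        rw [if_pos hv]
      rw [e1, e2, abs_le]
      have h1 := gtE_lip (c := c) hc ht hu huv hB
      have h2 := gtE_lip (c := c) hc ht hv huv.symm hB
      rw [Sym2.eq_swap] at h2
      constructor <;> linarith
    · have hv : ¬ G.Reachable r v := fun h => hu (h.trans huv.symm.reachable)
      have e1 : gtRho G r u = r := by
        unfold gtRho
        rw [if_neg hu]
      have e2 : gtRho G r v = r := by
        unfold gtRho
        rw [if_neg hv]
      rw [e1, e2, sub_self, abs_zero]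
      exact hc _
  have hz : ∀ i, ∀ B : Finset ι, i ∈ B → gtE G c t (gtRho G r (t i)) B = 0 := by
    intro i B hi
    have e1 : gtRho G r (t i) = t i := by
      unfold gtRho
      rw [if_pos (ht i)]
    have hB : B.Nonempty := ⟨i, hi⟩
    rw [e1]
    apply le_antisymm _ (gtE_nonneg hc _ hB)
    rw [gtE_of _ hB]
    exact (Finset.inf'_le _ hi).trans (dst_self hc (t i)).le
  have hDes : Des 1 1 0 (fun _ => (1 / 2 : ℝ)) := by
    refine ⟨by norm_num, by norm_num, fun _ _ => by norm_num, fun _ _ => by norm_num,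
      fun _ _ _ _ => le_rfl, fun i j _ h => ?_, fun _ _ _ _ _ => by norm_num⟩
    omega
  have h1 := core hc hx htR hi0 hU' hε zero_le_one hDes hA hL hz hδ hcm
  have h2 : beta 1 0 (fun _ => (1 / 2 : ℝ)) = 1 / 2 := by
    unfold beta
    norm_num
  rw [h2] at h1
  refine le_trans ?_ h1
  have h3 := shift_univ hU hε.le 1
  rw [Nat.cast_one, mul_one] at h3
  have h4 : MM G c t K ε ∅ = mu lev K ε univ := rfl
  rw [h4]
  linarith

end BcrU
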