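import Pool.Agent.Lib.BcrU.GExch
import Pool.Agent.Lib.BcrU.GDst

/-!
MODULE MstLow (150 lines). `MM ∅ ≤ MST + ε card R`.

`ι = {v // v ∈ R}`, `t = Subtype.val`; `DD G c t ∅ i j = dst G c i j` (`cY_empty`). Let `T` be a tree on `ι`. Take the list
`F = T.edgeFinset.toList.map (fun e => ((Quot.out e).1, (Quot.out e).2, dst ..))` (or any list with one entry per edge).
`FConn univ F`: `T` is connected, every walk of `T` gives a chain (an edge `s(a,b)` has `Quot.out = (a,b)` or `(b,a)`).
`F.length = number of edges = card ι - 1` (`SimpleGraph.IsTree.card_edgeFinset`), the sum of the weights is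
`∑ e ∈ T.edgeFinset, dst e = (∑ u, ∑ v, if T.Adj u v then dst u v else 0)/2` (each edge gives two ordered pairs; for example
by `Finset.sum_comm'`/fibers of the darts, `SimpleGraph.dart_edge_fiber_card`, or the filter of pairs maps 2-to-1 to the edges).
`mst_le` gives `MM ∅ ≤ cost T + ε F.length`. So `MM ∅ - ε card R` is a lower bound; `le_csInf`; the set is not empty since the
complete graph on the nonempty `ι` is connected and has a spanning tree (`SimpleGraph.Connected.exists_isTree_le`).
-/

namespace BcrU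

open Finset Bcr3

variable {V : Type} [Fintype V] [DecidableEq V] {G : SimpleGraph V} {c : Sym2 V → ℝ}

private theorem MstLow_out {ι : Type} (e : Sym2 ι) : s((Quot.out e).1, (Quot.out e).2) = e :=
  Quot.out_eq e

private theorem MstLow_sum {ι : Type} [Fintype ι] [DecidableEq ι] (T : SimpleGraph ι)
    [DecidableRel T.Adj] [Fintype T.edgeSet] (D : ι → ι → ℝ) (hs : ∀ i j, D i j = D j i) :
    (∑ u, ∑ v, if T.Adj u v then D u v else 0) / 2 =
      ∑ e ∈ T.edgeFinset, D (Quot.out e).1 (Quot.out e).2 := by
  classical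
  set f : Sym2 ι → ℝ := fun e => D (Quot.out e).1 (Quot.out e).2 with hf
  have hfs : ∀ a b, f s(a, b) = D a b := by
    intro a b
    have h := MstLow_out s(a, b)
    rw [Sym2.eq_iff] at h
    simp only [hf]
    rcases h with ⟨h1, h2⟩ | ⟨h1, h2⟩
    · rw [h1, h2]
    · rw [h1, h2, hs]
  have h1 : (∑ u, ∑ v, if T.Adj u v then D u v else 0) =
      ∑ x ∈ (univ : Finset (ι × ι)).filter (fun x => T.Adj x.1 x.2), f s(x.1, x.2) := by
    rw [sum_filter, ← univ_product_univ, sum_product]
    refine sum_congr rfl fun u _ => sum_congr rfl fun v _ => ?_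
    simp only [hfs]
  have h2 : ∑ x ∈ (univ : Finset (ι × ι)).filter (fun x => T.Adj x.1 x.2), f s(x.1, x.2) =
      ∑ e ∈ T.edgeFinset, 2 * f e := by
    rw [← sum_fiberwise_of_maps_to (t := T.edgeFinset)
      (g := fun x : ι × ι => (s(x.1, x.2) : Sym2 ι))
      (fun x hx => by
        rw [SimpleGraph.mem_edgeFinset, SimpleGraph.mem_edgeSet]
        exact (mem_filter.1 hx).2)]
    refine sum_congr rfl fun e he => ?_
    induction e using Sym2.ind with
    | _ a b =>
      rw [SimpleGraph.mem_edgeFinset, SimpleGraph.mem_edgeSet] at he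
      have hfib : ((univ : Finset (ι × ι)).filter (fun x => T.Adj x.1 x.2)).filter
          (fun x => (s(x.1, x.2) : Sym2 ι) = s(a, b)) = {(a, b), (b, a)} := by
        ext ⟨u, v⟩
        simp only [mem_filter, mem_univ, true_and, mem_insert, mem_singleton, Prod.mk.injEq,
          Sym2.eq_iff]
        constructor
        · rintro ⟨_, h⟩
          exact h
        · intro h
          refine ⟨?_, h⟩
          rcases h with ⟨rfl, rfl⟩ | ⟨rfl, rfl⟩
          · exact he
          · exact he.symm
      rw [hfib, sum_pair]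
      · rw [Sym2.eq_swap (a := b) (b := a)]
        ring
      · intro h
        rw [Prod.mk.injEq] at h
        exact he.ne h.1
  rw [h1, h2, ← mul_sum]
  ring

theorem mst_low (hc : ∀ e, 0 ≤ c e) {R : Finset V} {r : V} (hr : r ∈ R) {K : ℕ} {ε : ℝ}
    (hε : 0 < ε) (hK : ∀ i j : {v // v ∈ R}, dst G c i.1 j.1 ≤ K * ε) :
    MM G c (fun i : {v // v ∈ R} => i.1) K ε ∅ ≤ MST G c R + ε * R.card := by
  classical
  have _hne : Nonempty {v // v ∈ R} := ⟨⟨r, hr⟩⟩
  have hMM : MM G c (fun i : {v // v ∈ R} => i.1) K ε ∅ =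
      mu (levOf (fun i j : {v // v ∈ R} => dst G c i.1 j.1) ε) K ε univ := by
    unfold MM DD
    rw [cY_empty]
  rw [hMM]
  suffices h : mu (levOf (fun i j : {v // v ∈ R} => dst G c i.1 j.1) ε) K ε univ -
      ε * R.card ≤ MST G c R by linarith
  unfold MST
  apply le_csInf
  · have hconn : (⊤ : SimpleGraph {v // v ∈ R}).Connected := SimpleGraph.connected_top
    obtain ⟨T, _, hT⟩ := hconn.exists_isTree_le
    exact ⟨_, T, hT, rfl⟩
  · rintro x ⟨T, hT, rfl⟩
    rw [MstLow_sum T (fun i j : {v // v ∈ R} => dst G c i.1 j.1) (fun i j => dst_symm _ _)]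
    set F : List ({v // v ∈ R} × {v // v ∈ R} × ℝ) := T.edgeFinset.toList.map fun e =>
      ((Quot.out e).1, (Quot.out e).2, dst G c (Quot.out e).1.1 (Quot.out e).2.1) with hF
    have hFc : FConn univ F := by
      intro i hi j hj
      clear hi hj
      obtain ⟨w⟩ := hT.connected i j
      induction w with
      | nil => exact Relation.ReflTransGen.refl
      | cons h p ih =>
        refine Relation.ReflTransGen.head ?_ ih
        rename_i a b _
        refine ⟨((Quot.out s(a, b)).1, (Quot.out s(a, b)).2,
          dst G c (Quot.out s(a, b)).1.1 (Quot.out s(a, b)).2.1), ?_, ?_⟩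
        · rw [hF, List.mem_map]
          refine ⟨s(a, b), ?_, rfl⟩
          rw [mem_toList, SimpleGraph.mem_edgeFinset, SimpleGraph.mem_edgeSet]
          exact h
        · have h2 := MstLow_out s(a, b)
          rw [Sym2.eq_iff] at h2
          exact h2
    have hle := mst_le hε (fun i j => dst_symm _ _) hK hFc (by
      intro x hx
      rw [hF, List.mem_map] at hx
      obtain ⟨e, _, rfl⟩ := hx
      exact ⟨dst_nonneg hc _ _, le_rfl⟩)
    have hsum : (F.map fun x => x.2.2).sum =
        ∑ e ∈ T.edgeFinset, dst G c (Quot.out e).1.1 (Quot.out e).2.1 := by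
      rw [hF, List.map_map]
      exact sum_map_toList _ _
    have hlen : (F.length : ℝ) ≤ R.card := by
      have h3 := hT.card_edgeFinset
      rw [Fintype.card_coe] at h3
      rw [hF, List.length_map, length_toList]
      exact_mod_cast (by omega : T.edgeFinset.card ≤ R.card)
    have h4 : ε * (F.length : ℝ) ≤ ε * R.card := mul_le_mul_of_nonneg_left hlen hε.le
    rw [hsum] at hle
    linarith

end BcrU
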