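import Pool.Agent.Lib.BcrU.Defs

/-!
MODULE LUlt (220 lines). Elementary facts on classes, `kap` and `mu` for ultrametric levels.

Proofs.
* `mem_cl`: by definition. `mem_cl_self`: `lev i i = 0`.
* `cl_eq_iff`: if `lev i j ≤ k` then `lev i l ≤ k ↔ lev j l ≤ k` by `symm`, `ultra`; conversely `j ∈ cl k j = cl k i`.
* `cl_mono`: transitivity of `≤`.
* `cls_lev_le`: `B = cl k l`, `lev i j ≤ max (lev i l) (lev l j)`.
* `cls_cross`: `B = cl k a ≠ C = cl k b`, if `lev i j ≤ k` with `i ∈ B`, `j ∈ C` then `B = cl k i = cl k j = C`.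
* `cls_top`: `lev ≤ K`, so `cl K i = univ`.
* `cls_succ_union`: for `C = cl (k+1) i` the classes of level `k` contained in `C` have union `C`
  (`j ∈ C` lies in `cl k j ⊆ cl (k+1) j = C`).
* `card_cls_eq`: `kap k univ = (cls k).card` by definition.
* `kap_one`: if all `lev i j ≤ k` on `S ≠ ∅` then the image is a singleton. `kap_pos`.
* `kap_mono_lev`: if `lev' i j ≤ k` whenever `lev i j ≤ k'` then `kap lev' k S ≤ kap lev k' S`: choose for each class of
  `lev'` meeting `S` a point of `S`, its class for `lev`; or: the map `cl lev k' i ↦ cl lev' k i` is well defined (use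
  `cl_eq_iff`), surjective.
* `mu_union`: `k < K` because `k < lev i j ≤ K`. For `k' ≤ k`: `kap k' (S₁ ∪ S₂) = kap k' S₁ + kap k' S₂`
  (`image_union`, the images are disjoint, since a common class contains `i ∈ S₁, j ∈ S₂` with `lev i j ≤ k'`). For
  `k' > k` both `kap k' S₁ = kap k' S₂ = 1` (`kap_one`) and `kap k' (S₁ ∪ S₂) ≥ 1`. So
  `(kap k' (S₁∪S₂) - 1) ≥ (kap k' S₁ - 1) + (kap k' S₂ - 1) + [k' ≤ k]`; sum over `k' < K` (there are `k + 1` values `k' ≤ k`).
* `mu_singleton`: `kap = 1`. `mu_nonneg`: `kap ≥ 1`.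
-/

namespace BcrU

open Finset

variable {ι : Type} [Fintype ι] [DecidableEq ι] {lev : ι → ι → ℕ} {K : ℕ}

theorem mem_cl {k : ℕ} {i j : ι} : j ∈ cl lev k i ↔ lev i j ≤ k := by
  simp [cl]

theorem mem_cl_self (hU : Ult K lev) (k : ℕ) (i : ι) : i ∈ cl lev k i := by
  rw [mem_cl, hU.refl]
  exact Nat.zero_le _

theorem cl_eq_iff (hU : Ult K lev) {k : ℕ} {i j : ι} : cl lev k i = cl lev k j ↔ lev i j ≤ k := by
  constructor
  · intro h
    have : j ∈ cl lev k i := h ▸ mem_cl_self hU k j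
    exact mem_cl.1 this
  · intro h
    ext l
    rw [mem_cl, mem_cl]
    constructor
    · intro hl
      exact (hU.ultra j i l).trans (max_le (by rw [hU.symm]; exact h) hl)
    · intro hl
      exact (hU.ultra i j l).trans (max_le h hl)

theorem cl_mono {k k' : ℕ} (hk : k ≤ k') (i : ι) : cl lev k i ⊆ cl lev k' i := by
  intro j hj
  rw [mem_cl] at *
  exact hj.trans hk

theorem cls_nonempty (hU : Ult K lev) {k : ℕ} {B : Finset ι} (hB : B ∈ cls lev k) :
    B.Nonempty := by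
  rw [cls, mem_image] at hB
  obtain ⟨l, _, rfl⟩ := hB
  exact ⟨l, mem_cl_self hU k l⟩

theorem cls_eq_cl (hU : Ult K lev) {k : ℕ} {B : Finset ι} (hB : B ∈ cls lev k) {i : ι}
    (hi : i ∈ B) : B = cl lev k i := by
  rw [cls, mem_image] at hB
  obtain ⟨l, _, rfl⟩ := hB
  exact (cl_eq_iff hU).2 (mem_cl.1 hi)

theorem cls_lev_le (hU : Ult K lev) {k : ℕ} {B : Finset ι} (hB : B ∈ cls lev k) {i j : ι}
    (hi : i ∈ B) (hj : j ∈ B) : lev i j ≤ k := by
  have h := cls_eq_cl hU hB hi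
  rw [h] at hj
  exact mem_cl.1 hj

theorem cls_cross (hU : Ult K lev) {k : ℕ} {B C : Finset ι} (hB : B ∈ cls lev k)
    (hC : C ∈ cls lev k) (hBC : B ≠ C) {i j : ι} (hi : i ∈ B) (hj : j ∈ C) : k < lev i j := by
  by_contra h
  have h := (cl_eq_iff hU).2 (not_lt.1 h)
  exact hBC ((cls_eq_cl hU hB hi).trans (h.trans (cls_eq_cl hU hC hj).symm))

theorem cls_top [Nonempty ι] (hU : Ult K lev) : cls lev K = {univ} := by
  have h : ∀ i : ι, cl lev K i = univ := by
    intro i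
    ext j
    rw [mem_cl]
    simp [hU.bound i j]
  ext B
  rw [cls, mem_image, mem_singleton]
  constructor
  · rintro ⟨l, _, rfl⟩
    exact h l
  · rintro rfl
    exact ⟨Classical.arbitrary ι, mem_univ _, h _⟩

theorem cls_succ_union (hU : Ult K lev) {k : ℕ} {C : Finset ι} (hC : C ∈ cls lev (k + 1)) :
    ((cls lev k).filter fun B => B ⊆ C).biUnion id = C := by
  ext j
  simp only [mem_biUnion, mem_filter, id]
  constructor
  · rintro ⟨B, ⟨_, hBC⟩, hj⟩
    exact hBC hj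
  · intro hj
    refine ⟨cl lev k j, ⟨mem_image_of_mem _ (mem_univ _), ?_⟩, mem_cl_self hU k j⟩
    rw [cls_eq_cl hU hC hj]
    exact cl_mono (Nat.le_succ k) j

theorem kap_pos {k : ℕ} {S : Finset ι} (hS : S.Nonempty) : 1 ≤ kap lev k S :=
  Finset.card_pos.2 (hS.image _)

theorem kap_one (hU : Ult K lev) {k : ℕ} {S : Finset ι} (hS : S.Nonempty)
    (h : ∀ i ∈ S, ∀ j ∈ S, lev i j ≤ k) : kap lev k S = 1 := by
  obtain ⟨i, hi⟩ := hS
  rw [kap, Finset.card_eq_one]
  refine ⟨cl lev k i, ?_⟩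
  ext B
  rw [mem_image, mem_singleton]
  constructor
  · rintro ⟨j, hj, rfl⟩
    exact (cl_eq_iff hU).2 (h j hj i hi)
  · rintro rfl
    exact ⟨i, hi, rfl⟩

theorem kap_mono_lev {K' : ℕ} {lev' : ι → ι → ℕ} (hU : Ult K lev) (hU' : Ult K' lev')
    {k k' : ℕ} (h : ∀ i j, lev i j ≤ k' → lev' i j ≤ k) (S : Finset ι) :
    kap lev' k S ≤ kap lev k' S := by
  classical
  have h1 : S.image (cl lev' k) ⊆
      (S.image (cl lev k')).image (fun B => B.biUnion (cl lev' k)) := by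
    intro B hB
    rw [mem_image] at hB
    obtain ⟨i, hi, rfl⟩ := hB
    rw [mem_image]
    refine ⟨cl lev k' i, mem_image_of_mem _ hi, ?_⟩
    ext l
    rw [mem_biUnion]
    constructor
    · rintro ⟨j, hj, hl⟩
      rwa [(cl_eq_iff hU').2 (h i j (mem_cl.1 hj))]
    · intro hl
      exact ⟨i, mem_cl_self hU k' i, hl⟩
  exact (Finset.card_le_card h1).trans Finset.card_image_le

theorem mu_singleton (hU : Ult K lev) (ε : ℝ) (i : ι) : mu lev K ε {i} = 0 := by
  rw [mu]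
  have h : ∀ k ∈ range K, ((kap lev k {i} : ℝ) - 1) = 0 := by
    intro k _
    simp [kap]
  rw [Finset.sum_congr rfl h]
  simp

theorem mu_nonneg {ε : ℝ} (hε : 0 ≤ ε) {S : Finset ι} (hS : S.Nonempty) :
    0 ≤ mu lev K ε S := by
  rw [mu]
  refine mul_nonneg hε (Finset.sum_nonneg fun k _ => ?_)
  have h : (1 : ℝ) ≤ kap lev k S := by exact_mod_cast kap_pos hS
  linarith

theorem mu_union (hU : Ult K lev) {ε : ℝ} (hε : 0 ≤ ε) {k : ℕ} {S₁ S₂ : Finset ι}
    (h₁ : S₁.Nonempty) (h₂ : S₂.Nonempty) (l₁ : ∀ i ∈ S₁, ∀ j ∈ S₁, lev i j ≤ k + 1)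
    (l₂ : ∀ i ∈ S₂, ∀ j ∈ S₂, lev i j ≤ k + 1) (hc : ∀ i ∈ S₁, ∀ j ∈ S₂, k < lev i j) :
    mu lev K ε S₁ + mu lev K ε S₂ + ε * ((k : ℝ) + 1) ≤ mu lev K ε (S₁ ∪ S₂) := by
  classical
  obtain ⟨i₀, hi₀⟩ := h₁
  obtain ⟨j₀, hj₀⟩ := h₂
  have hkK : k < K := lt_of_lt_of_le (hc i₀ hi₀ j₀ hj₀) (hU.bound _ _)
  have key : ∀ k' ∈ range K, ((kap lev k' S₁ : ℝ) - 1) + ((kap lev k' S₂ : ℝ) - 1) +
      (if k' ≤ k then (1 : ℝ) else 0) ≤ (kap lev k' (S₁ ∪ S₂) : ℝ) - 1 := by
    intro k' _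
    by_cases hk : k' ≤ k
    · rw [if_pos hk]
      have hd : Disjoint (S₁.image (cl lev k')) (S₂.image (cl lev k')) := by
        rw [Finset.disjoint_left]
        intro B hB₁ hB₂
        rw [mem_image] at hB₁ hB₂
        obtain ⟨i, hi, rfl⟩ := hB₁
        obtain ⟨j, hj, hij⟩ := hB₂
        have h := (cl_eq_iff hU).1 hij.symm
        have h' := hc i hi j hj
        omega
      have h : kap lev k' (S₁ ∪ S₂) = kap lev k' S₁ + kap lev k' S₂ := by
        rw [kap, Finset.image_union, Finset.card_union_of_disjoint hd]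
        rfl
      rw [h]
      push_cast
      linarith
    · rw [if_neg hk]
      have e1 : kap lev k' S₁ = 1 := kap_one hU ⟨i₀, hi₀⟩ fun i hi j hj =>
        (l₁ i hi j hj).trans (by omega)
      have e2 : kap lev k' S₂ = 1 := kap_one hU ⟨j₀, hj₀⟩ fun i hi j hj =>
        (l₂ i hi j hj).trans (by omega)
      have h : (1 : ℝ) ≤ kap lev k' (S₁ ∪ S₂) := by
        exact_mod_cast kap_pos (lev := lev) (k := k') (S := S₁ ∪ S₂)
          ⟨i₀, Finset.mem_union_left _ hi₀⟩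
      rw [e1, e2]
      push_cast
      linarith
  have hs := Finset.sum_le_sum key
  have hc : ∑ k' ∈ range K, (if k' ≤ k then (1 : ℝ) else 0) = (k : ℝ) + 1 := by
    rw [← Finset.sum_filter]
    have : (range K).filter (fun k' => k' ≤ k) = range (k + 1) := by
      ext a
      simp only [mem_filter, mem_range]
      omega
    rw [this]
    simp
  rw [Finset.sum_add_distrib, Finset.sum_add_distrib, hc] at hs
  have := mul_le_mul_of_nonneg_left hs hε
  rw [mu, mu, mu]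
  nlinarith [this]

end BcrU
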