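import Pool.Agent.Lib.BcrU.LCount

/-!
MODULE LPath (220 lines). The path lemma (Lemma 5).

Index set: triples `(k, B, j)`, `k < K`, `B ∈ cls lev k`, `j < m`. `a = θ j (ε k)`, `b = θ j (ε (k+1))`, `b - a = θ j ε`,
`0 < θ j ε ≤ ε`.  `e^x = (1 - x) e0 + x e1` is admissible for `0 ≤ x ≤ 1` (`adm_convex`: all conditions are linear).
Let `lo = min (e0 B) (e1 B)`, `hi = max`.
(1) If `lo < b ≤ hi` then `b - a ≤ ov + (b - a) [a ≤ lo < b]` where `ov = max 0 (min hi b - max lo a)` (overlap):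
    if `lo ≤ a` then `ov = b - a`; else `a < lo < b`. And `[a ≤ lo < b] ≤ [a ≤ e0 B < b] + [a ≤ e1 B < b]`.
(2) `one_interval`: `ov ≤ |e1 B - e0 B| * vol {x ∈ [0,1] : a ≤ e^x B < b}`: if `e0 B = e1 B` then `ov = 0`
    (`ov = max 0 (min h b - max h a) = 0` as `min h b ≤ h ≤ max h a`). Otherwise the map `x ↦ e^x B` is affine with slope
    `σ = e1 B - e0 B ≠ 0`, and the set contains the open interval (or `Ioo`) of length `ov / |σ|`
    (with ends `(max lo a - e0 B)/σ` and `(min hi b - e0 B)/σ`, ordered).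
(3) `∑ vol {x ∈ [0,1] : a ≤ e^x B < b} ≤ m`: the sum is `∫_{[0,1]} ∑ indicator`, and at each `x` the sum of indicators is at
    most `m` by `count_le` for `e^x`. (`sum_vol_le`: if every point of `Icc 0 1` lies in at most `m` of the sets `A i`
    (measurable) then `∑ volume.real (A i ∩ Icc 0 1) ≤ m`.)
(4) Sum: `∑ (b - a) [crossing] ≤ δ m + ε (count e0) + ε (count e1) ≤ m δ + 2 m ε`.
-/

namespace BcrU

open Finset MeasureTheory

variable {ι : Type} [Fintype ι] [DecidableEq ι] {lev : ι → ι → ℕ} {K : ℕ}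

theorem adm_convex {ε s : ℝ} {e0 e1 : Finset ι → ℝ} (hs : 0 ≤ s) (h0 : Adm lev ε s e0)
    (h1 : Adm lev ε s e1) {x : ℝ} (hx0 : 0 ≤ x) (hx1 : x ≤ 1) :
    Adm lev ε s fun B => (1 - x) * e0 B + x * e1 B := by
  have _ := hs
  have hx2 : 0 ≤ 1 - x := by linarith
  refine ⟨?_, ?_, ?_, ?_⟩
  · intro B hB
    have a0 := h0.nn B hB
    have a1 := h1.nn B hB
    show 0 ≤ (1 - x) * e0 B + x * e1 B
    positivity
  · intro B C hB hBC
    have a0 := mul_le_mul_of_nonneg_left (h0.mono B C hB hBC) hx2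
    have a1 := mul_le_mul_of_nonneg_left (h1.mono B C hB hBC) hx0
    show (1 - x) * e0 C + x * e1 C ≤ (1 - x) * e0 B + x * e1 B
    linarith
  · intro k B C hB hC hBB hCC hBC
    have a0 := mul_le_mul_of_nonneg_left (h0.pair k B C hB hC hBB hCC hBC) hx2
    have a1 := mul_le_mul_of_nonneg_left (h1.pair k B C hB hC hBB hCC hBC) hx0
    show ε * ((k : ℝ) + 1) ≤ (1 - x) * e0 B + x * e1 B + ((1 - x) * e0 C + x * e1 C)
    linarith
  · intro k B C hB hC hBB hCC hBC
    have a0 := mul_le_mul_of_nonneg_left (h0.hub k B C hB hC hBB hCC hBC) hx2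
    have a1 := mul_le_mul_of_nonneg_left (h1.hub k B C hB hC hBB hCC hBC) hx0
    show (1 - x) * e0 (B ∪ C) + x * e1 (B ∪ C) ≤ (1 - x) * e0 B + x * e1 B +
      ((1 - x) * e0 C + x * e1 C) - ε * ((k : ℝ) + 1) + s * ((1 - x) * e0 B + x * e1 B)
    linarith

private theorem lp_fin (A : Set ℝ) : volume (A ∩ Set.Icc (0 : ℝ) 1) ≠ ⊤ := by
  refine ne_top_of_le_ne_top ?_ (measure_mono Set.inter_subset_right)
  simp

theorem one_interval (p r a b : ℝ) :
    max 0 (min (max p r) b - max (min p r) a) ≤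
      |r - p| * volume.real ({x : ℝ | a ≤ (1 - x) * p + x * r ∧ (1 - x) * p + x * r < b} ∩
        Set.Icc 0 1) := by
  have hnn : 0 ≤ |r - p| * volume.real ({x : ℝ | a ≤ (1 - x) * p + x * r ∧
      (1 - x) * p + x * r < b} ∩ Set.Icc 0 1) := mul_nonneg (abs_nonneg _) measureReal_nonneg
  rcases le_or_gt (min (max p r) b) (max (min p r) a) with h | h
  · rw [max_eq_left (by linarith)]
    exact hnn
  rw [max_eq_right (by linarith)]
  set L := max (min p r) a with hL
  set R := min (max p r) b with hR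
  have hLa : a ≤ L := le_max_right _ _
  have hRb : R ≤ b := min_le_right _ _
  have hLlo : min p r ≤ L := le_max_left _ _
  have hRhi : R ≤ max p r := min_le_left _ _
  rcases lt_trichotomy p r with hpr | hpr | hpr
  · have hσ : 0 < r - p := by linarith
    rw [min_eq_left hpr.le] at hLlo
    rw [max_eq_right hpr.le] at hRhi
    have hsub : Set.Ioo ((L - p) / (r - p)) ((R - p) / (r - p)) ⊆
        {x : ℝ | a ≤ (1 - x) * p + x * r ∧ (1 - x) * p + x * r < b} ∩ Set.Icc 0 1 := by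
      rintro x ⟨hx1, hx2⟩
      rw [div_lt_iff₀ hσ] at hx1
      rw [lt_div_iff₀ hσ] at hx2
      refine ⟨⟨by linarith, by linarith⟩, ?_, ?_⟩
      · by_contra hc
        push Not at hc
        nlinarith
      · by_contra hc
        push Not at hc
        nlinarith
    have h2 := measureReal_mono hsub (lp_fin _)
    rw [Real.volume_real_Ioo_of_le (by gcongr)] at h2
    rw [abs_of_pos hσ]
    have h3 := mul_le_mul_of_nonneg_left h2 hσ.le
    have h4 : (r - p) * ((R - p) / (r - p) - (L - p) / (r - p)) = R - L := by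
      field_simp
      ring
    linarith
  · subst hpr
    simp only [min_self, max_self] at hLlo hRhi
    linarith
  · have hσ : 0 < p - r := by linarith
    rw [min_eq_right hpr.le] at hLlo
    rw [max_eq_left hpr.le] at hRhi
    have hsub : Set.Ioo ((p - R) / (p - r)) ((p - L) / (p - r)) ⊆
        {x : ℝ | a ≤ (1 - x) * p + x * r ∧ (1 - x) * p + x * r < b} ∩ Set.Icc 0 1 := by
      rintro x ⟨hx1, hx2⟩
      rw [div_lt_iff₀ hσ] at hx1
      rw [lt_div_iff₀ hσ] at hx2
      refine ⟨⟨by linarith, by linarith⟩, ?_, ?_⟩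
      · by_contra hc
        push Not at hc
        nlinarith
      · by_contra hc
        push Not at hc
        nlinarith
    have h2 := measureReal_mono hsub (lp_fin _)
    rw [Real.volume_real_Ioo_of_le (by gcongr)] at h2
    rw [abs_of_neg (by linarith : r - p < 0)]
    have h3 := mul_le_mul_of_nonneg_left h2 hσ.le
    have h4 : (p - r) * ((p - L) / (p - r) - (p - R) / (p - r)) = R - L := by
      field_simp
      ring
    have h5 : -(r - p) = p - r := by ring
    rw [h5]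
    linarith

theorem sum_vol_le {κ : Type} (T : Finset κ) (A : κ → Set ℝ) (hA : ∀ i ∈ T, MeasurableSet (A i))
    (m : ℕ) (h : ∀ x ∈ Set.Icc (0 : ℝ) 1, ∀ U ⊆ T, (∀ i ∈ U, x ∈ A i) → U.card ≤ m) :
    ∑ i ∈ T, volume.real (A i ∩ Set.Icc 0 1) ≤ m := by
  classical
  have h1 : ∀ i ∈ T, volume.real (A i ∩ Set.Icc 0 1) =
      ∫ x in Set.Icc (0 : ℝ) 1, (A i).indicator (fun _ => (1 : ℝ)) x := by
    intro i hi
    rw [integral_indicator (hA i hi), Measure.restrict_restrict (hA i hi)]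
    simp
  rw [sum_congr rfl h1, ← integral_finset_sum]
  · have h2 : ∫ x in Set.Icc (0 : ℝ) 1, ∑ i ∈ T, (A i).indicator (fun _ => (1 : ℝ)) x ≤
        ∫ x in Set.Icc (0 : ℝ) 1, (m : ℝ) := by
      refine setIntegral_mono_on ?_ ?_ measurableSet_Icc ?_
      · refine integrable_finset_sum _ fun i hi => ?_
        exact (integrable_const (1 : ℝ)).indicator (hA i hi)
      · exact integrable_const _
      · intro x hx
        have h3 : ∑ i ∈ T, (A i).indicator (fun _ => (1 : ℝ)) x =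
            ((T.filter fun i => x ∈ A i).card : ℝ) := by
          rw [card_filter]
          push_cast
          refine sum_congr rfl fun i _ => ?_
          by_cases hxi : x ∈ A i <;> simp [hxi]
        rw [h3]
        exact_mod_cast h x hx _ (filter_subset _ _) fun i hi => (mem_filter.mp hi).2
    refine h2.trans ?_
    simp
  · intro i hi
    exact (integrable_const (1 : ℝ)).indicator (hA i hi)

private theorem lp_cross {p r a b d : ℝ} (hd : 0 ≤ d) (hb : b = a + d) :
    (if min p r < b ∧ b ≤ max p r then d else 0) ≤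
      max 0 (min (max p r) b - max (min p r) a) + (d * (if a ≤ p ∧ p < b then 1 else 0) +
        d * (if a ≤ r ∧ r < b then 1 else 0)) := by
  have h1 : 0 ≤ d * (if a ≤ p ∧ p < b then (1 : ℝ) else 0) := by
    split_ifs <;> simp [hd]
  have h2 : 0 ≤ d * (if a ≤ r ∧ r < b then (1 : ℝ) else 0) := by
    split_ifs <;> simp [hd]
  have h3 : 0 ≤ max 0 (min (max p r) b - max (min p r) a) := le_max_left _ _
  by_cases h : min p r < b ∧ b ≤ max p r
  · rw [if_pos h]
    rcases le_or_gt (min p r) a with hla | hla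
    · have h4 : min (max p r) b - max (min p r) a ≤ max 0 (min (max p r) b - max (min p r) a) :=
        le_max_right _ _
      rw [min_eq_right h.2, max_eq_right hla] at h4
      rw [min_eq_right h.2, max_eq_right hla]
      linarith
    · rcases min_choice p r with hm | hm
      · rw [hm] at hla h
        rw [if_pos (⟨hla.le, h.1⟩ : a ≤ p ∧ p < b)]
        linarith
      · rw [hm] at hla h
        rw [if_pos (⟨hla.le, h.1⟩ : a ≤ r ∧ r < b)]
        linarith
  · rw [if_neg h]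
    linarith

private theorem lp_cnt [Nonempty ι] {ε s : ℝ} {m q : ℕ} {θ : ℕ → ℝ} {e : Finset ι → ℝ}
    (hU : Ult K lev) (hε : 0 < ε) (hs : 0 ≤ s) (hD : Des s m q θ) (he : Adm lev ε s e) :
    ∑ k ∈ range K, ∑ B ∈ cls lev k, ∑ j ∈ range m,
      θ j * ε * (if θ j * (ε * (k : ℝ)) ≤ e B ∧ e B < θ j * (ε * ((k : ℝ) + 1)) then 1 else 0) ≤
      ε * m := by
  have h1 : ∑ k ∈ range K, ∑ B ∈ cls lev k, ∑ j ∈ range m,
      θ j * ε * (if θ j * (ε * (k : ℝ)) ≤ e B ∧ e B < θ j * (ε * ((k : ℝ) + 1)) then 1 else 0) ≤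
      ∑ k ∈ range K, ∑ B ∈ cls lev k, ∑ j ∈ range m,
      ε * (if θ j * (ε * (k : ℝ)) ≤ e B ∧ e B < θ j * (ε * ((k : ℝ) + 1)) then (1 : ℝ) else 0) := by
    refine sum_le_sum fun k _ => sum_le_sum fun B _ => sum_le_sum fun j hj => ?_
    have hj' := mem_range.mp hj
    refine mul_le_mul_of_nonneg_right ?_ (by split_ifs <;> norm_num)
    have := hD.lt_one j hj'
    nlinarith
  refine h1.trans ?_
  have h2 : ∑ k ∈ range K, ∑ B ∈ cls lev k, ∑ j ∈ range m,
      ε * (if θ j * (ε * (k : ℝ)) ≤ e B ∧ e B < θ j * (ε * ((k : ℝ) + 1)) then (1 : ℝ) else 0) =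
      ε * ((∑ k ∈ range K, ∑ B ∈ cls lev k,
      ((range m).filter fun j => θ j * (ε * (k : ℝ)) ≤ e B ∧
        e B < θ j * (ε * ((k : ℝ) + 1))).card : ℕ) : ℝ) := by
    push_cast
    simp only [card_filter, mul_sum]
    push_cast
    simp only [mul_sum]
  rw [h2]
  refine mul_le_mul_of_nonneg_left ?_ hε.le
  exact_mod_cast count_le hU hε hs hD he

theorem cross_le [Nonempty ι] {ε s δ : ℝ} {m q : ℕ} {θ : ℕ → ℝ} {e0 e1 : Finset ι → ℝ}
    (hU : Ult K lev) (hε : 0 < ε) (hs : 0 ≤ s) (hD : Des s m q θ) (h0 : Adm lev ε s e0)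
    (h1 : Adm lev ε s e1) (hδ : ∀ B : Finset ι, B.Nonempty → |e0 B - e1 B| ≤ δ) :
    ∑ k ∈ range K, ∑ B ∈ cls lev k, ∑ j ∈ range m,
      (if min (e0 B) (e1 B) < θ j * (ε * ((k : ℝ) + 1)) ∧
        θ j * (ε * ((k : ℝ) + 1)) ≤ max (e0 B) (e1 B) then θ j * ε else 0) ≤
      m * δ + 2 * m * ε := by
  classical
  have hδ0 : 0 ≤ δ := (abs_nonneg _).trans (hδ univ univ_nonempty)
  -- the sets
  let A : (Σ _ : ℕ, Finset ι × ℕ) → Set ℝ := fun t =>
    {x : ℝ | θ t.2.2 * (ε * (t.1 : ℝ)) ≤ (1 - x) * e0 t.2.1 + x * e1 t.2.1 ∧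
      (1 - x) * e0 t.2.1 + x * e1 t.2.1 < θ t.2.2 * (ε * ((t.1 : ℝ) + 1))}
  let T : Finset (Σ _ : ℕ, Finset ι × ℕ) := (range K).sigma fun k => cls lev k ×ˢ range m
  have hsumT : ∀ f : (Σ _ : ℕ, Finset ι × ℕ) → ℝ, ∑ t ∈ T, f t =
      ∑ k ∈ range K, ∑ B ∈ cls lev k, ∑ j ∈ range m, f ⟨k, (B, j)⟩ := by
    intro f
    rw [sum_sigma]
    refine sum_congr rfl fun k _ => ?_
    rw [sum_product]
  have hvol : ∑ t ∈ T, volume.real (A t ∩ Set.Icc 0 1) ≤ m := by
    refine sum_vol_le T A ?_ m ?_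
    · intro t _
      have hc : Continuous fun x : ℝ => (1 - x) * e0 t.2.1 + x * e1 t.2.1 := by fun_prop
      exact (measurableSet_le measurable_const hc.measurable).inter
        (measurableSet_lt hc.measurable measurable_const)
    · intro x hx U hUT hxU
      have h2 := count_le hU hε hs hD (adm_convex hs h0 h1 hx.1 hx.2)
      refine le_trans ?_ h2
      have h3 : U ⊆ T.filter fun t => x ∈ A t := fun t ht =>
        mem_filter.mpr ⟨hUT ht, hxU t ht⟩
      refine (card_le_card h3).trans (le_of_eq ?_)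
      have h4 : ((T.filter fun t => x ∈ A t).card : ℝ) =
          ∑ t ∈ T, if x ∈ A t then (1 : ℝ) else 0 := by
        rw [card_filter]
        push_cast
        rfl
      rw [hsumT] at h4
      have h5 : ((∑ k ∈ range K, ∑ B ∈ cls lev k,
          ((range m).filter fun j => θ j * (ε * (k : ℝ)) ≤ (1 - x) * e0 B + x * e1 B ∧
          (1 - x) * e0 B + x * e1 B < θ j * (ε * ((k : ℝ) + 1))).card : ℕ) : ℝ) =
          ∑ k ∈ range K, ∑ B ∈ cls lev k, ∑ j ∈ range m,
            if x ∈ A ⟨k, (B, j)⟩ then (1 : ℝ) else 0 := by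
        push_cast
        simp only [card_filter]
        push_cast
        rfl
      exact_mod_cast h4.trans h5.symm
  have hsum1 : ∑ k ∈ range K, ∑ B ∈ cls lev k, ∑ j ∈ range m,
      max 0 (min (max (e0 B) (e1 B)) (θ j * (ε * ((k : ℝ) + 1))) -
        max (min (e0 B) (e1 B)) (θ j * (ε * (k : ℝ)))) ≤ m * δ := by
    have h2 : ∑ k ∈ range K, ∑ B ∈ cls lev k, ∑ j ∈ range m,
        max 0 (min (max (e0 B) (e1 B)) (θ j * (ε * ((k : ℝ) + 1))) -
        max (min (e0 B) (e1 B)) (θ j * (ε * (k : ℝ)))) ≤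
        ∑ k ∈ range K, ∑ B ∈ cls lev k, ∑ j ∈ range m,
          δ * volume.real (A ⟨k, (B, j)⟩ ∩ Set.Icc 0 1) := by
      refine sum_le_sum fun k _ => sum_le_sum fun B hB => sum_le_sum fun j _ => ?_
      refine (one_interval (e0 B) (e1 B) (θ j * (ε * (k : ℝ)))
        (θ j * (ε * ((k : ℝ) + 1)))).trans ?_
      refine mul_le_mul_of_nonneg_right ?_ measureReal_nonneg
      rw [abs_sub_comm]
      exact hδ B (cls_nonempty hU hB)
    refine h2.trans ?_
    rw [← hsumT fun t => δ * volume.real (A t ∩ Set.Icc 0 1), ← mul_sum, mul_comm]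
    exact mul_le_mul_of_nonneg_right hvol hδ0
  have hc0 := lp_cnt hU hε hs hD h0
  have hc1 := lp_cnt hU hε hs hD h1
  have hmain : ∑ k ∈ range K, ∑ B ∈ cls lev k, ∑ j ∈ range m,
      (if min (e0 B) (e1 B) < θ j * (ε * ((k : ℝ) + 1)) ∧
        θ j * (ε * ((k : ℝ) + 1)) ≤ max (e0 B) (e1 B) then θ j * ε else 0) ≤
      ∑ k ∈ range K, ∑ B ∈ cls lev k, ∑ j ∈ range m,
      (max 0 (min (max (e0 B) (e1 B)) (θ j * (ε * ((k : ℝ) + 1))) -
        max (min (e0 B) (e1 B)) (θ j * (ε * (k : ℝ)))) +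
      (θ j * ε * (if θ j * (ε * (k : ℝ)) ≤ e0 B ∧ e0 B < θ j * (ε * ((k : ℝ) + 1)) then 1 else 0) +
      θ j * ε * (if θ j * (ε * (k : ℝ)) ≤ e1 B ∧ e1 B < θ j * (ε * ((k : ℝ) + 1)) then 1 else 0)))
      := by
    refine sum_le_sum fun k _ => sum_le_sum fun B _ => sum_le_sum fun j hj => ?_
    have hj' := hD.pos j (mem_range.mp hj)
    exact lp_cross (by positivity) (by ring)
  refine hmain.trans ?_
  simp only [sum_add_distrib]
  linarith

end BcrU
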