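import Pool.Agent.Lib.BcrU.FOne

/-!
MODULE FTwo (150 lines). The forest lemma (Lemma 2) from `step`.

(a) Let `Q ⊆ P`, both up-closed. Put `R i = Q ∪ trim P i`. `R 0 = P` (`trim_zero`), `R i` is up-closed (`up_trim`, union of
up-closed sets), `R (i+1) ⊆ R i` (`trim_succ_sub`), `R i = Q` if `trim P i ⊆ Q`.
If `x ∈ R i \ R (i+1)` then `x ∈ trim P i`, `x ∉ Q`, and no `y ∈ R i` has `par y = x`: if `y ∈ Q`: `rk y + 1 = rk x < K`, so
`x = par y ∈ Q`; if `y ∈ trim P i`, `y = par^[i] z`, then `x = par^[i+1] z ∈ trim P (i+1)`.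
So `step` applies to `R i, R (i+1)` when they differ (if they are equal both sums are `0`).
Triangle inequality: `max 0 (a - c) ≤ max 0 (a - b) + max 0 (b - c)`, and `nu R p = 0` for `p ∉ R`; all sums can be
taken over `N` (terms outside `R i` are `max 0 (0 - 0) = 0`).
`nested_down`: `trim P h ⊆ Q` gives `sum (nu P - nu Q)_+ ≤ sum_{i<h} [(2 + n_i)/3 if n_i > 0] ≤ 2h/3 + |P \ Q|/3`,
`n_i = |R i \ R (i+1)|`, `sum_{i<h} n_i = |P \ Q|` (induction on `h`, generalising `P` to `trim`, or telescoping cards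
`n_i = |R i| - |R (i+1)|`).
`nested_up`: with `h = K` (`trim P K = ∅` since `p = par^[K] x` has rank `≥ K`): `sum (nu Q - nu P)_+ ≤ |P \ Q|/3`.
(b) General `P, Q`: `P ∩ Q` is up-closed, `trim P h ⊆ P ∩ Q`; `max 0 (nu P - nu Q) ≤ max 0 (nu P - nu (P∩Q)) +
max 0 (nu (P∩Q) - nu Q)`; use `nested_down` for `P ∩ Q ⊆ P` and `nested_up` for `P ∩ Q ⊆ Q`;
`P \ (P ∩ Q) = P \ Q`, `Q \ (P ∩ Q) = Q \ P`.
-/

namespace BcrU

open Finset

variable {α : Type} [DecidableEq α] {par : α → α} {rk : α → ℕ} {K : ℕ}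

/-- the one-sided difference of the credits of `A` and `B`, summed over `N` -/
private noncomputable def FTwo_S (par : α → α) (rk : α → ℕ) (N A B : Finset α) : ℝ :=
  ∑ p ∈ N, max 0 (nu par rk A p - nu par rk B p)

private theorem FTwo_nu_zero (A : Finset α) (p : α) (hp : p ∉ A) : nu par rk A p = 0 := by
  rw [nu, if_neg hp]

private theorem FTwo_tri (N A B C : Finset α) :
    FTwo_S par rk N A C ≤ FTwo_S par rk N A B + FTwo_S par rk N B C := by
  unfold FTwo_S
  rw [← Finset.sum_add_distrib]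
  refine Finset.sum_le_sum fun p _ => ?_
  have h1 := le_max_left (0 : ℝ) (nu par rk A p - nu par rk B p)
  have h2 := le_max_right (0 : ℝ) (nu par rk A p - nu par rk B p)
  have h3 := le_max_left (0 : ℝ) (nu par rk B p - nu par rk C p)
  have h4 := le_max_right (0 : ℝ) (nu par rk B p - nu par rk C p)
  refine max_le (by linarith) (by linarith)

private theorem FTwo_self (N A : Finset α) : FTwo_S par rk N A A = 0 := by
  unfold FTwo_S
  refine Finset.sum_eq_zero fun p _ => ?_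
  rw [sub_self, max_self]

private theorem FTwo_restr (N M A B : Finset α) (hMN : M ⊆ N) (hA : A ⊆ M) (hB : B ⊆ M) :
    FTwo_S par rk N A B = FTwo_S par rk M A B := by
  unfold FTwo_S
  refine (Finset.sum_subset hMN fun p _ hp => ?_).symm
  rw [FTwo_nu_zero A p fun h => hp (hA h), FTwo_nu_zero B p fun h => hp (hB h), sub_self, max_self]

private theorem FTwo_one (hrk : ∀ x, rk (par x) = rk x + 1) {P Q : Finset α} (hP : Up par rk K P)
    (hQ : Up par rk K Q) (hQP : Q ⊆ P) (hleaf : ∀ x ∈ P, x ∉ Q → ∀ y ∈ P, par y ≠ x)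
    (N : Finset α) (hPN : P ⊆ N) :
    FTwo_S par rk N P Q ≤ 2 / 3 + ((P \ Q).card : ℝ) / 3 ∧
      FTwo_S par rk N Q P ≤ ((P \ Q).card : ℝ) / 3 := by
  rcases (P \ Q).eq_empty_or_nonempty with he | hne
  · have hPQ : P = Q := Finset.Subset.antisymm (Finset.sdiff_eq_empty_iff_subset.1 he) hQP
    subst hPQ
    rw [FTwo_self, sdiff_self, Finset.bot_eq_empty, Finset.card_empty]
    norm_num
  · obtain ⟨h1, h2⟩ := step hrk hP hQ hQP hleaf hne
    rw [FTwo_restr N P P Q hPN (Finset.Subset.refl P) hQP,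
      FTwo_restr N P Q P hPN hQP (Finset.Subset.refl P)]
    unfold FTwo_S
    exact ⟨by linarith, h2⟩

private theorem FTwo_up_union {A B : Finset α} (hA : Up par rk K A) (hB : Up par rk K B) :
    Up par rk K (A ∪ B) := by
  refine ⟨fun x hx => ?_, fun x hx hr => ?_⟩
  · rcases Finset.mem_union.1 hx with h | h
    · exact hA.1 x h
    · exact hB.1 x h
  · rcases Finset.mem_union.1 hx with h | h
    · exact Finset.mem_union_left _ (hA.2 x h hr)
    · exact Finset.mem_union_right _ (hB.2 x h hr)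

private theorem FTwo_up_inter {A B : Finset α} (hA : Up par rk K A) (hB : Up par rk K B) :
    Up par rk K (A ∩ B) := by
  refine ⟨fun x hx => hA.1 x (Finset.mem_inter.1 hx).1, fun x hx hr => ?_⟩
  exact Finset.mem_inter.2 ⟨hA.2 x (Finset.mem_inter.1 hx).1 hr, hB.2 x (Finset.mem_inter.1 hx).2 hr⟩

private theorem FTwo_mem_trim {P : Finset α} {h : ℕ} {p : α} :
    p ∈ trim par P h ↔ p ∈ P ∧ ∃ x ∈ P, par^[h] x = p := by
  unfold trim
  rw [Finset.mem_filter]

private theorem FTwo_nested (hrk : ∀ x, rk (par x) = rk x + 1) {P Q : Finset α}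
    (hP : Up par rk K P) (hQ : Up par rk K Q) (hQP : Q ⊆ P) (N : Finset α) (hPN : P ⊆ N) (h : ℕ) :
    FTwo_S par rk N P (Q ∪ trim par P h) ≤
        2 / 3 * (h : ℝ) + ((P \ (Q ∪ trim par P h)).card : ℝ) / 3 ∧
      FTwo_S par rk N (Q ∪ trim par P h) P ≤ ((P \ (Q ∪ trim par P h)).card : ℝ) / 3 := by
  induction h with
  | zero =>
    rw [trim_zero, Finset.union_eq_right.2 hQP, FTwo_self, sdiff_self, Finset.bot_eq_empty,
      Finset.card_empty]
    norm_num
  | succ h ih =>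
    have hRP : Q ∪ trim par P h ⊆ P := Finset.union_subset hQP (trim_sub P h)
    have hRR : Q ∪ trim par P (h + 1) ⊆ Q ∪ trim par P h :=
      Finset.union_subset_union (Finset.Subset.refl Q) (trim_succ_sub hrk hP h)
    have hleaf : ∀ x ∈ Q ∪ trim par P h, x ∉ Q ∪ trim par P (h + 1) →
        ∀ y ∈ Q ∪ trim par P h, par y ≠ x := by
      intro x hx hx' y hy hyx
      rcases Finset.mem_union.1 hy with hyQ | hyT
      · refine hx' (Finset.mem_union_left _ ?_)
        rw [← hyx]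
        refine hQ.2 y hyQ ?_
        rw [← hrk y, hyx]
        exact hP.1 x (hRP hx)
      · obtain ⟨_, z, hz, hzy⟩ := FTwo_mem_trim.1 hyT
        refine hx' (Finset.mem_union_right _ (FTwo_mem_trim.2 ⟨hRP hx, z, hz, ?_⟩))
        rw [Function.iterate_succ_apply', hzy, hyx]
    obtain ⟨h1, h2⟩ := FTwo_one hrk (FTwo_up_union hQ (up_trim hrk hP h))
      (FTwo_up_union hQ (up_trim hrk hP (h + 1))) hRR hleaf N (hRP.trans hPN)
    have t1 := FTwo_tri (par := par) (rk := rk) N P (Q ∪ trim par P h) (Q ∪ trim par P (h + 1))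
    have t2 := FTwo_tri (par := par) (rk := rk) N (Q ∪ trim par P (h + 1)) (Q ∪ trim par P h) P
    have c1 : ((P \ (Q ∪ trim par P h)).card : ℝ) = P.card - (Q ∪ trim par P h).card :=
      Finset.cast_card_sdiff hRP
    have c2 : ((P \ (Q ∪ trim par P (h + 1))).card : ℝ) =
        P.card - (Q ∪ trim par P (h + 1)).card := Finset.cast_card_sdiff (hRR.trans hRP)
    have c3 : (((Q ∪ trim par P h) \ (Q ∪ trim par P (h + 1))).card : ℝ) =
        (Q ∪ trim par P h).card - (Q ∪ trim par P (h + 1)).card := Finset.cast_card_sdiff hRR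
    obtain ⟨i1, i2⟩ := ih
    push_cast
    constructor <;> linarith

private theorem FTwo_down (hrk : ∀ x, rk (par x) = rk x + 1) {P Q : Finset α}
    (hP : Up par rk K P) (hQ : Up par rk K Q) (hQP : Q ⊆ P) (N : Finset α) (hPN : P ⊆ N) (h : ℕ)
    (hPQ : trim par P h ⊆ Q) :
    FTwo_S par rk N P Q ≤ 2 / 3 * (h : ℝ) + ((P \ Q).card : ℝ) / 3 := by
  have h1 := (FTwo_nested hrk hP hQ hQP N hPN h).1
  rwa [Finset.union_eq_left.2 hPQ] at h1

private theorem FTwo_up (hrk : ∀ x, rk (par x) = rk x + 1) {P Q : Finset α}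
    (hP : Up par rk K P) (hQ : Up par rk K Q) (hQP : Q ⊆ P) (N : Finset α) (hPN : P ⊆ N) :
    FTwo_S par rk N Q P ≤ ((P \ Q).card : ℝ) / 3 := by
  have h1 := (FTwo_nested hrk hP hQ hQP N hPN K).2
  have h2 : trim par P K ⊆ Q := by
    intro p hp
    obtain ⟨hpP, z, hz, hzp⟩ := FTwo_mem_trim.1 hp
    exfalso
    have h3 := hP.1 p hpP
    rw [← hzp, rk_iter hrk] at h3
    omega
  rwa [Finset.union_eq_left.2 h2] at h1

theorem forest_cost (hrk : ∀ x, rk (par x) = rk x + 1) {P Q : Finset α} (hP : Up par rk K P)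
    (hQ : Up par rk K Q) (N : Finset α) (hPN : P ⊆ N) (hQN : Q ⊆ N) (h : ℕ)
    (hPQ : trim par P h ⊆ Q) :
    ∑ p ∈ N, max 0 (nu par rk P p - nu par rk Q p) ≤
      2 / 3 * (h : ℝ) + (((P \ Q).card : ℝ) + ((Q \ P).card : ℝ)) / 3 := by
  have hI := FTwo_up_inter hP hQ
  have h1 := FTwo_down hrk hP hI Finset.inter_subset_left N hPN h
    (Finset.subset_inter (trim_sub P h) hPQ)
  have h2 := FTwo_up hrk hQ hI Finset.inter_subset_right N hQN
  rw [Finset.sdiff_inter_self_left] at h1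
  rw [Finset.sdiff_inter_self_right] at h2
  have h3 := FTwo_tri (par := par) (rk := rk) N P (P ∩ Q) Q
  have h4 : FTwo_S par rk N P Q = ∑ p ∈ N, max 0 (nu par rk P p - nu par rk Q p) := rfl
  rw [← h4]
  linarith

end BcrU
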