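import Pool.Agent.Lib.BcrU.NUp
import Pool.Agent.Lib.BcrU.FTwo
import Pool.Agent.Lib.BcrU.LPath

/-!
MODULE NLip (160 lines). Lemma 6: the credit density is Lipschitz.

`F = m + 2 q > 0`, `P_j = PP lev K ε (θ j) e0`, `Q_j = PP lev K ε (θ j) e1`, `X_j = |P_j \ Q_j| + |Q_j \ P_j|`.
(1) `max 0 (a + b - (a' + b')) ≤ max 0 (a - a') + max 0 (b - b')` and for nonnegative weights
    `max 0 (∑ w_j x_j - ∑ w_j y_j) ≤ ∑ w_j max 0 (x_j - y_j)`. So
    `ε ∑_p max 0 (dens e0 p - dens e1 p) ≤ ε (3/F) ∑_{j<q} θ_j ∑_p max 0 (nu P_j p - nu Q_j p)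
       + ε (1/F) ∑_{q≤j<m} θ_j ∑_p max 0 ([p ∈ P_j] - [p ∈ Q_j])`.
(2) `j < q`: take `h = ⌈δ / (θ_j ε)⌉₊`, so `δ ≤ θ_j ε h ≤ δ + θ_j ε ≤ δ + ε` (`Nat.lt_ceil`, `Nat.ceil_lt_add_one`, `δ ≥ 0`,
    `θ_j < 1`). `forest_cost` (with `N = nodes lev K`, `PP_up`, `PP_sub`, `PP_trim`) gives `≤ (2/3) h + X_j/3`, hence the
    contribution is `≤ (2/F) (δ + ε) + (1/F) θ_j ε X_j`.
(3) `j ≥ q`: `∑_p max 0 ([p∈P]-[p∈Q]) = |P \ Q| ≤ X_j`, contribution `≤ (1/F) θ_j ε X_j`.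
(4) `∑_{j<m} θ_j ε X_j ≤ m δ + 2 m ε` by `PP_card` and `cross_le` (interchange the sums).
(5) Total `≤ (2 q/F)(δ + ε) + (m δ + 2 m ε)/F ≤ δ + 2 ε` since `F = m + 2 q` and `2 q + 2 m ≤ 2 F`.
    (`range m = range q ∪ Ico q m`, `q ≤ m`.)
-/

namespace BcrU

open Finset

variable {ι : Type} [Fintype ι] [DecidableEq ι] {lev : ι → ι → ℕ} {K : ℕ}

private theorem NLip_point {ε : ℝ} {m q : ℕ} {θ : ℕ → ℝ} {e0 e1 : Finset ι → ℝ}
    (hqm : q ≤ m) (hθ : ∀ j < m, 0 < θ j) (p : ℕ × Finset ι) :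
    max 0 (dens lev K ε m q θ e0 p - dens lev K ε m q θ e1 p) ≤
      3 / ((m : ℝ) + 2 * q) * ∑ j ∈ range q, θ j *
        max 0 (nu (par lev) Prod.fst (PP lev K ε (θ j) e0) p -
          nu (par lev) Prod.fst (PP lev K ε (θ j) e1) p) +
      1 / ((m : ℝ) + 2 * q) * ∑ j ∈ Ico q m, θ j *
        max 0 ((if p ∈ PP lev K ε (θ j) e0 then (1 : ℝ) else 0) -
          (if p ∈ PP lev K ε (θ j) e1 then (1 : ℝ) else 0)) := by
  have hF3 : 0 ≤ 3 / ((m : ℝ) + 2 * q) := by positivity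
  have hF1 : 0 ≤ 1 / ((m : ℝ) + 2 * q) := by positivity
  refine max_le ?_ ?_
  · refine add_nonneg (mul_nonneg hF3 (sum_nonneg fun j hj => ?_))
      (mul_nonneg hF1 (sum_nonneg fun j hj => ?_))
    · exact mul_nonneg (hθ j (lt_of_lt_of_le (mem_range.1 hj) hqm)).le (le_max_left _ _)
    · exact mul_nonneg (hθ j (mem_Ico.1 hj).2).le (le_max_left _ _)
  · have e : dens lev K ε m q θ e0 p - dens lev K ε m q θ e1 p =
      3 / ((m : ℝ) + 2 * q) * ∑ j ∈ range q, θ j *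
        (nu (par lev) Prod.fst (PP lev K ε (θ j) e0) p -
          nu (par lev) Prod.fst (PP lev K ε (θ j) e1) p) +
      1 / ((m : ℝ) + 2 * q) * ∑ j ∈ Ico q m, θ j *
        ((if p ∈ PP lev K ε (θ j) e0 then (1 : ℝ) else 0) -
          (if p ∈ PP lev K ε (θ j) e1 then (1 : ℝ) else 0)) := by
      unfold dens
      simp only [mul_sub, sum_sub_distrib]
      ring
    rw [e]
    refine add_le_add (mul_le_mul_of_nonneg_left (sum_le_sum fun j hj => ?_) hF3)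
      (mul_le_mul_of_nonneg_left (sum_le_sum fun j hj => ?_) hF1)
    · exact mul_le_mul_of_nonneg_left (le_max_right _ _)
        (hθ j (lt_of_lt_of_le (mem_range.1 hj) hqm)).le
    · exact mul_le_mul_of_nonneg_left (le_max_right _ _) (hθ j (mem_Ico.1 hj).2).le

private theorem NLip_ind {P Q N : Finset (ℕ × Finset ι)} (hP : P ⊆ N) :
    ∑ p ∈ N, max 0 ((if p ∈ P then (1 : ℝ) else 0) - (if p ∈ Q then (1 : ℝ) else 0)) ≤
      ((P \ Q).card : ℝ) + ((Q \ P).card : ℝ) := by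
  have e : ∀ p ∈ N, max 0 ((if p ∈ P then (1 : ℝ) else 0) - (if p ∈ Q then (1 : ℝ) else 0)) =
      if p ∈ P \ Q then (1 : ℝ) else 0 := by
    intro p _
    by_cases h1 : p ∈ P <;> by_cases h2 : p ∈ Q <;> simp [h1, h2]
  rw [sum_congr rfl e, ← sum_filter, sum_const, nsmul_eq_mul, mul_one]
  have e2 : N.filter (fun p => p ∈ P \ Q) = P \ Q := by
    ext p
    simp only [mem_filter, mem_sdiff]
    constructor
    · rintro ⟨_, h⟩
      exact h
    · rintro ⟨h1, h2⟩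
      exact ⟨hP h1, h1, h2⟩
  rw [e2]
  have : (0 : ℝ) ≤ ((Q \ P).card : ℝ) := Nat.cast_nonneg _
  linarith

private theorem NLip_cost {ε s δ θ : ℝ} {e0 e1 : Finset ι → ℝ} (hU : Ult K lev) (hε : 0 < ε)
    (hθ : 0 < θ) (hθ1 : θ < 1) (h0 : Adm lev ε s e0) (h1 : Adm lev ε s e1) (hδ0 : 0 ≤ δ)
    (hδ : ∀ B : Finset ι, B.Nonempty → |e0 B - e1 B| ≤ δ) :
    ε * (3 * (θ * ∑ p ∈ nodes lev K, max 0 (nu (par lev) Prod.fst (PP lev K ε θ e0) p -
      nu (par lev) Prod.fst (PP lev K ε θ e1) p))) ≤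
      2 * (δ + ε) + θ * ε * (((PP lev K ε θ e0 \ PP lev K ε θ e1).card : ℝ) +
        ((PP lev K ε θ e1 \ PP lev K ε θ e0).card : ℝ)) := by
  have hpos : 0 < θ * ε := mul_pos hθ hε
  set h : ℕ := ⌈δ / (θ * ε)⌉₊ with hh
  have a1 : δ ≤ θ * ε * h := by
    have := Nat.le_ceil (δ / (θ * ε))
    rw [div_le_iff₀ hpos] at this
    rw [mul_comm]
    exact this
  have a2 : θ * ε * h ≤ δ + ε := by
    have h3 := (Nat.ceil_lt_add_one (div_nonneg hδ0 hpos.le)).le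
    have h4 : θ * ε * h ≤ θ * ε * (δ / (θ * ε) + 1) := mul_le_mul_of_nonneg_left h3 hpos.le
    have h5 : θ * ε * (δ / (θ * ε) + 1) = δ + θ * ε := by
      field_simp
    have h6 : θ * ε ≤ ε := by nlinarith
    linarith
  have hc := forest_cost (par := par lev) (rk := Prod.fst) (K := K)
    (fun x => par_fst x) (PP_up hU hε hθ h0) (PP_up hU hε hθ h1) (nodes lev K)
    (PP_sub ε θ e0) (PP_sub ε θ e1) h (PP_trim hU hε hθ h0 h1 hδ a1)
  have h7 := mul_le_mul_of_nonneg_left hc (mul_nonneg (by norm_num : (0 : ℝ) ≤ 3) hpos.le)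
  nlinarith [h7, a2]

theorem dens_lip [Nonempty ι] {ε s δ : ℝ} {m q : ℕ} {θ : ℕ → ℝ} {e0 e1 : Finset ι → ℝ}
    (hU : Ult K lev) (hε : 0 < ε) (hs : 0 ≤ s) (hD : Des s m q θ) (h0 : Adm lev ε s e0)
    (h1 : Adm lev ε s e1) (hδ0 : 0 ≤ δ) (hδ : ∀ B : Finset ι, B.Nonempty → |e0 B - e1 B| ≤ δ) :
    ε * ∑ p ∈ nodes lev K, max 0 (dens lev K ε m q θ e0 p - dens lev K ε m q θ e1 p) ≤
      δ + 2 * ε := by
  have hm : (0 : ℝ) < m := by exact_mod_cast hD.hm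
  have hqm : q ≤ m := hD.hq
  have hqm' : (q : ℝ) ≤ m := by exact_mod_cast hqm
  have hq0 : (0 : ℝ) ≤ q := Nat.cast_nonneg _
  have hF : (0 : ℝ) < (m : ℝ) + 2 * q := by positivity
  set X : ℕ → ℝ := fun j => ((PP lev K ε (θ j) e0 \ PP lev K ε (θ j) e1).card : ℝ) +
    ((PP lev K ε (θ j) e1 \ PP lev K ε (θ j) e0).card : ℝ) with hX
  set T : ℕ → ℝ := fun j => ∑ p ∈ nodes lev K,
    max 0 (nu (par lev) Prod.fst (PP lev K ε (θ j) e0) p -
      nu (par lev) Prod.fst (PP lev K ε (θ j) e1) p) with hT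
  set V : ℕ → ℝ := fun j => ∑ p ∈ nodes lev K,
    max 0 ((if p ∈ PP lev K ε (θ j) e0 then (1 : ℝ) else 0) -
      (if p ∈ PP lev K ε (θ j) e1 then (1 : ℝ) else 0)) with hV
  -- the pointwise bound, summed
  have s1 : ∑ p ∈ nodes lev K, max 0 (dens lev K ε m q θ e0 p - dens lev K ε m q θ e1 p) ≤
      3 / ((m : ℝ) + 2 * q) * ∑ j ∈ range q, θ j * T j +
      1 / ((m : ℝ) + 2 * q) * ∑ j ∈ Ico q m, θ j * V j := by
    refine (sum_le_sum fun p _ => NLip_point (ε := ε) hqm hD.pos p).trans ?_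
    rw [sum_add_distrib, ← mul_sum, ← mul_sum, sum_comm, sum_comm (s := nodes lev K)
      (t := Ico q m)]
    refine le_of_eq ?_
    congr 2
    · exact sum_congr rfl fun j _ => (mul_sum _ _ _).symm
    · exact sum_congr rfl fun j _ => (mul_sum _ _ _).symm
  -- the crossings
  have s2 : ∑ j ∈ range m, θ j * ε * X j ≤ m * δ + 2 * m * ε := by
    have hc := cross_le hU hε hs hD h0 h1 hδ
    have e : ∑ j ∈ range m, θ j * ε * X j = ∑ k ∈ range K, ∑ B ∈ cls lev k, ∑ j ∈ range m,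
      (if min (e0 B) (e1 B) < θ j * (ε * ((k : ℝ) + 1)) ∧
        θ j * (ε * ((k : ℝ) + 1)) ≤ max (e0 B) (e1 B) then θ j * ε else 0) := by
      have e1' : ∀ k ∈ range K, ∑ B ∈ cls lev k, ∑ j ∈ range m,
          (if min (e0 B) (e1 B) < θ j * (ε * ((k : ℝ) + 1)) ∧
            θ j * (ε * ((k : ℝ) + 1)) ≤ max (e0 B) (e1 B) then θ j * ε else 0) =
          ∑ j ∈ range m, ∑ B ∈ cls lev k,
          (if min (e0 B) (e1 B) < θ j * (ε * ((k : ℝ) + 1)) ∧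
            θ j * (ε * ((k : ℝ) + 1)) ≤ max (e0 B) (e1 B) then θ j * ε else 0) :=
        fun k _ => sum_comm
      rw [sum_congr rfl e1', sum_comm]
      refine sum_congr rfl fun j _ => ?_
      rw [hX]
      simp only
      rw [PP_card, mul_sum]
      refine sum_congr rfl fun k _ => ?_
      rw [mul_sum]
      refine sum_congr rfl fun B _ => ?_
      split_ifs <;> simp
    rw [e]
    exact hc
  -- the two parts
  have s3 : ∀ j ∈ range q, ε * (3 * (θ j * T j)) ≤ 2 * (δ + ε) + θ j * ε * X j := by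
    intro j hj
    have hjm : j < m := lt_of_lt_of_le (mem_range.1 hj) hqm
    exact NLip_cost hU hε (hD.pos j hjm) (hD.lt_one j hjm) h0 h1 hδ0 hδ
  have s4 : ∀ j ∈ Ico q m, ε * (θ j * V j) ≤ θ j * ε * X j := by
    intro j hj
    have hjm : j < m := (mem_Ico.1 hj).2
    have := NLip_ind (P := PP lev K ε (θ j) e0) (Q := PP lev K ε (θ j) e1) (PP_sub ε (θ j) e0)
    have h5 := mul_le_mul_of_nonneg_left this (mul_nonneg (hD.pos j hjm).le hε.le)
    calc ε * (θ j * V j) = θ j * ε * V j := by ring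
      _ ≤ θ j * ε * X j := h5
  have s5 : ∑ j ∈ range m, θ j * ε * X j =
      ∑ j ∈ range q, θ j * ε * X j + ∑ j ∈ Ico q m, θ j * ε * X j :=
    (sum_range_add_sum_Ico _ hqm).symm
  have s6 : ε * (3 * ∑ j ∈ range q, θ j * T j) ≤
      q * (2 * (δ + ε)) + ∑ j ∈ range q, θ j * ε * X j := by
    have := sum_le_sum s3
    rw [sum_add_distrib, sum_const, card_range, nsmul_eq_mul, ← mul_sum, ← mul_sum] at this
    exact this
  have s7 : ε * ∑ j ∈ Ico q m, θ j * V j ≤ ∑ j ∈ Ico q m, θ j * ε * X j := by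
    have := sum_le_sum s4
    rw [← mul_sum] at this
    exact this
  have s8 : ε * (3 / ((m : ℝ) + 2 * q) * ∑ j ∈ range q, θ j * T j +
      1 / ((m : ℝ) + 2 * q) * ∑ j ∈ Ico q m, θ j * V j) =
      (ε * (3 * ∑ j ∈ range q, θ j * T j) + ε * ∑ j ∈ Ico q m, θ j * V j) /
        ((m : ℝ) + 2 * q) := by
    field_simp
  calc ε * ∑ p ∈ nodes lev K, max 0 (dens lev K ε m q θ e0 p - dens lev K ε m q θ e1 p)
      ≤ ε * (3 / ((m : ℝ) + 2 * q) * ∑ j ∈ range q, θ j * T j +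
      1 / ((m : ℝ) + 2 * q) * ∑ j ∈ Ico q m, θ j * V j) := mul_le_mul_of_nonneg_left s1 hε.le
    _ = (ε * (3 * ∑ j ∈ range q, θ j * T j) + ε * ∑ j ∈ Ico q m, θ j * V j) /
        ((m : ℝ) + 2 * q) := s8
    _ ≤ δ + 2 * ε := by
        rw [div_le_iff₀ hF]
        nlinarith [s2, s5, s6, s7, mul_nonneg hq0 hε.le]

/-- only the values on nonempty sets matter -/
theorem dens_congr {ε : ℝ} {m q : ℕ} {θ : ℕ → ℝ} {e0 e1 : Finset ι → ℝ} (hU : Ult K lev)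
    (h : ∀ B : Finset ι, B.Nonempty → e0 B = e1 B) (p : ℕ × Finset ι) :
    dens lev K ε m q θ e0 p = dens lev K ε m q θ e1 p := by
  have hP : ∀ t : ℝ, PP lev K ε t e0 = PP lev K ε t e1 := by
    intro t
    unfold PP
    refine filter_congr fun x hx => ?_
    rw [h x.2 (cls_nonempty hU (mem_nodes.1 hx).2)]
  unfold dens
  simp only [hP]

end BcrU
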