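import Pool.Agent.Lib.BcrU.LUlt

/-!
MODULE NUp (170 lines). The present nodes form an up-closed subset of the merge forest.

* `mem_nodes`: `(k, B) ∈ nodes ↔ k < K ∧ B ∈ cls lev k` (unfold, `mem_biUnion`, `mem_image`).
* `par_fst`: definition. So `hrk : ∀ x, (par lev x).1 = x.1 + 1`.
* `par_cls`: if `B ∈ cls lev k`, `B = cl k i`, then `B.biUnion (cl lev (k+1)) = cl lev (k+1) i`: for `j ∈ B`:
  `lev i j ≤ k ≤ k+1` so `cl (k+1) j = cl (k+1) i` (`cl_eq_iff`). Hence `(par lev (k,B)).2 ∈ cls lev (k+1)` and `B ⊆` it.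
* `iter_par`: for `x = (k,B)` with `B ∈ cls lev k`: `((par lev)^[h] x).1 = k + h`, the second component is in
  `cls lev (k+h)` and contains `B` (induction on `h`, `Function.iterate_succ_apply'`).
* `PP_up`: `x = (k,B) ∈ PP`: `k < K`. If `k + 1 < K`: the parent `(k+1, C)` is a node, `e C ≤ e B < θ ε (k+1) ≤ θ ε (k+2)`
  (`Adm.mono`, `B ⊆ C`, `θ, ε ≥ 0`).
* `PP_trim`: `p = par^[h] x`, `x = (k,B) ∈ PP e0`, `p ∈ PP e0 ⊆ nodes`, `p = (k+h, C)`, `B ⊆ C`: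
  `e1 C ≤ e1 B ≤ e0 B + δ < θ ε (k+1) + θ ε h = θ ε (k+h+1)`.
* `PP_card`: `p = (k,B)` is in exactly one of the two sets iff exactly one of `e0 B`, `e1 B` is `< b = θ ε (k+1)`, that is
  `min < b ≤ max`. Sum over nodes = double sum (`Finset.sum_biUnion`, `sum_image`, the pairs are distinct);
  `(P \ Q).card + (Q \ P).card = ∑ p ∈ nodes, if (p ∈ P) ≠ (p ∈ Q) then 1 else 0`.
* `sum_nodes`: `∑ p ∈ nodes lev K, F p = ∑ k ∈ range K, ∑ B ∈ cls lev k, F (k, B)`.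
-/

namespace BcrU

open Finset

variable {ι : Type} [Fintype ι] [DecidableEq ι] {lev : ι → ι → ℕ} {K : ℕ}

theorem mem_nodes {p : ℕ × Finset ι} : p ∈ nodes lev K ↔ p.1 < K ∧ p.2 ∈ cls lev p.1 := by
  unfold nodes
  rw [Finset.mem_biUnion]
  constructor
  · rintro ⟨k, hk, h⟩
    obtain ⟨B, hB, rfl⟩ := Finset.mem_image.1 h
    exact ⟨Finset.mem_range.1 hk, hB⟩
  · rintro ⟨h1, h2⟩
    exact ⟨p.1, Finset.mem_range.2 h1, Finset.mem_image.2 ⟨p.2, h2, rfl⟩⟩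

theorem par_fst (p : ℕ × Finset ι) : (par lev p).1 = p.1 + 1 := rfl

theorem par_cls (hU : Ult K lev) {k : ℕ} {B : Finset ι} (hB : B ∈ cls lev k) :
    (par lev (k, B)).2 ∈ cls lev (k + 1) ∧ B ⊆ (par lev (k, B)).2 := by
  obtain ⟨i, hi⟩ := cls_nonempty hU hB
  have hBi : B = cl lev k i := cls_eq_cl hU hB hi
  have key : (par lev (k, B)).2 = cl lev (k + 1) i := by
    change B.biUnion (cl lev (k + 1)) = cl lev (k + 1) i
    ext j
    rw [Finset.mem_biUnion]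
    constructor
    · rintro ⟨a, ha, hj⟩
      have h1 : lev i a ≤ k := by
        rw [hBi] at ha
        exact mem_cl.1 ha
      have h2 : cl lev (k + 1) i = cl lev (k + 1) a := (cl_eq_iff hU).2 (by omega)
      rw [h2]
      exact hj
    · intro hj
      exact ⟨i, hi, hj⟩
  constructor
  · rw [key]
    exact Finset.mem_image.2 ⟨i, Finset.mem_univ i, rfl⟩
  · rw [key]
    intro j hj
    rw [hBi] at hj
    exact cl_mono (Nat.le_succ k) i hj

theorem iter_par (hU : Ult K lev) (h : ℕ) {x : ℕ × Finset ι} (hx : x.2 ∈ cls lev x.1) :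
    ((par lev)^[h] x).1 = x.1 + h ∧ ((par lev)^[h] x).2 ∈ cls lev (x.1 + h) ∧
      x.2 ⊆ ((par lev)^[h] x).2 := by
  induction h with
  | zero => exact ⟨rfl, hx, Finset.Subset.refl _⟩
  | succ h ih =>
    obtain ⟨h1, h2, h3⟩ := ih
    rw [Function.iterate_succ_apply']
    have h4 := par_cls hU h2
    have h5 : ((par lev)^[h] x) = (x.1 + h, ((par lev)^[h] x).2) := Prod.ext h1 rfl
    rw [← h5] at h4
    refine ⟨?_, ?_, ?_⟩
    · rw [par_fst, h1]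
      rfl
    · exact h4.1
    · exact h3.trans h4.2

theorem sum_nodes {M : Type} [AddCommMonoid M] (F : ℕ × Finset ι → M) :
    ∑ p ∈ nodes lev K, F p = ∑ k ∈ range K, ∑ B ∈ cls lev k, F (k, B) := by
  unfold nodes
  rw [Finset.sum_biUnion]
  · refine Finset.sum_congr rfl fun k _ => ?_
    rw [Finset.sum_image]
    intro B _ C _ h
    exact (Prod.ext_iff.1 h).2
  · intro a _ b _ hab
    rw [Function.onFun, Finset.disjoint_left]
    intro p hp hq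
    obtain ⟨B, _, rfl⟩ := Finset.mem_image.1 hp
    obtain ⟨C, _, h⟩ := Finset.mem_image.1 hq
    exact hab (Prod.ext_iff.1 h).1.symm

theorem PP_sub (ε θ : ℝ) (e : Finset ι → ℝ) : PP lev K ε θ e ⊆ nodes lev K :=
  Finset.filter_subset _ _

private theorem NUp_mem {ε θ : ℝ} {e : Finset ι → ℝ} {p : ℕ × Finset ι} :
    p ∈ PP lev K ε θ e ↔ (p.1 < K ∧ p.2 ∈ cls lev p.1) ∧ e p.2 < θ * (ε * ((p.1 : ℝ) + 1)) := by
  unfold PP
  rw [Finset.mem_filter, mem_nodes]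

theorem PP_up {ε s θ : ℝ} {e : Finset ι → ℝ} (hU : Ult K lev) (hε : 0 < ε) (hθ : 0 < θ)
    (he : Adm lev ε s e) : Up (par lev) Prod.fst K (PP lev K ε θ e) := by
  constructor
  · intro x hx
    exact (NUp_mem.1 hx).1.1
  · intro x hx hK
    obtain ⟨⟨h1, h2⟩, h3⟩ := NUp_mem.1 hx
    have h4 := par_cls hU h2
    have h5 : ((x.1, x.2) : ℕ × Finset ι) = x := rfl
    rw [h5] at h4
    rw [NUp_mem, par_fst]
    refine ⟨⟨hK, h4.1⟩, ?_⟩
    have h6 : e (par lev x).2 ≤ e x.2 := he.mono _ _ (cls_nonempty hU h2) h4.2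
    have h7 : θ * (ε * ((x.1 : ℝ) + 1)) ≤ θ * (ε * (((x.1 + 1 : ℕ) : ℝ) + 1)) := by
      refine mul_le_mul_of_nonneg_left (mul_le_mul_of_nonneg_left ?_ hε.le) hθ.le
      push_cast
      linarith
    exact lt_of_le_of_lt h6 (lt_of_lt_of_le h3 h7)

theorem PP_trim {ε s θ δ : ℝ} {e0 e1 : Finset ι → ℝ} (hU : Ult K lev) (hε : 0 < ε) (hθ : 0 < θ)
    (h0 : Adm lev ε s e0) (h1 : Adm lev ε s e1)
    (hδ : ∀ B : Finset ι, B.Nonempty → |e0 B - e1 B| ≤ δ) {h : ℕ} (hh : δ ≤ θ * ε * h) :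
    trim (par lev) (PP lev K ε θ e0) h ⊆ PP lev K ε θ e1 := by
  intro p hp
  unfold trim at hp
  rw [Finset.mem_filter] at hp
  obtain ⟨hp, x, hx, rfl⟩ := hp
  obtain ⟨h2, -⟩ := NUp_mem.1 hp
  obtain ⟨⟨-, h4⟩, h5⟩ := NUp_mem.1 hx
  obtain ⟨h6, -, h8⟩ := iter_par hU h h4
  rw [NUp_mem]
  refine ⟨h2, ?_⟩
  have h9 := h1.mono _ _ (cls_nonempty hU h4) h8
  have h10 := abs_le.1 (hδ x.2 (cls_nonempty hU h4))
  rw [h6]
  push_cast
  have h11 : θ * (ε * ((x.1 : ℝ) + h + 1)) = θ * (ε * ((x.1 : ℝ) + 1)) + θ * ε * h := by ring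
  rw [h11]
  linarith [h10.1]

theorem PP_card (ε θ : ℝ) (e0 e1 : Finset ι → ℝ) :
    (((PP lev K ε θ e0 \ PP lev K ε θ e1).card : ℝ) +
      ((PP lev K ε θ e1 \ PP lev K ε θ e0).card : ℝ)) =
    ∑ k ∈ range K, ∑ B ∈ cls lev k,
      (if min (e0 B) (e1 B) < θ * (ε * ((k : ℝ) + 1)) ∧
        θ * (ε * ((k : ℝ) + 1)) ≤ max (e0 B) (e1 B) then (1 : ℝ) else 0) := by
  have key : ∀ a b : Finset ι → ℝ, ((PP lev K ε θ a \ PP lev K ε θ b).card : ℝ) =
      ∑ p ∈ nodes lev K, (if a p.2 < θ * (ε * ((p.1 : ℝ) + 1)) ∧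
        ¬ b p.2 < θ * (ε * ((p.1 : ℝ) + 1)) then (1 : ℝ) else 0) := by
    intro a b
    have h1 : PP lev K ε θ a \ PP lev K ε θ b =
        (nodes lev K).filter fun p => a p.2 < θ * (ε * ((p.1 : ℝ) + 1)) ∧
          ¬ b p.2 < θ * (ε * ((p.1 : ℝ) + 1)) := by
      ext p
      unfold PP
      rw [Finset.mem_sdiff, Finset.mem_filter, Finset.mem_filter, Finset.mem_filter]
      tauto
    rw [h1, Finset.sum_boole]
  rw [key, key, ← Finset.sum_add_distrib,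
    ← sum_nodes (lev := lev) (K := K) (fun p : ℕ × Finset ι =>
      (if min (e0 p.2) (e1 p.2) < θ * (ε * ((p.1 : ℝ) + 1)) ∧
        θ * (ε * ((p.1 : ℝ) + 1)) ≤ max (e0 p.2) (e1 p.2) then (1 : ℝ) else 0))]
  refine Finset.sum_congr rfl fun p _ => ?_
  generalize θ * (ε * ((p.1 : ℝ) + 1)) = b
  by_cases h1 : e0 p.2 < b <;> by_cases h2 : e1 p.2 < b
  · rw [if_neg (by tauto), if_neg (by tauto), if_neg]
    · norm_num
    · rintro ⟨-, h3⟩
      exact absurd (max_lt h1 h2) (not_lt.2 h3)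
  · rw [if_pos ⟨h1, h2⟩, if_neg (by tauto), if_pos]
    · norm_num
    · exact ⟨lt_of_le_of_lt (min_le_left _ _) h1, le_trans (not_lt.1 h2) (le_max_right _ _)⟩
  · rw [if_neg (by tauto), if_pos ⟨h2, h1⟩, if_pos]
    · norm_num
    · exact ⟨lt_of_le_of_lt (min_le_right _ _) h2, le_trans (not_lt.1 h1) (le_max_left _ _)⟩
  · rw [if_neg (by tauto), if_neg (by tauto), if_neg]
    · norm_num
    · rintro ⟨h3, -⟩
      exact absurd h3 (not_lt.2 (le_min (not_lt.1 h1) (not_lt.1 h2)))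

end BcrU
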