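import Pool.Agent.Lib.BcrU.DefsG

/-!
MODULE GTree. A set of edges which connects the terminals contains a Steiner tree.
-/

namespace BcrU

open Finset Bcr3

variable {V : Type} [Fintype V] [DecidableEq V] {G : SimpleGraph V} {c : Sym2 V → ℝ}

omit [Fintype V] [DecidableEq V] in
private theorem GTree_conn_step {Y : Finset (Sym2 V)} {r a b : V} (h : conn G Y r a)
    (hab : G.Adj a b) (hY : s(a, b) ∈ Y) : conn G Y r b := by
  obtain ⟨w, hw⟩ := h
  refine ⟨w.concat hab, ?_⟩
  intro e he
  rw [SimpleGraph.Walk.edges_concat, List.concat_eq_append, List.mem_append] at he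
  rcases he with he | he
  · exact hw e he
  · rw [List.mem_singleton] at he
    rw [he]
    exact hY

/-- the component of `r` for the edges in `Y` -/
private def GTree_H (G : SimpleGraph V) (Y : Finset (Sym2 V)) (r : V) : G.Subgraph where
  verts := {u | conn G Y r u}
  Adj a b := G.Adj a b ∧ s(a, b) ∈ Y ∧ conn G Y r a
  adj_sub := fun h => h.1
  edge_vert := fun h => h.2.2
  symm := ⟨by
    rintro a b ⟨h1, h2, h3⟩
    refine ⟨h1.symm, ?_, GTree_conn_step h3 h1 h2⟩
    rw [Sym2.eq_swap]
    exact h2⟩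

omit [Fintype V] [DecidableEq V] in
private theorem GTree_walk_le {Y : Finset (Sym2 V)} {r a b : V} (w : G.Walk a b)
    (h : conn G Y r a) (hY : ∀ e ∈ w.edges, e ∈ Y) : w.toSubgraph ≤ GTree_H G Y r := by
  induction w with
  | nil =>
    rw [SimpleGraph.Walk.toSubgraph]
    exact (SimpleGraph.singletonSubgraph_le_iff _ _).2 h
  | @cons u v w hadj p ih =>
    rw [SimpleGraph.Walk.toSubgraph]
    have h1 : s(u, v) ∈ Y := hY _ (by rw [SimpleGraph.Walk.edges_cons]; exact List.mem_cons_self)
    have h2 : (GTree_H G Y r).Adj u v := ⟨hadj, h1, h⟩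
    refine sup_le (SimpleGraph.subgraphOfAdj_le_of_adj _ h2) (ih (GTree_conn_step h hadj h1) ?_)
    intro e he
    exact hY e (by rw [SimpleGraph.Walk.edges_cons]; exact List.mem_cons_of_mem _ he)

omit [Fintype V] [DecidableEq V] in
private theorem GTree_conn (Y : Finset (Sym2 V)) (r : V) : (GTree_H G Y r).Connected := by
  rw [SimpleGraph.Subgraph.connected_iff_forall_exists_walk_subgraph]
  refine ⟨⟨r, SimpleGraph.Walk.nil, by simp⟩, ?_⟩
  intro u v hu hv
  obtain ⟨p, hp⟩ := hu
  obtain ⟨q, hq⟩ := hv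
  refine ⟨p.reverse.append q, GTree_walk_le _ ⟨p, hp⟩ ?_⟩
  intro e he
  rw [SimpleGraph.Walk.edges_append, List.mem_append, SimpleGraph.Walk.edges_reverse,
    List.mem_reverse] at he
  rcases he with he | he
  · exact hp e he
  · exact hq e he

theorem opt_le_conn (hc : ∀ e, 0 ≤ c e) {R : Finset V} {r : V} (hr : r ∈ R)
    {Y : Finset (Sym2 V)} (h : ∀ v ∈ R, conn G Y r v) : OPT G c R ≤ ec c Y := by
  classical
  have _ := hr
  obtain ⟨T, hTle, hT⟩ := (GTree_conn (G := G) Y r).coe.exists_isTree_le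
  let T' : G.Subgraph :=
    { verts := (GTree_H G Y r).verts
      Adj := fun a b => ∃ (ha : a ∈ (GTree_H G Y r).verts) (hb : b ∈ (GTree_H G Y r).verts),
        T.Adj ⟨a, ha⟩ ⟨b, hb⟩
      adj_sub := by
        rintro a b ⟨ha, hb, hab⟩
        exact (GTree_H G Y r).adj_sub (hTle hab)
      edge_vert := by
        rintro a b ⟨ha, _, _⟩
        exact ha
      symm := ⟨by
        rintro a b ⟨ha, hb, hab⟩
        exact ⟨hb, ha, hab.symm⟩⟩ }
  have hT' : T'.coe = T := by
    ext a b
    constructor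
    · rintro ⟨_, _, h⟩
      exact h
    · intro h
      exact ⟨a.2, b.2, h⟩
  have hst : IsSteinerTree R T' := by
    refine ⟨?_, ?_⟩
    · rw [hT']
      exact hT
    · intro t ht
      exact h t ht
  have hcost : cost c T' ≤ ec c Y := by
    unfold cost ec
    refine Finset.sum_le_sum_of_subset_of_nonneg ?_ fun e _ _ => hc e
    intro e he
    have he' : e ∈ T'.edgeSet := (Finset.mem_filter.1 he).2
    induction e using Sym2.ind with
    | _ a b =>
      have h2 : T'.Adj a b := he'
      obtain ⟨ha, hb, hab⟩ := h2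
      have h3 : (GTree_H G Y r).Adj a b := hTle hab
      exact h3.2.1
  refine le_trans (csInf_le ?_ ⟨T', hst, rfl⟩) hcost
  refine ⟨0, ?_⟩
  rintro _ ⟨S, _, rfl⟩
  exact Finset.sum_nonneg fun e _ => hc e

end BcrU
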