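import Pool.Agent.Lib.BcrU.Defs
import Pool.Agent.Lib.MP_c1293d_lc.Dual
import Pool.Agent.Lib.MP_c1293d_lc.Tree

/-!
Upper bounds for the integrality gap of the bidirected cut relaxation: definitions on graphs.
-/

namespace BcrU

open Finset Bcr3

variable {V : Type}

/-- cost of a set of edges -/
noncomputable def ec (c : Sym2 V → ℝ) (Y : Finset (Sym2 V)) : ℝ := ∑ e ∈ Y, c e

open Classical in
/-- edge costs after the purchase of `Y` -/
noncomputable def cY (c : Sym2 V → ℝ) (Y : Finset (Sym2 V)) (e : Sym2 V) : ℝ :=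
  if e ∈ Y then 0 else c e

/-- distance: the smallest cost of a walk -/
noncomputable def dst (G : SimpleGraph V) (c : Sym2 V → ℝ) (u v : V) : ℝ :=
  sInf {x | ∃ w : G.Walk u v, x = wc c w}

/-- distances of the terminals after the purchase of `Y` -/
noncomputable def DD {ι : Type} (G : SimpleGraph V) (c : Sym2 V → ℝ) (t : ι → V)
    (Y : Finset (Sym2 V)) (i j : ι) : ℝ := dst G (cY c Y) (t i) (t j)

/-- single linkage cost of the terminals after the purchase of `Y` -/
noncomputable def MM {ι : Type} [Fintype ι] [DecidableEq ι] (G : SimpleGraph V) (c : Sym2 V → ℝ)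
    (t : ι → V) (K : ℕ) (ε : ℝ) (Y : Finset (Sym2 V)) : ℝ :=
  mu (levOf (DD G c t Y) ε) K ε univ

/-- connected by edges of `Y` -/
def conn (G : SimpleGraph V) (Y : Finset (Sym2 V)) (u v : V) : Prop :=
  ∃ w : G.Walk u v, ∀ e ∈ w.edges, e ∈ Y

/-- `F` is a list of weighted pairs which connects `S` -/
def FConn {ι : Type} (S : Finset ι) (F : List (ι × ι × ℝ)) : Prop :=
  ∀ i ∈ S, ∀ j ∈ S, Relation.ReflTransGen
    (fun a b => ∃ x ∈ F, (x.1 = a ∧ x.2.1 = b) ∨ (x.1 = b ∧ x.2.1 = a)) i j

/-- the vertices in the component of `r` -/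
abbrev Wr (G : SimpleGraph V) (r : V) : Type := {v : V // G.Reachable r v}

/-- distance on the component of `r` -/
noncomputable def dW (G : SimpleGraph V) (c : Sym2 V → ℝ) (r : V) (u v : Wr G r) : ℝ :=
  dst G c u.1 v.1

/-- cost of a minimum spanning tree of the terminals for the distances -/
noncomputable def MST [Fintype V] [DecidableEq V] (G : SimpleGraph V) (c : Sym2 V → ℝ)
    (R : Finset V) : ℝ :=
  open Classical in
  sInf {x | ∃ T : SimpleGraph {v // v ∈ R}, T.IsTree ∧
    x = (∑ u, ∑ v, if T.Adj u v then dst G c u.1 v.1 else 0) / 2}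

end BcrU
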