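import Pool.Agent.Lib.BcrU.NLip
import Pool.Agent.Lib.BcrU.NVal
import Pool.Agent.Lib.BcrU.DefsG

/-!
MODULE Core (200 lines). The potentials and weak duality.

`rep p` for a node `p`: `i0` if `i0 ∈ p.2`, otherwise some element of `p.2` (choice; `i0` if `p.2` is empty).
`f i v = ε * ∑ p ∈ nodes lev K, if rep p = i then dens lev K ε m q θ (e v) p else 0`.
(1) For `u, v`: `∑ i ∈ univ.erase i0, max 0 (f i v - f i u) ≤ ε ∑_{p ∈ nodes} max 0 (dens (e v) p - dens (e u) p)`
    (positive part of a sum ≤ sum of positive parts; each node has one representative).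
    If `G.Adj u v`: `≤ c s(u,v) + 2 ε` by `dens_lip` (`δ = c s(u,v)`, `|e v B - e u B|`, `abs_sub_comm`, `Sym2.eq_swap` not needed);
    if moreover `c s(u,v) = 0` then `e u B = e v B` for all nonempty `B`, so the sum is `0` (`dens_congr`); otherwise
    `c + 2 ε ≤ (1 + 2 ε/δ) c` as `δ ≤ c`. So always `≤ (1 + 2 ε/δ) c s(u,v)`.
(2) `f i (t i0) = 0` for `i ≠ i0`: `dens (e (t i0)) p = beta [i0 ∈ p.2]` (`dens_term`, `hz i0`), and `i0 ∈ p.2` gives `rep p = i0`.
(3) `∑ i ∈ univ.erase i0, f i (t i) = ε beta #{p ∈ nodes : rep p ≠ i0}`: for `i ≠ i0`, `f i (t i) = ε beta #{p : rep p = i, i ∈ p.2}` and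
    `rep p = i` implies `i ∈ p.2` for a node (nonempty class). Nodes of level `k` with `i0 ∉ p.2`: all classes but one, so
    the number is `∑_{k<K} (kap lev k univ - 1)` (`sum_nodes`, `cls_nonempty`, the class `cl k i0` is the only one containing `i0`,
    `cls_eq_cl`), which gives `beta * mu lev K ε univ`.
(4) `coarea` (file Dual) for each `i ≠ i0` with `t := t i`, `r := t i0 = r`: `f i (t i) - f i r ≤ ∑ u v, x u v * max 0 (f i v - f i u)`
    (cut condition from `hx.cut`, `t i ∈ R`; `r ∉ S`). Sum over `i ≠ i0`, exchange sums, use (1) and `x u v = 0` for non-adjacent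
    (`hx.supp`).
-/

namespace BcrU

open Finset Bcr3

variable {V : Type} [Fintype V] [DecidableEq V] {G : SimpleGraph V} {c : Sym2 V → ℝ}

/-- representative of a node -/
private noncomputable def rep {ι : Type} [DecidableEq ι] (i0 : ι) (p : ℕ × Finset ι) : ι :=
  if i0 ∈ p.2 then i0 else if h : p.2.Nonempty then h.choose else i0

private lemma rep_of_mem {ι : Type} [DecidableEq ι] {i0 : ι} {p : ℕ × Finset ι} (h : i0 ∈ p.2) :
    rep i0 p = i0 := by
  unfold rep
  rw [if_pos h]

private lemma rep_mem {ι : Type} [DecidableEq ι] {i0 : ι} {p : ℕ × Finset ι} (h : p.2.Nonempty) :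
    rep i0 p ∈ p.2 := by
  unfold rep
  split_ifs with h1
  · exact h1
  · exact h.choose_spec

private lemma max_sum_le {α : Type} (s : Finset α) (a : α → ℝ) :
    max 0 (∑ p ∈ s, a p) ≤ ∑ p ∈ s, max 0 (a p) := by
  apply max_le
  · exact Finset.sum_nonneg fun p _ => le_max_left _ _
  · exact Finset.sum_le_sum fun p _ => le_max_right _ _

/-- the potentials: sum of the positive parts of the increments -/
private lemma pos_sum {ι : Type} [Fintype ι] [DecidableEq ι] (i0 : ι)
    (N : Finset (ℕ × Finset ι)) {ε : ℝ} (hε : 0 < ε) (a b : ℕ × Finset ι → ℝ) :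
    ∑ i ∈ univ.erase i0, max 0 (ε * (∑ p ∈ N, if rep i0 p = i then a p else 0) -
      ε * (∑ p ∈ N, if rep i0 p = i then b p else 0)) ≤
      ε * ∑ p ∈ N, max 0 (a p - b p) := by
  have h1 : ∀ i, max 0 (ε * (∑ p ∈ N, if rep i0 p = i then a p else 0) -
      ε * (∑ p ∈ N, if rep i0 p = i then b p else 0)) ≤
      ε * ∑ p ∈ N, if rep i0 p = i then max 0 (a p - b p) else 0 := by
    intro i
    have h2 : ε * (∑ p ∈ N, if rep i0 p = i then a p else 0) -
        ε * (∑ p ∈ N, if rep i0 p = i then b p else 0) =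
        ε * ∑ p ∈ N, if rep i0 p = i then a p - b p else 0 := by
      rw [← mul_sub, ← Finset.sum_sub_distrib]
      congr 1
      refine Finset.sum_congr rfl fun p _ => ?_
      split_ifs
      · rfl
      · ring
    rw [h2]
    have h3 : max 0 (ε * ∑ p ∈ N, if rep i0 p = i then a p - b p else 0) =
        ε * max 0 (∑ p ∈ N, if rep i0 p = i then a p - b p else 0) := by
      rw [mul_max_of_nonneg _ _ hε.le, mul_zero]
    rw [h3]
    refine mul_le_mul_of_nonneg_left ((max_sum_le _ _).trans ?_) hε.le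
    refine Finset.sum_le_sum fun p _ => ?_
    split_ifs
    · exact le_rfl
    · simp
  calc ∑ i ∈ univ.erase i0, max 0 (ε * (∑ p ∈ N, if rep i0 p = i then a p else 0) -
      ε * (∑ p ∈ N, if rep i0 p = i then b p else 0))
      ≤ ∑ i ∈ univ.erase i0, ε * ∑ p ∈ N, if rep i0 p = i then max 0 (a p - b p) else 0 :=
        Finset.sum_le_sum fun i _ => h1 i
    _ ≤ ∑ i, ε * ∑ p ∈ N, if rep i0 p = i then max 0 (a p - b p) else 0 := by
        refine Finset.sum_le_sum_of_subset_of_nonneg (Finset.erase_subset _ _) fun i _ _ => ?_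
        refine mul_nonneg hε.le (Finset.sum_nonneg fun p _ => ?_)
        split_ifs
        · exact le_max_left _ _
        · exact le_rfl
    _ = ε * ∑ p ∈ N, max 0 (a p - b p) := by
        rw [← Finset.mul_sum, Finset.sum_comm]
        congr 1
        refine Finset.sum_congr rfl fun p _ => ?_
        rw [Finset.sum_ite_eq]
        simp

theorem core (hc : ∀ e, 0 ≤ c e) {R : Finset V} {r : V} {x : V → V → ℝ} (hx : Feasible G R r x)
    {ι : Type} [Fintype ι] [DecidableEq ι] {t : ι → V} (htR : ∀ i, t i ∈ R) {i0 : ι}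
    (hi0 : t i0 = r) {K : ℕ} {lev : ι → ι → ℕ} (hU : Ult K lev) {ε s : ℝ} {m q : ℕ} {θ : ℕ → ℝ}
    (hε : 0 < ε) (hs : 0 ≤ s) (hD : Des s m q θ) {e : V → Finset ι → ℝ}
    (hA : ∀ v, Adm lev ε s (e v))
    (hL : ∀ u v, G.Adj u v → ∀ B : Finset ι, B.Nonempty → |e u B - e v B| ≤ c s(u, v))
    (hz : ∀ i, ∀ B : Finset ι, i ∈ B → e (t i) B = 0) {δ : ℝ} (hδ : 0 < δ)
    (hcm : ∀ a, c a = 0 ∨ δ ≤ c a) :
    beta m q θ * mu lev K ε univ ≤ (1 + 2 * ε / δ) * ∑ u, ∑ v, c s(u, v) * x u v := by
  haveI : Nonempty ι := ⟨i0⟩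
  set N := nodes lev K with hN
  have hNe : ∀ p ∈ N, p.2.Nonempty := fun p hp => cls_nonempty hU (mem_nodes.1 hp).2
  -- the potentials
  let f : ι → V → ℝ := fun i v =>
    ε * ∑ p ∈ N, if rep i0 p = i then dens lev K ε m q θ (e v) p else 0
  -- (1) Lipschitz
  have key1 : ∀ u v, G.Adj u v → ∑ i ∈ univ.erase i0, max 0 (f i v - f i u) ≤
      (1 + 2 * ε / δ) * c s(u, v) := by
    intro u v hadj
    have h1 : ∑ i ∈ univ.erase i0, max 0 (f i v - f i u) ≤
        ε * ∑ p ∈ N, max 0 (dens lev K ε m q θ (e v) p - dens lev K ε m q θ (e u) p) :=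
      pos_sum i0 N hε (fun p => dens lev K ε m q θ (e v) p) (fun p => dens lev K ε m q θ (e u) p)
    refine h1.trans ?_
    rcases hcm s(u, v) with h0 | h0
    · have heq : ∀ B : Finset ι, B.Nonempty → e v B = e u B := by
        intro B hB
        have h2 := hL u v hadj B hB
        rw [h0] at h2
        have h3 := abs_nonpos_iff.1 h2
        linarith
      have h4 : ∀ p, dens lev K ε m q θ (e v) p = dens lev K ε m q θ (e u) p :=
        dens_congr hU heq
      rw [h0, mul_zero]
      refine le_of_eq ?_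
      rw [Finset.sum_eq_zero, mul_zero]
      intro p _
      rw [h4 p, sub_self, max_self]
    · have h2 := dens_lip (K := K) hU hε hs hD (hA v) (hA u) (hc s(u, v)) (fun B hB => by
        rw [abs_sub_comm]; exact hL u v hadj B hB)
      refine h2.trans ?_
      have h3 : 2 * ε ≤ 2 * ε / δ * c s(u, v) := by
        rw [div_mul_eq_mul_div, le_div_iff₀ hδ]
        exact mul_le_mul_of_nonneg_left h0 (by positivity)
      linarith
  -- (2) zero at the root
  have key2 : ∀ i, i ≠ i0 → f i r = 0 := by
    intro i hi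
    have h1 : ∀ p ∈ N, (if rep i0 p = i then dens lev K ε m q θ (e r) p else 0) = 0 := by
      intro p hp
      split_ifs with h
      · have hne : i0 ∉ p.2 := by
          intro hmem
          exact hi (h.symm.trans (rep_of_mem hmem))
        have h2 := dens_term (K := K) hU hε hD (hA (t i0)) (i := i0) (hz i0) hp
        rw [if_neg hne, hi0] at h2
        exact h2
      · rfl
    show ε * ∑ p ∈ N, _ = 0
    rw [Finset.sum_eq_zero h1, mul_zero]
  -- (3) the values at the terminals
  have key3 : ∑ i ∈ univ.erase i0, f i (t i) = beta m q θ * mu lev K ε univ := by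
    have h1 : ∀ i ∈ univ.erase i0, f i (t i) =
        ε * ∑ p ∈ N, if rep i0 p = i then beta m q θ else 0 := by
      intro i _
      show ε * ∑ p ∈ N, (if rep i0 p = i then dens lev K ε m q θ (e (t i)) p else 0) = _
      congr 1
      refine Finset.sum_congr rfl fun p hp => ?_
      split_ifs with h
      · have hmem : i ∈ p.2 := by rw [← h]; exact rep_mem (hNe p hp)
        have h2 := dens_term (K := K) hU hε hD (hA (t i)) (i := i) (hz i) hp
        rw [if_pos hmem] at h2
        exact h2
      · rfl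
    rw [Finset.sum_congr rfl h1, ← Finset.mul_sum, Finset.sum_comm]
    have h2 : ∀ p ∈ N, (∑ i ∈ univ.erase i0, if rep i0 p = i then beta m q θ else 0) =
        beta m q θ - (if i0 ∈ p.2 then beta m q θ else 0) := by
      intro p hp
      rw [Finset.sum_ite_eq]
      by_cases hmem : i0 ∈ p.2
      · rw [rep_of_mem hmem, if_pos hmem]
        simp
      · have hne : rep i0 p ≠ i0 := fun h => hmem (h ▸ rep_mem (hNe p hp))
        rw [if_neg hmem, if_pos (by simp [hne]), sub_zero]
    rw [Finset.sum_congr rfl h2, hN, sum_nodes]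
    have h3 : ∀ k ∈ range K, (∑ B ∈ cls lev k,
        (beta m q θ - (if i0 ∈ ((k, B) : ℕ × Finset ι).2 then beta m q θ else 0))) =
        beta m q θ * ((kap lev k univ : ℝ) - 1) := by
      intro k _
      rw [Finset.sum_sub_distrib, Finset.sum_const, nsmul_eq_mul]
      have h4 : (∑ B ∈ cls lev k, if i0 ∈ ((k, B) : ℕ × Finset ι).2 then beta m q θ else 0) =
          beta m q θ := by
        have h5 : ∀ B ∈ cls lev k, (if i0 ∈ ((k, B) : ℕ × Finset ι).2 then beta m q θ else 0) =
            (if B = cl lev k i0 then beta m q θ else 0) := by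
          intro B hB
          by_cases hmem : i0 ∈ B
          · rw [if_pos hmem, if_pos (cls_eq_cl hU hB hmem)]
          · have hne : B ≠ cl lev k i0 := by
              intro h
              exact hmem (h ▸ mem_cl_self hU k i0)
            rw [if_neg hmem, if_neg hne]
        rw [Finset.sum_congr rfl h5, Finset.sum_ite_eq', if_pos]
        exact Finset.mem_image_of_mem _ (Finset.mem_univ _)
      rw [h4]
      have h6 : ((cls lev k).card : ℝ) = (kap lev k univ : ℝ) := rfl
      rw [h6]
      ring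
    rw [Finset.sum_congr rfl h3, ← Finset.mul_sum]
    unfold mu
    ring
  -- (4) coarea
  have key4 : ∀ i ∈ univ.erase i0, f i (t i) ≤ ∑ u, ∑ v, x u v * max 0 (f i v - f i u) := by
    intro i hi
    have h1 := coarea x hx.nonneg r (t i)
      (fun S hr ht => hx.cut S hr ⟨t i, by simp [ht, htR i]⟩) (f i)
    rw [key2 i (Finset.ne_of_mem_erase hi), sub_zero] at h1
    exact h1
  rw [← key3]
  refine (Finset.sum_le_sum key4).trans ?_
  rw [Finset.sum_comm, Finset.mul_sum]
  refine Finset.sum_le_sum fun u _ => ?_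
  rw [Finset.sum_comm, Finset.mul_sum]
  refine Finset.sum_le_sum fun v _ => ?_
  rw [← Finset.mul_sum]
  by_cases hadj : G.Adj u v
  · have h1 := mul_le_mul_of_nonneg_left (key1 u v hadj) (hx.nonneg u v)
    refine h1.trans (le_of_eq ?_)
    ring
  · rw [hx.supp u v hadj]
    simp

end BcrU
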