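import Pool.Agent.Lib.BcrU.GDst
import Pool.Agent.Lib.BcrU.GTree
import Pool.Agent.Lib.BcrU.GLev

/-!
MODULE GKru (220 lines). Kruskal: `OPT ≤ ec c Y + MM G c t K ε Y`.

For a finset `Z` of edges let `nc Z` be the number of classes of the equivalence `conn G Z (t i) (t j)` on `ι` (for example
`(univ.image fun i => univ.filter fun j => conn G Z (t i) (t j)).card`; `conn` is an equivalence: nil, reverse, append).
(1) `add_path`: if `D_Y (i,j) = dst G (cY c Y) (t i) (t j) ≤ x` and `Y ⊆ Z` then there is `Z' ⊇ Z` with `conn G Z' (t i) (t j)`,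
    `ec c Z' ≤ ec c Z + x`: take an optimal walk `w` (`exists_walk`), `Z' = Z ∪ w.edges.toFinset` (`extra`, and
    `wc (cY c Z) w ≤ wc (cY c Y) w ≤ x`).
(2) `step`: let `x ≥ 0`, `Y ⊆ Z`. There is `Z' ⊇ Z` with `conn G Z' (t i) (t j)` for all `i, j` with `D_Y (i,j) ≤ x`, and
    `ec c Z' + x nc Z' ≤ ec c Z + x nc Z`. Strong induction on `nc Z`: if some pair is not connected, `add_path`
    decreases `nc` by at least one (classes of the finer relation map onto the classes of the coarser one, and two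
    different classes are identified).
(3) Induction on `k ≤ K`: there is `Z_k ⊇ Y` with `conn G Z_k (t i) (t j)` whenever `D_Y(i,j) ≤ k ε` and
    `ec c Z_k + k ε nc Z_k ≤ ec c Y + ε ∑ l ∈ range k, kap (levOf D_Y ε) l univ`.
    `k = 0`: `step` with `x = 0`. `k → k+1`: apply `step` with `x = (k+1) ε` to `Z_k`:
    `ec Z' + (k+1) ε nc Z' ≤ ec Z_k + (k+1) ε nc Z_k = (ec Z_k + k ε nc Z_k) + ε nc Z_k` and `nc Z_k ≤ kap (levOf D_Y ε) k univ`,
    because `levOf D_Y ε i j ≤ k` (`levOf_le_iff`) implies `conn G Z_k (t i) (t j)` (transitive closure).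
(4) `k = K`: all pairs are connected (`D_Y ≤ D_∅ ≤ K ε`), `nc Z_K = 1` (`ι` nonempty), so
    `ec c Z_K ≤ ec c Y + ε (∑_{l<K} kap l univ - K) = ec c Y + MM`. `opt_le_conn` with `Z_K` (every `v ∈ R` is some `t i`, `r = t i0`).
-/

namespace BcrU

open Finset Bcr3

variable {V : Type} [Fintype V] [DecidableEq V] {G : SimpleGraph V} {c : Sym2 V → ℝ}

section aux

variable {ι : Type} [Fintype ι] [DecidableEq ι]

open Classical in
/-- class of a relation -/
private noncomputable def GKru_cls (r : ι → ι → Prop) (i : ι) : Finset ι := univ.filter (r i)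

/-- number of classes of a relation -/
private noncomputable def GKru_nc (r : ι → ι → Prop) : ℕ := (univ.image (GKru_cls r)).card

private theorem GKru_mem {r : ι → ι → Prop} {i j : ι} : j ∈ GKru_cls r i ↔ r i j := by
  simp [GKru_cls]

private theorem GKru_cls_eq {r : ι → ι → Prop} (hr : Equivalence r) {i j : ι} (h : r i j) :
    GKru_cls r i = GKru_cls r j := by
  ext k
  rw [GKru_mem, GKru_mem]
  exact ⟨fun h' => hr.trans (hr.symm h) h', fun h' => hr.trans h h'⟩

open Classical in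
/-- the map of classes -/
private noncomputable def GKru_phi (r' : ι → ι → Prop) (C : Finset ι) : Finset ι :=
  if h : C.Nonempty then GKru_cls r' h.choose else ∅

private theorem GKru_phi_eq {r r' : ι → ι → Prop} (hr : ∀ i, r i i) (hr' : Equivalence r')
    (h : ∀ i j, r i j → r' i j) (i : ι) : GKru_phi r' (GKru_cls r i) = GKru_cls r' i := by
  have hne : (GKru_cls r i).Nonempty := ⟨i, GKru_mem.2 (hr i)⟩
  unfold GKru_phi
  rw [dif_pos hne]
  exact (GKru_cls_eq hr' (h _ _ (GKru_mem.1 hne.choose_spec))).symm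

private theorem GKru_image {r r' : ι → ι → Prop} (hr : ∀ i, r i i) (hr' : Equivalence r')
    (h : ∀ i j, r i j → r' i j) :
    univ.image (GKru_cls r') = (univ.image (GKru_cls r)).image (GKru_phi r') := by
  rw [image_image]
  refine image_congr fun i _ => ?_
  exact (GKru_phi_eq hr hr' h i).symm

private theorem GKru_nc_le {r r' : ι → ι → Prop} (hr : ∀ i, r i i) (hr' : Equivalence r')
    (h : ∀ i j, r i j → r' i j) : GKru_nc r' ≤ GKru_nc r := by
  unfold GKru_nc
  rw [GKru_image hr hr' h]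
  exact card_image_le

private theorem GKru_nc_lt {r r' : ι → ι → Prop} (hr : ∀ i, r i i) (hr' : Equivalence r')
    (h : ∀ i j, r i j → r' i j) {i j : ι} (h1 : r' i j) (h2 : ¬ r i j) :
    GKru_nc r' < GKru_nc r := by
  refine lt_of_le_of_ne (GKru_nc_le hr hr' h) fun he => h2 ?_
  unfold GKru_nc at he
  rw [GKru_image hr hr' h] at he
  have hinj := card_image_iff.1 he
  have h3 : GKru_cls r i = GKru_cls r j := by
    refine hinj (by simp) (by simp) ?_
    rw [GKru_phi_eq hr hr' h, GKru_phi_eq hr hr' h]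
    exact GKru_cls_eq hr' h1
  have h4 : j ∈ GKru_cls r i := by rw [h3]; exact GKru_mem.2 (hr j)
  exact GKru_mem.1 h4

private theorem GKru_nc_one [Nonempty ι] {r : ι → ι → Prop} (h : ∀ i j, r i j) :
    GKru_nc r = 1 := by
  have h1 : univ.image (GKru_cls r) = {univ} := by
    ext C
    simp only [mem_image, mem_univ, true_and, mem_singleton]
    constructor
    · rintro ⟨i, rfl⟩
      ext j
      simp [GKru_mem, h i j]
    · rintro rfl
      obtain ⟨i⟩ := ‹Nonempty ι›
      refine ⟨i, ?_⟩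
      ext j
      simp [GKru_mem, h i j]
  unfold GKru_nc
  rw [h1, card_singleton]

private theorem GKru_kap {lev : ι → ι → ℕ} (k : ℕ) :
    kap lev k univ = GKru_nc fun i j => lev i j ≤ k := by
  unfold kap GKru_nc
  congr 1
  refine image_congr fun i _ => ?_
  ext j
  simp [cl, GKru_mem]

end aux

private theorem GKru_conn_equiv (G : SimpleGraph V) (Z : Finset (Sym2 V)) :
    Equivalence (conn G Z) := by
  refine ⟨fun u => ⟨SimpleGraph.Walk.nil, by simp⟩, ?_, ?_⟩
  · rintro u v ⟨w, hw⟩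
    refine ⟨w.reverse, fun e he => hw e ?_⟩
    rw [SimpleGraph.Walk.edges_reverse, List.mem_reverse] at he
    exact he
  · rintro u v x ⟨w, hw⟩ ⟨w', hw'⟩
    refine ⟨w.append w', fun e he => ?_⟩
    rw [SimpleGraph.Walk.edges_append, List.mem_append] at he
    rcases he with he | he
    · exact hw e he
    · exact hw' e he

private theorem GKru_conn_mono {Z Z' : Finset (Sym2 V)} (h : Z ⊆ Z') {u v : V}
    (hc : conn G Z u v) : conn G Z' u v := by
  obtain ⟨w, hw⟩ := hc
  exact ⟨w, fun e he => h (hw e he)⟩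

private theorem GKru_equiv {ι : Type} (G : SimpleGraph V) (t : ι → V) (Z : Finset (Sym2 V)) :
    Equivalence fun i j => conn G Z (t i) (t j) :=
  ⟨fun i => (GKru_conn_equiv G Z).refl (t i), fun h => (GKru_conn_equiv G Z).symm h,
    fun h h' => (GKru_conn_equiv G Z).trans h h'⟩

private theorem GKru_add_path (hc : ∀ e, 0 ≤ c e) {Y Z : Finset (Sym2 V)} (hYZ : Y ⊆ Z)
    {u v : V} (huv : G.Reachable u v) {x : ℝ} (hx : dst G (cY c Y) u v ≤ x) :
    ∃ Z' : Finset (Sym2 V), Z ⊆ Z' ∧ conn G Z' u v ∧ ec c Z' ≤ ec c Z + x := by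
  obtain ⟨w, hw⟩ := exists_walk (cY_nonneg hc Y) huv
  refine ⟨Z ∪ w.edges.toFinset, subset_union_left, ⟨w, fun e he => ?_⟩, ?_⟩
  · exact mem_union_right _ (List.mem_toFinset.2 he)
  · have h1 := extra hc Z w
    have h2 : wc (cY c Z) w ≤ wc (cY c Y) w := by
      unfold wc
      exact List.sum_le_sum fun e _ => cY_anti hc hYZ e
    linarith

private theorem GKru_step (hc : ∀ e, 0 ≤ c e) {r : V} {ι : Type} [Fintype ι]
    [DecidableEq ι] {t : ι → V} (ht : ∀ i, G.Reachable r (t i)) (Y : Finset (Sym2 V))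
    {x : ℝ} (hx : 0 ≤ x) (n : ℕ) : ∀ Z : Finset (Sym2 V), Y ⊆ Z →
    GKru_nc (fun i j => conn G Z (t i) (t j)) = n → ∃ Z' : Finset (Sym2 V), Z ⊆ Z' ∧
    (∀ i j, dst G (cY c Y) (t i) (t j) ≤ x → conn G Z' (t i) (t j)) ∧
    ec c Z' + x * (GKru_nc fun i j => conn G Z' (t i) (t j)) ≤
      ec c Z + x * (GKru_nc fun i j => conn G Z (t i) (t j)) := by
  induction n using Nat.strong_induction_on with
  | _ n ih =>
    intro Z hYZ hn
    by_cases hall : ∀ i j, dst G (cY c Y) (t i) (t j) ≤ x → conn G Z (t i) (t j)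
    · exact ⟨Z, Subset.refl _, hall, le_refl _⟩
    · push Not at hall
      obtain ⟨i, j, hij, hnc⟩ := hall
      obtain ⟨Z1, h1, h2, h3⟩ := GKru_add_path hc hYZ ((ht i).symm.trans (ht j)) hij
      have hlt : GKru_nc (fun i j => conn G Z1 (t i) (t j)) <
          GKru_nc (fun i j => conn G Z (t i) (t j)) :=
        GKru_nc_lt (GKru_equiv G t Z).refl (GKru_equiv G t Z1)
          (fun a b => GKru_conn_mono h1) h2 hnc
      obtain ⟨Z', h4, h5, h6⟩ := ih _ (hn ▸ hlt) Z1 (hYZ.trans h1) rfl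
      refine ⟨Z', h1.trans h4, h5, h6.trans ?_⟩
      have h7 : ((GKru_nc (fun i j => conn G Z1 (t i) (t j)) : ℕ) : ℝ) + 1 ≤
          (GKru_nc (fun i j => conn G Z (t i) (t j)) : ℕ) := by
        exact_mod_cast hlt
      have h8 := mul_le_mul_of_nonneg_left h7 hx
      linarith

private theorem GKru_ind (hc : ∀ e, 0 ≤ c e) {r : V} {ι : Type} [Fintype ι]
    [DecidableEq ι] {t : ι → V} (ht : ∀ i, G.Reachable r (t i)) {K : ℕ} {ε : ℝ} (hε : 0 < ε)
    (Y : Finset (Sym2 V)) (hK : ∀ i j, DD G c t Y i j ≤ K * ε) (k : ℕ) :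
    ∃ Z : Finset (Sym2 V), Y ⊆ Z ∧
    (∀ i j, dst G (cY c Y) (t i) (t j) ≤ k * ε → conn G Z (t i) (t j)) ∧
    ec c Z + k * ε * (GKru_nc fun i j => conn G Z (t i) (t j)) ≤
      ec c Y + ε * ∑ l ∈ range k, (kap (levOf (DD G c t Y) ε) l univ : ℝ) := by
  induction k with
  | zero =>
    obtain ⟨Z, h1, h2, h3⟩ := GKru_step hc ht Y (le_refl (0 : ℝ)) _ Y (Subset.refl _) rfl
    refine ⟨Z, h1, fun i j h => h2 i j (by simpa using h), ?_⟩
    simpa using h3
  | succ k ih =>
    obtain ⟨Z, h1, h2, h3⟩ := ih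
    have hx : (0 : ℝ) ≤ ((k + 1 : ℕ) : ℝ) * ε := by positivity
    obtain ⟨Z', h4, h5, h6⟩ := GKru_step hc ht Y hx _ Z h1 rfl
    refine ⟨Z', h1.trans h4, h5, h6.trans ?_⟩
    have hnc : GKru_nc (fun i j => conn G Z (t i) (t j)) ≤
        kap (levOf (DD G c t Y) ε) k univ := by
      rw [GKru_kap]
      refine GKru_nc_le (fun i => ?_) (GKru_equiv G t Z) fun i j hij => ?_
      · rw [levOf_le_iff hε hK]
      · rw [levOf_le_iff hε hK] at hij
        induction hij with
        | refl => exact (GKru_equiv G t Z).refl i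
        | tail _ h ih => exact (GKru_equiv G t Z).trans ih (h2 _ _ h)
    have hnc' : ((GKru_nc (fun i j => conn G Z (t i) (t j)) : ℕ) : ℝ) ≤
        (kap (levOf (DD G c t Y) ε) k univ : ℕ) := by exact_mod_cast hnc
    have h7 := mul_le_mul_of_nonneg_left hnc' hε.le
    rw [sum_range_succ, mul_add]
    push_cast
    nlinarith

theorem kruskal (hc : ∀ e, 0 ≤ c e) {R : Finset V} {r : V} (hr : r ∈ R) {ι : Type} [Fintype ι]
    [DecidableEq ι] {t : ι → V} (hsurj : ∀ v ∈ R, ∃ i, t i = v)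
    (ht : ∀ i, G.Reachable r (t i)) {K : ℕ} {ε : ℝ} (hε : 0 < ε)
    (hK : ∀ i j, dst G c (t i) (t j) ≤ K * ε) (Y : Finset (Sym2 V)) :
    OPT G c R ≤ ec c Y + MM G c t K ε Y := by
  have hK' : ∀ i j, DD G c t Y i j ≤ K * ε := fun i j =>
    (dst_mono (cY_nonneg hc Y) hc (cY_le hc Y) ((ht i).symm.trans (ht j))).trans (hK i j)
  obtain ⟨i0, hi0⟩ := hsurj r hr
  haveI : Nonempty ι := ⟨i0⟩
  obtain ⟨Z, h1, h2, h3⟩ := GKru_ind hc ht hε Y hK' K
  have hall : ∀ i j, conn G Z (t i) (t j) := fun i j => h2 i j (hK' i j)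
  have hopt : OPT G c R ≤ ec c Z := by
    refine opt_le_conn hc hr fun v hv => ?_
    obtain ⟨i, rfl⟩ := hsurj v hv
    rw [← hi0]
    exact hall i0 i
  rw [GKru_nc_one hall] at h3
  unfold MM mu
  rw [sum_sub_distrib, mul_sub]
  simp only [sum_const, card_range, nsmul_eq_mul, mul_one]
  push_cast at h3
  linarith

end BcrU
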