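import Mathlib

/-!
Upper bounds for the integrality gap of the bidirected cut relaxation: abstract definitions.
-/

namespace BcrU

open Finset

/-- the function `2 / (1 + n)` -/
noncomputable def g (n : ℕ) : ℝ := 2 / (1 + (n : ℝ))

section Forest

variable {α : Type} [DecidableEq α] (par : α → α) (rk : α → ℕ) (K : ℕ)

/-- up-closed finite sets of nodes of rank below `K` -/
def Up (P : Finset α) : Prop :=
  (∀ x ∈ P, rk x < K) ∧ ∀ x ∈ P, rk x + 1 < K → par x ∈ P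

open Classical in
/-- nodes of `P` with a node of `P` at depth `h` below them -/
noncomputable def trim (P : Finset α) (h : ℕ) : Finset α :=
  P.filter fun p => ∃ x ∈ P, par^[h] x = p

/-- depth of `P` below `p` -/
noncomputable def age (P : Finset α) (p : α) : ℕ :=
  Nat.findGreatest (fun h => p ∈ trim par P h) (rk p)

/-- number of nodes of age `h` -/
noncomputable def cnt (P : Finset α) (h : ℕ) : ℕ :=
  (P.filter fun p => age par rk P p = h).card

/-- the credit of a node -/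
noncomputable def nu (P : Finset α) (p : α) : ℝ :=
  if p ∈ P then g (cnt par rk P (age par rk P p)) else 0

end Forest

/-- ultrametric levels on the terminals -/
structure Ult {ι : Type} (K : ℕ) (lev : ι → ι → ℕ) : Prop where
  refl : ∀ i, lev i i = 0
  symm : ∀ i j, lev i j = lev j i
  ultra : ∀ i j l, lev i l ≤ max (lev i j) (lev j l)
  bound : ∀ i j, lev i j ≤ K

section Levels

variable {ι : Type} [Fintype ι] [DecidableEq ι]

/-- class of `i` at level `k` -/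
def cl (lev : ι → ι → ℕ) (k : ℕ) (i : ι) : Finset ι := univ.filter fun j => lev i j ≤ k

/-- the classes of level `k` -/
def cls (lev : ι → ι → ℕ) (k : ℕ) : Finset (Finset ι) := univ.image (cl lev k)

/-- number of classes of level `k` which meet `S` -/
def kap (lev : ι → ι → ℕ) (k : ℕ) (S : Finset ι) : ℕ := (S.image (cl lev k)).card

/-- cost of the minimum spanning tree of `S` -/
noncomputable def mu (lev : ι → ι → ℕ) (K : ℕ) (ε : ℝ) (S : Finset ι) : ℝ :=
  ε * ∑ k ∈ range K, ((kap lev k S : ℝ) - 1)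

/-- admissible vectors -/
structure Adm (lev : ι → ι → ℕ) (ε s : ℝ) (e : Finset ι → ℝ) : Prop where
  nn : ∀ B : Finset ι, B.Nonempty → 0 ≤ e B
  mono : ∀ B C : Finset ι, B.Nonempty → B ⊆ C → e C ≤ e B
  pair : ∀ (k : ℕ) (B C : Finset ι), B.Nonempty → C.Nonempty →
    (∀ i ∈ B, ∀ j ∈ B, lev i j ≤ k + 1) → (∀ i ∈ C, ∀ j ∈ C, lev i j ≤ k + 1) →
    (∀ i ∈ B, ∀ j ∈ C, k < lev i j) → ε * ((k : ℝ) + 1) ≤ e B + e C
  hub : ∀ (k : ℕ) (B C : Finset ι), B.Nonempty → C.Nonempty →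
    (∀ i ∈ B, ∀ j ∈ B, lev i j ≤ k + 1) → (∀ i ∈ C, ∀ j ∈ C, lev i j ≤ k + 1) →
    (∀ i ∈ B, ∀ j ∈ C, k < lev i j) →
    e (B ∪ C) ≤ e B + e C - ε * ((k : ℝ) + 1) + s * e B

end Levels

/-- valid threshold designs for the parameter `s` -/
structure Des (s : ℝ) (m q : ℕ) (θ : ℕ → ℝ) : Prop where
  hq : q ≤ m
  hm : 0 < m
  pos : ∀ j < m, 0 < θ j
  lt_one : ∀ j < m, θ j < 1
  anti : ∀ i j, i ≤ j → j < m → θ j ≤ θ i
  A : ∀ i j, j ≤ i → i + j + 1 < m → (1 + s) * θ i + θ j - 1 ≤ θ (i + j + 1)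
  B : ∀ i j, j ≤ i → i < m → m ≤ i + j + 1 → θ i + θ j ≤ 1

/-- the value of a design -/
noncomputable def beta (m q : ℕ) (θ : ℕ → ℝ) : ℝ :=
  ((∑ j ∈ range m, θ j) + 2 * ∑ j ∈ range q, θ j) / ((m : ℝ) + 2 * q)

/-- number of thresholds passed -/
noncomputable def J (θ : ℕ → ℝ) (m : ℕ) (x τ : ℝ) : ℕ :=
  ((range m).filter fun j => x < θ j * τ).card

section Nodes

variable {ι : Type} [Fintype ι] [DecidableEq ι]

/-- nodes (level, class) of the merge tree below level `K` -/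
def nodes (lev : ι → ι → ℕ) (K : ℕ) : Finset (ℕ × Finset ι) :=
  (range K).biUnion fun k => (cls lev k).image fun B => (k, B)

/-- parent node -/
def par (lev : ι → ι → ℕ) (p : ℕ × Finset ι) : ℕ × Finset ι :=
  (p.1 + 1, p.2.biUnion (cl lev (p.1 + 1)))

/-- nodes which are present for the threshold `θ` -/
noncomputable def PP (lev : ι → ι → ℕ) (K : ℕ) (ε θ : ℝ) (e : Finset ι → ℝ) :
    Finset (ℕ × Finset ι) :=
  (nodes lev K).filter fun p => e p.2 < θ * (ε * ((p.1 : ℝ) + 1))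

/-- credit density of a node -/
noncomputable def dens (lev : ι → ι → ℕ) (K : ℕ) (ε : ℝ) (m q : ℕ) (θ : ℕ → ℝ)
    (e : Finset ι → ℝ) (p : ℕ × Finset ι) : ℝ :=
  3 / ((m : ℝ) + 2 * q) * ∑ j ∈ range q, θ j * nu (par lev) Prod.fst (PP lev K ε (θ j) e) p +
  1 / ((m : ℝ) + 2 * q) * ∑ j ∈ Ico q m, θ j * (if p ∈ PP lev K ε (θ j) e then 1 else 0)

end Nodes

/-- pseudometrics -/
structure PMet {W : Type} (d : W → W → ℝ) : Prop where
  nn : ∀ u v, 0 ≤ d u v
  self : ∀ u, d u u = 0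
  symm : ∀ u v, d u v = d v u
  tri : ∀ u v w, d u w ≤ d u v + d v w

/-- structures: trees with terminal set `S` through the point `w`; the last argument is the cost plus
`s` times the loss -/
inductive Str {ι W : Type} [DecidableEq ι] (t : ι → W) (d : W → W → ℝ) (s : ℝ) :
    Finset ι → W → ℝ → Prop
  | base (i : ι) : Str t d s {i} (t i) 0
  | hub {S₁ S₂ : Finset ι} {w₁ w₂ : W} {a₁ a₂ : ℝ} (v : W) : Str t d s S₁ w₁ a₁ →
      Str t d s S₂ w₂ a₂ → Disjoint S₁ S₂ →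
      Str t d s (S₁ ∪ S₂) v (a₁ + a₂ + d v w₁ + d v w₂ + s * min (d v w₁) (d v w₂))
  | pair {S₁ S₂ : Finset ι} {w₁ w₂ : W} {a₁ a₂ : ℝ} : Str t d s S₁ w₁ a₁ →
      Str t d s S₂ w₂ a₂ → Disjoint S₁ S₂ →
      Str t d s (S₁ ∪ S₂) w₁ (a₁ + a₂ + d w₁ w₂)

/-- the laminar information -/
noncomputable def eB {ι W : Type} [Fintype ι] [DecidableEq ι] (t : ι → W) (d : W → W → ℝ)
    (s : ℝ) (lev : ι → ι → ℕ) (K : ℕ) (ε : ℝ) (v : W) (B : Finset ι) : ℝ :=
  sInf {x | ∃ (S : Finset ι) (w : W) (a : ℝ), S ⊆ B ∧ Str t d s S w a ∧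
    x = a + d v w - mu lev K ε S}

/-- single linkage levels of a dissimilarity -/
noncomputable def levOf {ι : Type} (D : ι → ι → ℝ) (ε : ℝ) (i j : ι) : ℕ :=
  sInf {k : ℕ | Relation.ReflTransGen (fun a b => D a b ≤ (k : ℝ) * ε) i j}

end BcrU
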