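import Pool.Agent.Lib.BcrU.Defs

/-!
MODULE Dsg (220 lines). The linear design.

`c = s/(1+s)`, `κ = kl s = 4 (1-s)/((1+s)(4+s))`, `N = 2p + 2`, `x_i = (i+1)/N`. With `T x = 1 - c - κ x` for `x < 1/2`, `T (1/2) = 1/2`,
`T x = c + κ (1 - x)` for `x > 1/2`: `θ i = T x_i` for `i ≤ 2p`; `x_{i+j+1} = x_i + x_j`, `x_p = 1/2`, `T (1-x) = 1 - T x`.
`0 ≤ c ≤ 1/2`, `0 ≤ κ`, `κ/2 ≤ 1/2 - c` (`4 ≤ 4 + s`), so `T` is antitone.
* `pos`, `lt_one`: `c + κ (1-x) > 0` for `x < 1` (if `s > 0` then `c > 0`, if `s = 0` then `κ = 1`), `1 - c - κ x < 1` for `x > 0`.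
* (B): `x_i + x_j ≥ 1` means `x_j ≥ 1 - x_i`, so `T x_j ≤ T (1 - x_i) = 1 - T x_i`.
* (A) for `a = x_i ≥ b = x_j`, `a + b < 1`; to show `(1+s) T a + T b - 1 ≤ T (a+b)`. Use `(1+s)(1-c) = 1`.
  - `a + b < 1/2`: left `= 1 - c - κ(a+b) - s κ a ≤ T(a+b)`.
  - `a < 1/2`, `a + b = 1/2`: left `= 1 - c - κ/2 - s κ a`, `a ≥ 1/4`: need `1/2 - c ≤ κ (2+s)/4`, i.e. `1/2 ≤ (2+s)/(4+s)`.
  - `a < 1/2 < a + b`: need `1 - 2c ≤ κ (1 + s a)`; `a ≥ 1/4`, and `1 - 2c = (1-s)/(1+s) = κ (1 + s/4)`.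
  - `a = 1/2` (then `b < 1/2`): need `(1+s)/2 ≤ 2c + κ/2`, i.e. `s (3+s)(1-s) ≥ 0`.
  - `a > 1/2` (then `b < 1/2`): need `s κ (1-a) ≤ c (1-s)`; `1 - a < 1/2`: `2/(4+s) ≤ 1`.
* `beta_lin`: `∑_{j<2p+1} θ j = (2p+1)/2` (the terms `j` and `2p - j` add up to `1`: `Finset.sum_range_reflect`),
  `∑_{j<q} θ j = q/(1+s) - κ q (q+1)/(2N)` for `q ≤ p` (induction on `q`).
* `des_half`: `m = 1`, `q = 0`, `θ = 1/2` (not needed here).
-/

namespace BcrU

open Finset

/-- slope of the linear design -/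
noncomputable def kl (s : ℝ) : ℝ := 4 * (1 - s) / ((1 + s) * (4 + s))

/-- the linear design -/
noncomputable def thl (s : ℝ) (p j : ℕ) : ℝ :=
  if j < p then 1 / (1 + s) - kl s * ((j : ℝ) + 1) / (2 * p + 2)
  else if j = p then 1 / 2
  else s / (1 + s) + kl s * (2 * (p : ℝ) + 1 - j) / (2 * p + 2)

/-- the profile of the linear design -/
private noncomputable def TT (c k x : ℝ) : ℝ :=
  if x < 1 / 2 then 1 - c - k * x else if x = 1 / 2 then 1 / 2 else c + k * (1 - x)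

private lemma TT_lt {c k x : ℝ} (h : x < 1 / 2) : TT c k x = 1 - c - k * x := by
  unfold TT; rw [if_pos h]

private lemma TT_eq {c k : ℝ} : TT c k (1 / 2) = 1 / 2 := by
  unfold TT; rw [if_neg (lt_irrefl _), if_pos rfl]

private lemma TT_gt {c k x : ℝ} (h : 1 / 2 < x) : TT c k x = c + k * (1 - x) := by
  unfold TT; rw [if_neg (not_lt.mpr h.le), if_neg h.ne']

private lemma thl_eq {s : ℝ} (hs0 : 0 ≤ s) (p j : ℕ) :
    thl s p j = TT (s / (1 + s)) (kl s) (((j : ℝ) + 1) / (2 * p + 2)) := by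
  have hN : (0 : ℝ) < 2 * (p : ℝ) + 2 := by positivity
  have h1 : (0 : ℝ) < 1 + s := by linarith
  unfold thl
  split_ifs with h h'
  · have hx : ((j : ℝ) + 1) / (2 * p + 2) < 1 / 2 := by
      rw [div_lt_div_iff₀ hN two_pos]
      have : (j : ℝ) < p := by exact_mod_cast h
      linarith
    rw [TT_lt hx]
    field_simp
    ring
  · subst h'
    have hx : ((j : ℝ) + 1) / (2 * j + 2) = 1 / 2 := by
      rw [div_eq_div_iff hN.ne' two_ne_zero]
      ring
    rw [hx, TT_eq]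
  · have hx : 1 / 2 < ((j : ℝ) + 1) / (2 * p + 2) := by
      rw [div_lt_div_iff₀ two_pos hN]
      have h2 : p < j := by omega
      have : (p : ℝ) < j := by exact_mod_cast h2
      linarith
    rw [TT_gt hx]
    field_simp
    ring

private lemma fc {s : ℝ} (hs0 : 0 ≤ s) (hs1 : s ≤ 1) :
    0 ≤ s / (1 + s) ∧ 0 ≤ kl s ∧ 1 - 2 * (s / (1 + s)) = kl s * (1 + s / 4) ∧
      (1 + s) * (1 - s / (1 + s)) = 1 ∧ (1 + s) / 2 ≤ 2 * (s / (1 + s)) + kl s / 2 ∧
      s * kl s / 2 ≤ (s / (1 + s)) * (1 - s) ∧ (0 < s / (1 + s) ∨ 0 < kl s) := by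
  have h1 : (0 : ℝ) < 1 + s := by linarith
  have h4 : (0 : ℝ) < 4 + s := by linarith
  have hs : 0 ≤ 1 - s := by linarith
  refine ⟨by positivity, ?_, ?_, ?_, ?_, ?_, ?_⟩
  · unfold kl; positivity
  · unfold kl; field_simp; ring
  · field_simp; ring
  · unfold kl
    have : 2 * (s / (1 + s)) + 4 * (1 - s) / ((1 + s) * (4 + s)) / 2 - (1 + s) / 2
        = s * (3 + s) * (1 - s) / (2 * ((1 + s) * (4 + s))) := by
      field_simp; ring
    have h5 : 0 ≤ s * (3 + s) * (1 - s) / (2 * ((1 + s) * (4 + s))) := by positivity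
    linarith
  · unfold kl
    have : s / (1 + s) * (1 - s) - s * (4 * (1 - s) / ((1 + s) * (4 + s))) / 2
        = s * (1 - s) * (2 + s) / ((1 + s) * (4 + s)) := by
      field_simp; ring
    have h5 : 0 ≤ s * (1 - s) * (2 + s) / ((1 + s) * (4 + s)) := by positivity
    linarith
  · rcases hs0.eq_or_lt with h | h
    · right
      subst h
      unfold kl
      norm_num
    · left
      positivity

private lemma TT_anti {c k : ℝ} (hk : 0 ≤ k) (hck : k ≤ 1 - 2 * c) {x y : ℝ}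
    (hxy : x ≤ y) : TT c k y ≤ TT c k x := by
  have hkxy : k * x ≤ k * y := mul_le_mul_of_nonneg_left hxy hk
  rcases lt_trichotomy y (1 / 2) with hy | hy | hy
  · rw [TT_lt hy, TT_lt (lt_of_le_of_lt hxy hy)]
    linarith
  · subst hy
    rw [TT_eq]
    rcases hxy.lt_or_eq with h | h
    · rw [TT_lt h]
      linarith
    · rw [h, TT_eq]
  · rw [TT_gt hy]
    have h2 : k * (1 / 2) ≤ k * y := mul_le_mul_of_nonneg_left hy.le hk
    rcases lt_trichotomy x (1 / 2) with hx | hx | hx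
    · rw [TT_lt hx]
      have h3 : k * x ≤ k * (1 / 2) := mul_le_mul_of_nonneg_left hx.le hk
      nlinarith
    · subst hx
      rw [TT_eq]
      nlinarith
    · rw [TT_gt hx]
      nlinarith

private lemma TT_A {s c k : ℝ} (hs0 : 0 ≤ s) (hk : 0 ≤ k)
    (h1 : 1 - 2 * c = k * (1 + s / 4)) (h2 : (1 + s) * (1 - c) = 1)
    (h3 : (1 + s) / 2 ≤ 2 * c + k / 2) (h4 : s * k / 2 ≤ c * (1 - s)) {a b : ℝ}
    (hb : 0 ≤ b) (hba : b ≤ a) (hab : a + b < 1) :
    (1 + s) * TT c k a + TT c k b - 1 ≤ TT c k (a + b) := by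
  have hsk : 0 ≤ s * k := mul_nonneg hs0 hk
  have ha0 : 0 ≤ a := hb.trans hba
  have hska : 0 ≤ s * k * a := mul_nonneg hsk ha0
  rcases lt_trichotomy a (1 / 2) with ha | ha | ha
  · rw [TT_lt ha, TT_lt (lt_of_le_of_lt hba ha)]
    have hL : (1 + s) * (1 - c - k * a) + (1 - c - k * b) - 1
        = (1 + s) * (1 - c) - 1 + (1 - c - k * (a + b) - s * k * a) := by ring
    rw [hL, h2]
    rcases lt_trichotomy (a + b) (1 / 2) with h | h | h
    · rw [TT_lt h]; linarith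
    · have ha4 : 1 / 4 ≤ a := by linarith
      have h6 : s * k * (1 / 4) ≤ s * k * a := mul_le_mul_of_nonneg_left ha4 hsk
      rw [h, TT_eq]
      nlinarith
    · have ha4 : 1 / 4 ≤ a := by linarith
      have h6 : s * k * (1 / 4) ≤ s * k * a := mul_le_mul_of_nonneg_left ha4 hsk
      rw [TT_gt h]
      nlinarith
  · subst ha
    have hb2 : b < 1 / 2 := by linarith
    rw [TT_eq, TT_lt hb2]
    rcases hb.eq_or_lt with h0 | h0
    · subst h0
      rw [add_zero, TT_eq]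
      nlinarith
    · rw [TT_gt (by linarith : (1 : ℝ) / 2 < 1 / 2 + b)]
      nlinarith
  · have hb2 : b < 1 / 2 := by linarith
    rw [TT_gt ha, TT_lt hb2, TT_gt (by linarith : (1 : ℝ) / 2 < a + b)]
    have h6 : s * k * (1 - a) ≤ s * k * (1 / 2) :=
      mul_le_mul_of_nonneg_left (by linarith) hsk
    nlinarith

private lemma TT_B {c k : ℝ} (hk : 0 ≤ k) (hck : k ≤ 1 - 2 * c) {a b : ℝ}
    (hba : b ≤ a) (hab : 1 ≤ a + b) : TT c k a + TT c k b ≤ 1 := by
  rcases lt_trichotomy b (1 / 2) with hb | hb | hb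
  · have ha : 1 / 2 < a := by linarith
    rw [TT_gt ha, TT_lt hb]
    nlinarith [mul_nonneg hk (by linarith : (0 : ℝ) ≤ a + b - 1)]
  · subst hb
    rcases hba.lt_or_eq with h | h
    · rw [TT_gt h, TT_eq]
      nlinarith [mul_nonneg hk (by linarith : (0 : ℝ) ≤ a - 1 / 2)]
    · rw [← h, TT_eq]; norm_num
  · rw [TT_gt hb, TT_gt (lt_of_lt_of_le hb hba)]
    nlinarith [mul_nonneg hk (by linarith : (0 : ℝ) ≤ a + b - 1)]

theorem des_lin {s : ℝ} (hs0 : 0 ≤ s) (hs1 : s ≤ 1) {p q : ℕ} (hq : q ≤ p) :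
    Des s (2 * p + 1) q (thl s p) := by
  obtain ⟨hc, hk, h1, h2, h3, h4, h5⟩ := fc hs0 hs1
  have hN : (0 : ℝ) < 2 * (p : ℝ) + 2 := by positivity
  have hck : kl s ≤ 1 - 2 * (s / (1 + s)) := by
    rw [h1]
    nlinarith [mul_nonneg hk hs0]
  have hc2 : s / (1 + s) ≤ 1 / 2 := by linarith
  refine ⟨by omega, by omega, ?_, ?_, ?_, ?_, ?_⟩
  · intro j hj
    have hj' : (j : ℝ) < 2 * p + 1 := by exact_mod_cast hj
    have hx1 : ((j : ℝ) + 1) / (2 * p + 2) < 1 := by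
      rw [div_lt_one hN]; linarith
    rw [thl_eq hs0]
    rcases lt_trichotomy (((j : ℝ) + 1) / (2 * p + 2)) (1 / 2) with h | h | h
    · rw [TT_lt h]
      nlinarith [mul_nonneg hk (by linarith : (0 : ℝ) ≤ 1 / 2 - ((j : ℝ) + 1) / (2 * p + 2))]
    · rw [h, TT_eq]; norm_num
    · rw [TT_gt h]
      have h6 : 0 < 1 - ((j : ℝ) + 1) / (2 * p + 2) := by linarith
      rcases h5 with h5 | h5
      · exact add_pos_of_pos_of_nonneg h5 (mul_nonneg hk h6.le)
      · exact add_pos_of_nonneg_of_pos hc (mul_pos h5 h6)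
  · intro j hj
    have hx0 : 0 < ((j : ℝ) + 1) / (2 * p + 2) := by positivity
    rw [thl_eq hs0]
    rcases lt_trichotomy (((j : ℝ) + 1) / (2 * p + 2)) (1 / 2) with h | h | h
    · rw [TT_lt h]
      rcases h5 with h5 | h5
      · nlinarith [mul_nonneg hk hx0.le]
      · nlinarith [mul_pos h5 hx0]
    · rw [h, TT_eq]; norm_num
    · rw [TT_gt h]
      nlinarith [mul_nonneg hk (by linarith : (0 : ℝ) ≤ ((j : ℝ) + 1) / (2 * p + 2) - 1 / 2)]
  · intro i j hij hj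
    rw [thl_eq hs0, thl_eq hs0]
    apply TT_anti hk hck
    have : (i : ℝ) ≤ j := by exact_mod_cast hij
    gcongr
  · intro i j hji hij
    rw [thl_eq hs0, thl_eq hs0, thl_eq hs0]
    have e : (((i + j + 1 : ℕ) : ℝ) + 1) / (2 * p + 2)
        = ((i : ℝ) + 1) / (2 * p + 2) + ((j : ℝ) + 1) / (2 * p + 2) := by
      push_cast
      ring
    rw [e]
    apply TT_A hs0 hk h1 h2 h3 h4
    · positivity
    · have : (j : ℝ) ≤ i := by exact_mod_cast hji
      gcongr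
    · rw [← add_div, div_lt_one hN]
      have : (i : ℝ) + j + 1 < 2 * p + 1 := by exact_mod_cast hij
      linarith
  · intro i j hji him hij
    rw [thl_eq hs0, thl_eq hs0]
    apply TT_B hk hck
    · have : (j : ℝ) ≤ i := by exact_mod_cast hji
      gcongr
    · rw [← add_div, one_le_div hN]
      have : 2 * (p : ℝ) + 1 ≤ i + j + 1 := by exact_mod_cast hij
      linarith

private lemma sum_low (s : ℝ) {p : ℕ} : ∀ q : ℕ, q ≤ p →
    ∑ j ∈ range q, thl s p j = q / (1 + s) - kl s * (q * (q + 1)) / (2 * (2 * p + 2)) := by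
  intro q
  induction q with
  | zero => intro _; simp
  | succ q ih =>
    intro h
    rw [sum_range_succ, ih (by omega)]
    unfold thl
    rw [if_pos (by omega : q < p)]
    have hN : (2 * (p : ℝ) + 2) ≠ 0 := by positivity
    push_cast
    rw [show kl s * (q * (q + 1)) / (2 * (2 * (p : ℝ) + 2))
      = kl s * (q * (q + 1)) / 2 / (2 * (p : ℝ) + 2) by field_simp]
    rw [show kl s * (((q : ℝ) + 1) * (q + 1 + 1)) / (2 * (2 * (p : ℝ) + 2))
      = kl s * (((q : ℝ) + 1) * (q + 1 + 1)) / 2 / (2 * (p : ℝ) + 2) by field_simp]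
    ring

private lemma refl_one {s : ℝ} (hs0 : 0 ≤ s) {p j : ℕ} (hj : j < 2 * p + 1) :
    thl s p j + thl s p (2 * p + 1 - 1 - j) = 1 := by
  have h1 : (0 : ℝ) < 1 + s := by linarith
  have hN : (0 : ℝ) < 2 * (p : ℝ) + 2 := by positivity
  have e : ((2 * p + 1 - 1 - j : ℕ) : ℝ) = 2 * p - j := by
    rw [show 2 * p + 1 - 1 - j = 2 * p - j by omega, Nat.cast_sub (by omega)]
    push_cast
    ring
  rcases lt_trichotomy j p with h | h | h
  · unfold thl
    rw [if_pos h, if_neg (by omega), if_neg (by omega), e]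
    field_simp
    ring
  · subst h
    unfold thl
    rw [if_neg (lt_irrefl _), if_pos rfl, if_neg (by omega), if_pos (by omega)]
    norm_num
  · unfold thl
    rw [if_neg (by omega), if_neg (by omega), if_pos (by omega), e]
    field_simp
    ring

private lemma sum_all {s : ℝ} (hs0 : 0 ≤ s) (p : ℕ) :
    ∑ j ∈ range (2 * p + 1), thl s p j = (2 * (p : ℝ) + 1) / 2 := by
  have h := Finset.sum_range_reflect (thl s p) (2 * p + 1)
  have h2 : ∑ j ∈ range (2 * p + 1), (thl s p j + thl s p (2 * p + 1 - 1 - j))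
      = ∑ j ∈ range (2 * p + 1), (1 : ℝ) :=
    sum_congr rfl fun j hj => refl_one hs0 (mem_range.mp hj)
  rw [sum_add_distrib, h, sum_const, card_range, nsmul_eq_mul] at h2
  push_cast at h2
  linarith

theorem beta_lin {s : ℝ} (hs0 : 0 ≤ s) {p q : ℕ} (hq : q ≤ p) :
    beta (2 * p + 1) q (thl s p) =
      ((2 * (p : ℝ) + 1) / 2 + 2 * q / (1 + s) - kl s * (q * (q + 1)) / (2 * p + 2)) /
        ((2 * (p : ℝ) + 1) + 2 * q) := by
  unfold beta
  rw [sum_all hs0, sum_low s q hq]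
  have hN : (2 * (p : ℝ) + 2) ≠ 0 := by positivity
  have e : 2 * ((q : ℝ) / (1 + s) - kl s * (q * (q + 1)) / (2 * (2 * p + 2)))
      = 2 * q / (1 + s) - kl s * (q * (q + 1)) / (2 * p + 2) := by
    rw [show kl s * ((q : ℝ) * (q + 1)) / (2 * (2 * p + 2))
      = kl s * ((q : ℝ) * (q + 1)) / (2 * p + 2) / 2 by field_simp]
    ring
  rw [e]
  push_cast
  ring

end BcrU
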