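import Pool.Agent.Lib.BcrU.Defs

/-!
MODULE FNum (70 lines). Pure arithmetic with `g n = 2 / (1 + n)`.

(a) `up_le`. Put `term h = u_h (g (u_h + d_{h+1}) - g (u_h + d_h))`. For natural `u` and `j ≥ 1`,
`u (g (u + j - 1) - g (u + j)) = 2 u / ((u + j) (u + j + 1)) ≤ 1/3`, because
`6 u ≤ (u + 1) (u + 2) ≤ (u + j) (u + j + 1)` (`(u - 1) (u - 2) ≥ 0` for natural `u`).
Hence, by induction on `b - a`: `u (g (u + a) - g (u + b)) ≤ (b - a)/3` for `a ≤ b`.
So `term h ≤ (d_h - d_{h+1})/3`, the sum telescopes to `(d_0 - d_n)/3 ≤ d_0/3`.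

(b) `down_le`. Put `Psi u d = d g (u + d)`. Claim: for `a ≤ b`, `0 < b`:
`Psi u b - Psi u a ≤ (b - a)/3 + (if a = 0 then 2/3 else 0)`, since
`Psi u j - Psi u (j-1) = 2 (u + 1)/((u + j)(u + j + 1))` is at most `1` for `j = 1` and at most `1/3` for `j ≥ 2`
(`6 (u+1) ≤ (u+2)(u+3)`, that is `u (u - 1) ≥ 0`, true for natural `u`).
By induction on `n`:  `d_0 g(u_0+d_0) + sum_{h<n} ... = sum_{h<n} (Psi u_h d_h - Psi u_h d_{h+1}) + Psi u_n d_n`.
In this sum the extra `2/3` occurs at most once: either at the single `h` with `d_h > 0 = d_{h+1}`, or in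
`Psi u_n d_n - Psi u_n 0` if `d_n > 0`. So the total is at most `d_0/3 + 2/3`.
(Induction statement for all antitone pairs: if `d_n > 0`, partial sum `≤ (d_0 - d_n)/3`; then the last term is
`Psi u_n d_n ≤ d_n/3 + 2/3`. If `d_n = 0`, induct.)
-/

namespace BcrU

open Finset

private theorem FNum_sq (u : ℕ) : (6 : ℝ) * u ≤ ((u : ℝ) + 1) * ((u : ℝ) + 2) := by
  have h : 6 * u ≤ (u + 1) * (u + 2) := by
    rcases Nat.lt_or_ge u 3 with h | h
    · interval_cases u <;> norm_num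
    · nlinarith
  exact_mod_cast h

private theorem FNum_sq2 (u : ℕ) : (6 : ℝ) * ((u : ℝ) + 1) ≤ ((u : ℝ) + 2) * ((u : ℝ) + 3) := by
  have h : 6 * (u + 1) ≤ (u + 2) * (u + 3) := by
    rcases Nat.lt_or_ge u 2 with h | h
    · interval_cases u <;> norm_num
    · nlinarith
  exact_mod_cast h

private theorem FNum_stepa (u k : ℕ) : (u : ℝ) * (g (u + k) - g (u + (k + 1))) ≤ 1 / 3 := by
  have hu : (0 : ℝ) ≤ u := Nat.cast_nonneg u
  have hk : (0 : ℝ) ≤ k := Nat.cast_nonneg k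
  have e : (u : ℝ) * (g (u + k) - g (u + (k + 1))) =
      2 * u / (((u : ℝ) + k + 1) * ((u : ℝ) + k + 2)) := by
    unfold g
    push_cast
    have h1 : (1 + ((u : ℝ) + k)) ≠ 0 := by positivity
    have h2 : (1 + ((u : ℝ) + (k + 1))) ≠ 0 := by positivity
    have h3 : ((u : ℝ) + k + 1) ≠ 0 := by positivity
    have h4 : ((u : ℝ) + k + 2) ≠ 0 := by positivity
    field_simp
    ring
  rw [e, div_le_div_iff₀ (by positivity) (by norm_num)]
  have := FNum_sq u
  nlinarith [mul_nonneg hu hk, mul_nonneg hk hk]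

private theorem FNum_a (u a b : ℕ) (hab : a ≤ b) :
    (u : ℝ) * (g (u + a) - g (u + b)) ≤ ((b : ℝ) - a) / 3 := by
  induction b, hab using Nat.le_induction with
  | base => simp
  | succ b hb ih =>
    have := FNum_stepa u b
    push_cast
    nlinarith

private theorem FNum_psi (u k : ℕ) :
    ((k + 1 : ℕ) : ℝ) * g (u + (k + 1)) - (k : ℝ) * g (u + k) =
      2 * ((u : ℝ) + 1) / (((u : ℝ) + k + 1) * ((u : ℝ) + k + 2)) := by
  unfold g
  push_cast
  have hu : (0 : ℝ) ≤ u := Nat.cast_nonneg u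
  have hk : (0 : ℝ) ≤ k := Nat.cast_nonneg k
  have h1 : (1 + ((u : ℝ) + k)) ≠ 0 := by positivity
  have h2 : (1 + ((u : ℝ) + (k + 1))) ≠ 0 := by positivity
  have h3 : ((u : ℝ) + k + 1) ≠ 0 := by positivity
  have h4 : ((u : ℝ) + k + 2) ≠ 0 := by positivity
  field_simp
  ring

private theorem FNum_step0 (u : ℕ) :
    ((0 + 1 : ℕ) : ℝ) * g (u + (0 + 1)) - ((0 : ℕ) : ℝ) * g (u + 0) ≤ 1 := by
  rw [FNum_psi]
  have hu : (0 : ℝ) ≤ u := Nat.cast_nonneg u
  rw [div_le_iff₀ (by positivity)]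
  push_cast
  nlinarith

private theorem FNum_step1 (u k : ℕ) (h : 1 ≤ k) :
    ((k + 1 : ℕ) : ℝ) * g (u + (k + 1)) - (k : ℝ) * g (u + k) ≤ 1 / 3 := by
  rw [FNum_psi]
  have hu : (0 : ℝ) ≤ u := Nat.cast_nonneg u
  have hk : (1 : ℝ) ≤ k := by exact_mod_cast h
  have hp : (0 : ℝ) < ((u : ℝ) + k + 1) * ((u : ℝ) + k + 2) := by positivity
  rw [div_le_div_iff₀ hp (by norm_num)]
  have := FNum_sq2 u
  have h1 : ((u : ℝ) + 2) * ((u : ℝ) + 3) ≤ ((u : ℝ) + k + 1) * ((u : ℝ) + k + 2) := by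
    apply mul_le_mul <;> linarith
  linarith

private theorem FNum_b1 (u a b : ℕ) (ha : 0 < a) (hab : a ≤ b) :
    (b : ℝ) * g (u + b) - (a : ℝ) * g (u + a) ≤ ((b : ℝ) - a) / 3 := by
  induction b, hab using Nat.le_induction with
  | base => simp
  | succ b hb ih =>
    have := FNum_step1 u b (le_trans ha hb)
    push_cast at *
    linarith

private theorem FNum_b0 (u b : ℕ) : (b : ℝ) * g (u + b) ≤ (b : ℝ) / 3 + 2 / 3 := by
  rcases Nat.eq_zero_or_pos b with rfl | hb
  · norm_num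
  · have h0 := FNum_step0 u
    have h1 := FNum_b1 u 1 b one_pos hb
    push_cast at h0 h1
    simp only [zero_add, zero_mul, sub_zero, one_mul] at h0 h1
    linarith

theorem down_le (u d : ℕ → ℕ) (hu : Antitone u) (hd : Antitone d) (h0 : 0 < d 0) (n : ℕ) :
    (d 0 : ℝ) * g (u 0 + d 0) + ∑ h ∈ range n, (d (h + 1) : ℝ) *
      (g (u (h + 1) + d (h + 1)) - g (u h + d (h + 1))) ≤ (2 + (d 0 : ℝ)) / 3 := by
  set S : ℕ → ℝ := fun n => (d 0 : ℝ) * g (u 0 + d 0) + ∑ h ∈ range n, (d (h + 1) : ℝ) *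
      (g (u (h + 1) + d (h + 1)) - g (u h + d (h + 1))) with hS
  have key : ∀ n, (0 < d n → S n - (d n : ℝ) * g (u n + d n) ≤ ((d 0 : ℝ) - d n) / 3) ∧
      (d n = 0 → S n - (d n : ℝ) * g (u n + d n) ≤ (d 0 : ℝ) / 3 + 2 / 3) := by
    intro n
    induction n with
    | zero =>
      refine ⟨fun _ => by simp [hS], fun h => by omega⟩
    | succ n ih =>
      have hs : S (n + 1) = S n + (d (n + 1) : ℝ) *
          (g (u (n + 1) + d (n + 1)) - g (u n + d (n + 1))) := by
        simp only [hS, sum_range_succ]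
        ring
      have hdn : d (n + 1) ≤ d n := hd (Nat.le_succ n)
      constructor
      · intro h1
        have := ih.1 (lt_of_lt_of_le h1 hdn)
        have h2 := FNum_b1 (u n) (d (n + 1)) (d n) h1 hdn
        rw [hs]
        linarith
      · intro h1
        rw [hs]
        have e1 : ((d (n + 1) : ℕ) : ℝ) = 0 := by rw [h1]; simp
        rw [e1]
        rcases Nat.eq_zero_or_pos (d n) with h2 | h2
        · have := ih.2 h2
          have e2 : ((d n : ℕ) : ℝ) = 0 := by rw [h2]; simp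
          rw [e2] at this
          linarith
        · have := ih.1 h2
          have h3 := FNum_b0 (u n) (d n)
          linarith
  have hfin : S n ≤ (2 + (d 0 : ℝ)) / 3 := by
    rcases Nat.eq_zero_or_pos (d n) with h2 | h2
    · have := (key n).2 h2
      have e2 : ((d n : ℕ) : ℝ) = 0 := by rw [h2]; simp
      rw [e2] at this
      linarith
    · have := (key n).1 h2
      have h3 := FNum_b0 (u n) (d n)
      linarith
  exact hfin

theorem up_le (u d : ℕ → ℕ) (hd : Antitone d) (n : ℕ) :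
    ∑ h ∈ range n, (u h : ℝ) * (g (u h + d (h + 1)) - g (u h + d h)) ≤ (d 0 : ℝ) / 3 := by
  have key : ∑ h ∈ range n, (u h : ℝ) * (g (u h + d (h + 1)) - g (u h + d h)) ≤
      ((d 0 : ℝ) - d n) / 3 := by
    induction n with
    | zero => simp
    | succ n ih =>
      rw [sum_range_succ]
      have := FNum_a (u n) (d (n + 1)) (d n) (hd (Nat.le_succ n))
      linarith
  have : (0 : ℝ) ≤ d n := Nat.cast_nonneg _
  linarith

end BcrU
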