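import Pool.Agent.Lib.BcrU.FNum
import Pool.Agent.Lib.BcrU.FBasic

/-!
MODULE FOne (220 lines). Removing a set of leaves (Lemma 1).

Let `aP = age P`, `aQ = age Q`. For `p ∈ Q`: `aQ p ≤ aP p ≤ aQ p + 1` (`age_mono`, `age_le_succ`); for
`p ∈ P \ Q`: `aP p = 0` (a node of positive age has a child, `exists_child`, against `hleaf`).
`Us h = {p ∈ Q : aP p = h, aQ p = h}`, `Ds 0 = P \ Q` and `Ds (h+1) = {p ∈ Q : aP p = h+1, aQ p = h}`
(so `Ds h` = nodes of P with `aP p = h` which drop).  `u h = (Us h).card`, `d h = (Ds h).card`.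
(1) `{p ∈ P : aP p = h}` is the disjoint union of `Us h` and `Ds h`: `cnt P h = u h + d h`.
(2) `{p ∈ Q : aQ p = h}` is the disjoint union of `Us h` and `Ds (h+1)`: `cnt Q h = u h + d (h+1)`.
(3) `u (h+1) ≤ u h`: every `p ∈ Us (h+1)` has by `exists_child` (for `Q`) a child `x ∈ Q` with `aQ x = h`; then
    `aP x ≥ h`, and `aP x + 1 ≤ aP p = h + 1`, so `x ∈ Us h`; `par` maps a subset of `Us h` onto `Us (h+1)`
    (`Finset.card_le_card_of_surjOn`).
(4) `d (h+1) ≤ d h`: `p ∈ Ds (h+1)` has by `exists_child` (for `P`) a child `x ∈ P` with `aP x = h`. If `x ∉ Q` then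
    `h = 0` and `x ∈ Ds 0`. If `x ∈ Q`: `aQ x + 1 ≤ aQ p = h`, so `aQ x ≤ h - 1`, `h ≥ 1` and
    `aQ x ≥ aP x - 1 = h - 1`: `x ∈ Ds h`.
(5) `d 0 = (P \ Q).card`. For `h ≥ K`: `Us h`, `Ds h` empty (`age_lt`).
(6) `nu P p = g (u h + d h)` on `Us h ∪ Ds h`; `nu Q p = g (u h + d (h+1))` on `Us h ∪ Ds (h+1)`, `0` on `P \ Q`.
    `g` is antitone. On `Us h`: `nu P - nu Q = g(u_h+d_h) - g(u_h+d_{h+1}) ≤ 0`; on `Ds (h+1)`:
    `nu P - nu Q = g(u_{h+1}+d_{h+1}) - g(u_h + d_{h+1}) ≥ 0`; on `Ds 0`: `nu P - nu Q = g(u_0+d_0) ≥ 0`.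
(7) `P` is the disjoint union of the sets `Us h` (`h < K`) and `Ds h` (`h ≤ K`), so
    `sum max 0 (nu P - nu Q) = d_0 g(u_0+d_0) + sum_{h<K} d_{h+1} (g(u_{h+1}+d_{h+1}) - g(u_h+d_{h+1}))` and
    `sum max 0 (nu Q - nu P) = sum_{h<K} u_h (g(u_h+d_{h+1}) - g(u_h+d_h))`. (`≤` is enough.)
(8) Apply `down_le`, `up_le` (`antitone_nat_of_succ_le`).
-/

namespace BcrU

open Finset

variable {α : Type} [DecidableEq α] {par : α → α} {rk : α → ℕ} {K : ℕ}

private noncomputable def fOneU (par : α → α) (rk : α → ℕ) (P Q : Finset α) (h : ℕ) : Finset α :=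
  Q.filter fun p => age par rk P p = h ∧ age par rk Q p = h

private noncomputable def fOneD (par : α → α) (rk : α → ℕ) (P Q : Finset α) (h : ℕ) : Finset α :=
  P.filter fun p => age par rk P p = h ∧ (p ∈ Q → age par rk Q p + 1 = h)

private theorem fOne_memU {P Q : Finset α} {h : ℕ} {p : α} :
    p ∈ fOneU par rk P Q h ↔ p ∈ Q ∧ age par rk P p = h ∧ age par rk Q p = h := by
  simp [fOneU]

private theorem fOne_memD {P Q : Finset α} {h : ℕ} {p : α} :
    p ∈ fOneD par rk P Q h ↔ p ∈ P ∧ age par rk P p = h ∧ (p ∈ Q → age par rk Q p + 1 = h) := by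
  simp [fOneD]

private theorem fOne_out (hrk : ∀ x, rk (par x) = rk x + 1) {P Q : Finset α} (hP : Up par rk K P)
    (hleaf : ∀ x ∈ P, x ∉ Q → ∀ y ∈ P, par y ≠ x) {p : α} (hp : p ∈ P) (hpQ : p ∉ Q) :
    age par rk P p = 0 := by
  rcases Nat.eq_zero_or_pos (age par rk P p) with h | h
  · exact h
  · obtain ⟨k, hk⟩ := Nat.exists_eq_succ_of_ne_zero h.ne'
    obtain ⟨x, hx, hxp, -⟩ := exists_child hrk hP hp hk
    exact absurd hxp (hleaf p hp hpQ x hx)

private theorem fOne_disj (P Q : Finset α) (h : ℕ) :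
    Disjoint (fOneU par rk P Q h) (fOneD par rk P Q h) := by
  rw [Finset.disjoint_left]
  intro p hp hp'
  rw [fOne_memU] at hp
  rw [fOne_memD] at hp'
  have := hp'.2.2 hp.1
  omega

private theorem fOne_disj' (P Q : Finset α) (h : ℕ) :
    Disjoint (fOneU par rk P Q h) (fOneD par rk P Q (h + 1)) := by
  rw [Finset.disjoint_left]
  intro p hp hp'
  rw [fOne_memU] at hp
  rw [fOne_memD] at hp'
  omega

private theorem fOne_fibP (hrk : ∀ x, rk (par x) = rk x + 1) {P Q : Finset α}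
    (hP : Up par rk K P) (hQ : Up par rk K Q) (hQP : Q ⊆ P)
    (hleaf : ∀ x ∈ P, x ∉ Q → ∀ y ∈ P, par y ≠ x) (h : ℕ) :
    (P.filter fun p => age par rk P p = h) = fOneU par rk P Q h ∪ fOneD par rk P Q h := by
  ext p
  rw [mem_filter, mem_union, fOne_memU, fOne_memD]
  constructor
  · rintro ⟨hp, hh⟩
    by_cases hpQ : p ∈ Q
    · have h1 := age_mono hrk hP hQ hQP hpQ
      have h2 := age_le_succ hrk hP hQ hQP hleaf hpQ
      rcases Nat.lt_or_ge (age par rk Q p) (age par rk P p) with h3 | h3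
      · right
        exact ⟨hp, hh, fun _ => by omega⟩
      · left
        exact ⟨hpQ, hh, by omega⟩
    · right
      exact ⟨hp, hh, fun h => absurd h hpQ⟩
  · rintro (⟨h1, h2, h3⟩ | ⟨h1, h2, h3⟩)
    · exact ⟨hQP h1, h2⟩
    · exact ⟨h1, h2⟩

private theorem fOne_fibQ (hrk : ∀ x, rk (par x) = rk x + 1) {P Q : Finset α}
    (hP : Up par rk K P) (hQ : Up par rk K Q) (hQP : Q ⊆ P)
    (hleaf : ∀ x ∈ P, x ∉ Q → ∀ y ∈ P, par y ≠ x) (h : ℕ) :
    (Q.filter fun p => age par rk Q p = h) = fOneU par rk P Q h ∪ fOneD par rk P Q (h + 1) := by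
  ext p
  rw [mem_filter, mem_union, fOne_memU, fOne_memD]
  constructor
  · rintro ⟨hpQ, hh⟩
    have h1 := age_mono hrk hP hQ hQP hpQ
    have h2 := age_le_succ hrk hP hQ hQP hleaf hpQ
    rcases Nat.lt_or_ge (age par rk Q p) (age par rk P p) with h3 | h3
    · right
      exact ⟨hQP hpQ, by omega, fun _ => by omega⟩
    · left
      exact ⟨hpQ, by omega, by omega⟩
  · rintro (⟨h1, h2, h3⟩ | ⟨h1, h2, h3⟩)
    · exact ⟨h1, h3⟩
    · by_cases hpQ : p ∈ Q
      · exact ⟨hpQ, by have := h3 hpQ; omega⟩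
      · have := fOne_out hrk hP hleaf h1 hpQ
        omega

private theorem fOne_D0 (hrk : ∀ x, rk (par x) = rk x + 1) {P Q : Finset α}
    (hP : Up par rk K P) (hleaf : ∀ x ∈ P, x ∉ Q → ∀ y ∈ P, par y ≠ x) :
    fOneD par rk P Q 0 = P \ Q := by
  ext p
  rw [fOne_memD, mem_sdiff]
  constructor
  · rintro ⟨h1, h2, h3⟩
    exact ⟨h1, fun h => by have := h3 h; omega⟩
  · rintro ⟨h1, h2⟩
    exact ⟨h1, fOne_out hrk hP hleaf h1 h2, fun h => absurd h h2⟩

private theorem fOne_U_anti (hrk : ∀ x, rk (par x) = rk x + 1) {P Q : Finset α}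
    (hP : Up par rk K P) (hQ : Up par rk K Q) (hQP : Q ⊆ P) :
    Antitone fun h => (fOneU par rk P Q h).card := by
  apply antitone_nat_of_succ_le
  intro h
  apply Finset.card_le_card_of_surjOn par
  intro p hp
  rw [mem_coe, fOne_memU] at hp
  obtain ⟨hpQ, h1, h2⟩ := hp
  obtain ⟨x, hx, hxp, hxa⟩ := exists_child hrk hQ hpQ h2
  refine ⟨x, ?_, hxp⟩
  rw [mem_coe, fOne_memU]
  have h3 := age_mono hrk hP hQ hQP hx
  have h4 := age_child_lt hrk hP (hQP hx) (by rw [hxp]; exact hQP hpQ)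
  rw [hxp] at h4
  exact ⟨hx, by omega, hxa⟩

private theorem fOne_D_anti (hrk : ∀ x, rk (par x) = rk x + 1) {P Q : Finset α}
    (hP : Up par rk K P) (hQ : Up par rk K Q) (hQP : Q ⊆ P)
    (hleaf : ∀ x ∈ P, x ∉ Q → ∀ y ∈ P, par y ≠ x) :
    Antitone fun h => (fOneD par rk P Q h).card := by
  apply antitone_nat_of_succ_le
  intro h
  apply Finset.card_le_card_of_surjOn par
  intro p hp
  rw [mem_coe, fOne_memD] at hp
  obtain ⟨hpP, h1, h2⟩ := hp
  obtain ⟨x, hx, hxp, hxa⟩ := exists_child hrk hP hpP h1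
  refine ⟨x, ?_, hxp⟩
  rw [mem_coe, fOne_memD]
  refine ⟨hx, hxa, fun hxQ => ?_⟩
  have hpQ : p ∈ Q := by
    by_contra hpQ
    exact hleaf p hpP hpQ x hx hxp
  have h3 := age_mono hrk hP hQ hQP hxQ
  have h4 := age_child_lt hrk hQ hxQ (by rw [hxp]; exact hpQ)
  have h5 := age_le_succ hrk hP hQ hQP hleaf hxQ
  rw [hxp] at h4
  have h6 := h2 hpQ
  omega

private theorem fOne_g_anti {a b : ℕ} (h : a ≤ b) : g b ≤ g a := by
  unfold g
  have : (a : ℝ) ≤ b := by exact_mod_cast h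
  have ha : (0 : ℝ) ≤ a := Nat.cast_nonneg a
  exact div_le_div_of_nonneg_left (by norm_num) (by linarith) (by linarith)

private theorem fOne_g_nonneg (a : ℕ) : 0 ≤ g a := by
  unfold g
  positivity

theorem step (hrk : ∀ x, rk (par x) = rk x + 1) {P Q : Finset α} (hP : Up par rk K P)
    (hQ : Up par rk K Q) (hQP : Q ⊆ P) (hleaf : ∀ x ∈ P, x ∉ Q → ∀ y ∈ P, par y ≠ x)
    (hne : (P \ Q).Nonempty) :
    (∑ p ∈ P, max 0 (nu par rk P p - nu par rk Q p) ≤ (2 + ((P \ Q).card : ℝ)) / 3) ∧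
    (∑ p ∈ P, max 0 (nu par rk Q p - nu par rk P p) ≤ ((P \ Q).card : ℝ) / 3) := by
  set u : ℕ → ℕ := fun h => (fOneU par rk P Q h).card with hu
  set d : ℕ → ℕ := fun h => (fOneD par rk P Q h).card with hd
  have hua : Antitone u := fOne_U_anti hrk hP hQ hQP
  have hda : Antitone d := fOne_D_anti hrk hP hQ hQP hleaf
  have hd0 : d 0 = (P \ Q).card := by
    simp only [hd]
    rw [fOne_D0 hrk hP hleaf]
  have hd0p : 0 < d 0 := by rw [hd0]; exact Finset.card_pos.mpr hne
  have hcP : ∀ h, cnt par rk P h = u h + d h := by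
    intro h
    unfold cnt
    rw [fOne_fibP hrk hP hQ hQP hleaf h, Finset.card_union_of_disjoint (fOne_disj P Q h)]
  have hcQ : ∀ h, cnt par rk Q h = u h + d (h + 1) := by
    intro h
    unfold cnt
    rw [fOne_fibQ hrk hP hQ hQP hleaf h, Finset.card_union_of_disjoint (fOne_disj' P Q h)]
  have hnuP : ∀ p ∈ P, ∀ h, age par rk P p = h → nu par rk P p = g (u h + d h) := by
    intro p hp h hh
    unfold nu
    rw [if_pos hp, hh, hcP]
  have hnuQ : ∀ p ∈ Q, ∀ h, age par rk Q p = h → nu par rk Q p = g (u h + d (h + 1)) := by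
    intro p hp h hh
    unfold nu
    rw [if_pos hp, hh, hcQ]
  have hsplit : ∀ F : α → ℝ, ∑ p ∈ P, F p =
      ∑ h ∈ range K, (∑ p ∈ fOneU par rk P Q h, F p + ∑ p ∈ fOneD par rk P Q h, F p) := by
    intro F
    rw [← Finset.sum_fiberwise_of_maps_to (s := P) (t := range K) (g := fun p => age par rk P p)
      (fun p hp => mem_range.mpr (age_lt hrk hP hp))]
    apply Finset.sum_congr rfl
    intro h _
    rw [fOne_fibP hrk hP hQ hQP hleaf h, Finset.sum_union (fOne_disj P Q h)]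
  constructor
  · have hU : ∀ h, ∑ p ∈ fOneU par rk P Q h, max 0 (nu par rk P p - nu par rk Q p) = 0 := by
      intro h
      apply Finset.sum_eq_zero
      intro p hp
      rw [fOne_memU] at hp
      rw [hnuP p (hQP hp.1) h hp.2.1, hnuQ p hp.1 h hp.2.2]
      apply max_eq_left
      have := fOne_g_anti (show u h + d (h + 1) ≤ u h + d h from
        Nat.add_le_add_left (hda (Nat.le_succ h)) _)
      linarith
    have hD0 : ∑ p ∈ fOneD par rk P Q 0, max 0 (nu par rk P p - nu par rk Q p) =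
        (d 0 : ℝ) * g (u 0 + d 0) := by
      rw [Finset.sum_congr rfl (g := fun _ => g (u 0 + d 0)), Finset.sum_const, nsmul_eq_mul]
      intro p hp
      rw [fOne_memD] at hp
      have hpQ : p ∉ Q := fun h => by have := hp.2.2 h; omega
      rw [hnuP p hp.1 0 hp.2.1]
      have : nu par rk Q p = 0 := by
        unfold nu
        rw [if_neg hpQ]
      rw [this, sub_zero]
      exact max_eq_right (fOne_g_nonneg _)
    have hDs : ∀ h, ∑ p ∈ fOneD par rk P Q (h + 1), max 0 (nu par rk P p - nu par rk Q p) =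
        (d (h + 1) : ℝ) * (g (u (h + 1) + d (h + 1)) - g (u h + d (h + 1))) := by
      intro h
      rw [Finset.sum_congr rfl (g := fun _ => g (u (h + 1) + d (h + 1)) - g (u h + d (h + 1))),
        Finset.sum_const, nsmul_eq_mul]
      intro p hp
      rw [fOne_memD] at hp
      have hpQ : p ∈ Q := by
        by_contra hpQ
        have := fOne_out hrk hP hleaf hp.1 hpQ
        omega
      have h1 := hp.2.2 hpQ
      rw [hnuP p hp.1 (h + 1) hp.2.1, hnuQ p hpQ h (by omega)]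
      apply max_eq_right
      have := fOne_g_anti (show u (h + 1) + d (h + 1) ≤ u h + d (h + 1) from
        Nat.add_le_add_right (hua (Nat.le_succ h)) _)
      linarith
    rw [hsplit]
    simp only [hU, zero_add]
    have hle : ∑ h ∈ range K, ∑ p ∈ fOneD par rk P Q h, max 0 (nu par rk P p - nu par rk Q p) ≤
        ∑ h ∈ range (K + 1), ∑ p ∈ fOneD par rk P Q h, max 0 (nu par rk P p - nu par rk Q p) := by
      rw [Finset.sum_range_succ]
      have : 0 ≤ ∑ p ∈ fOneD par rk P Q K, max 0 (nu par rk P p - nu par rk Q p) :=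
        Finset.sum_nonneg fun p _ => le_max_left _ _
      linarith
    refine hle.trans ?_
    rw [Finset.sum_range_succ', hD0]
    simp only [hDs]
    have := down_le u d hua hda hd0p K
    rw [← hd0]
    linarith
  · have hU : ∀ h, ∑ p ∈ fOneU par rk P Q h, max 0 (nu par rk Q p - nu par rk P p) =
        (u h : ℝ) * (g (u h + d (h + 1)) - g (u h + d h)) := by
      intro h
      rw [Finset.sum_congr rfl (g := fun _ => g (u h + d (h + 1)) - g (u h + d h)),
        Finset.sum_const, nsmul_eq_mul]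
      intro p hp
      rw [fOne_memU] at hp
      rw [hnuP p (hQP hp.1) h hp.2.1, hnuQ p hp.1 h hp.2.2]
      apply max_eq_right
      have := fOne_g_anti (show u h + d (h + 1) ≤ u h + d h from
        Nat.add_le_add_left (hda (Nat.le_succ h)) _)
      linarith
    have hD : ∀ h, ∑ p ∈ fOneD par rk P Q h, max 0 (nu par rk Q p - nu par rk P p) = 0 := by
      intro h
      apply Finset.sum_eq_zero
      intro p hp
      rw [fOne_memD] at hp
      by_cases hpQ : p ∈ Q
      · have h1 := hp.2.2 hpQ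
        obtain ⟨k, rfl⟩ : ∃ k, h = k + 1 := ⟨age par rk Q p, h1.symm⟩
        rw [hnuP p hp.1 (k + 1) hp.2.1, hnuQ p hpQ k (by omega)]
        apply max_eq_left
        have := fOne_g_anti (show u (k + 1) + d (k + 1) ≤ u k + d (k + 1) from
          Nat.add_le_add_right (hua (Nat.le_succ k)) _)
        linarith
      · rw [hnuP p hp.1 h hp.2.1]
        have : nu par rk Q p = 0 := by
          unfold nu
          rw [if_neg hpQ]
        rw [this]
        apply max_eq_left
        have := fOne_g_nonneg (u h + d h)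
        linarith
    rw [hsplit]
    simp only [hU, hD, add_zero]
    rw [← hd0]
    exact up_le u d hda K

end BcrU
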