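import Pool.Agent.Lib.BcrU.GQuot
import Pool.Agent.Lib.BcrU.GLev

/-!
MODULE GExch (120 lines). Exchange inequality for the single linkage cost.

`lev = levOf D ε`, `lev' = levOf D' ε`, both `Ult K` (`levOf_ult`; `D' ≤ D ≤ K ε`), `lev' ≤ lev` (`levOf_anti`). `kap_exch` at every level
`k < K` gives `(kap lev' k univ - 1) + (kap lev k S - 1) ≤ (kap lev k univ - 1) + bad k`, where `bad k` is the number of
`x ∈ F` with `k < lev' x.1 x.2.1`. Multiply by `ε`, sum over `k < K`: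
`ε ∑_{k<K} bad k = ∑_{x ∈ F} ε #{k < K : k < lev' x} ≤ ∑_{x ∈ F} ε lev' x` and `ε lev' x ≤ f + ε` with `f = x.2.2`:
`lev' x ≤ ⌈f/ε⌉₊` by `levOf_le` (`D' x ≤ f ≤ ⌈f/ε⌉₊ ε`), `⌈f/ε⌉₊ < f/ε + 1` (`Nat.ceil_lt_add_one`, `0 ≤ f`).
(Interchange of the sum over `k` and the list: induction on the list, `List.filter_cons`, `List.length`.)
`mst_le` is the special case `D' = D`, `S = univ`.
-/

namespace BcrU

open Finset

variable {ι : Type} [Fintype ι] [DecidableEq ι]

private theorem gexch_count (L K : ℕ) :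
    (∑ k ∈ range K, (if ¬ L ≤ k then (1 : ℝ) else 0)) ≤ (L : ℝ) := by
  rw [← Finset.sum_filter, Finset.sum_const, nsmul_eq_mul, mul_one]
  have h : ((range K).filter fun k => ¬ L ≤ k) ⊆ range L := by
    intro k hk
    rw [Finset.mem_filter] at hk
    rw [Finset.mem_range]
    omega
  have h1 := Finset.card_le_card h
  rw [Finset.card_range] at h1
  exact_mod_cast h1

private theorem gexch_list {ε : ℝ} (hε : 0 < ε) (K : ℕ) (L : ι × ι × ℝ → ℕ)
    (F : List (ι × ι × ℝ)) (hf : ∀ x ∈ F, ε * (L x : ℝ) ≤ x.2.2 + ε) :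
    ε * ∑ k ∈ range K, ((F.filter fun x => ¬ L x ≤ k).length : ℝ) ≤
      (F.map fun x => x.2.2).sum + ε * F.length := by
  induction F with
  | nil => simp
  | cons x F ih =>
    have ih' := ih (fun y hy => hf y (List.mem_cons_of_mem _ hy))
    have hx := hf x List.mem_cons_self
    have h1 : ∀ k ∈ range K, (((x :: F).filter fun x => ¬ L x ≤ k).length : ℝ) =
        (if ¬ L x ≤ k then (1 : ℝ) else 0) + ((F.filter fun x => ¬ L x ≤ k).length : ℝ) := by
      intro k _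
      by_cases h : L x ≤ k
      · rw [List.filter_cons_of_neg (by simpa using h), if_neg (by simpa using h), zero_add]
      · rw [List.filter_cons_of_pos (by simpa using h), if_pos h, List.length_cons]
        push_cast
        ring
    rw [Finset.sum_congr rfl h1, Finset.sum_add_distrib, mul_add, List.map_cons, List.sum_cons,
      List.length_cons]
    have h2 := mul_le_mul_of_nonneg_left (gexch_count (L x) K) hε.le
    push_cast
    linarith

theorem exch {D D' : ι → ι → ℝ} {ε : ℝ} {K : ℕ} (hε : 0 < ε) (hs : ∀ i j, D i j = D j i)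
    (hs' : ∀ i j, D' i j = D' j i) (hK : ∀ i j, D i j ≤ K * ε) (hle : ∀ i j, D' i j ≤ D i j)
    {S : Finset ι} (hS : S.Nonempty) {F : List (ι × ι × ℝ)} (hF : FConn S F)
    (hf : ∀ x ∈ F, 0 ≤ x.2.2 ∧ D' x.1 x.2.1 ≤ x.2.2) :
    mu (levOf D' ε) K ε univ + mu (levOf D ε) K ε S ≤
      mu (levOf D ε) K ε univ + (F.map fun x => x.2.2).sum + ε * F.length := by
  have hK' : ∀ i j, D' i j ≤ K * ε := fun i j => (hle i j).trans (hK i j)
  have hU := levOf_ult hε hs hK
  have hU' := levOf_ult hε hs' hK'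
  have h1 : ∀ k ∈ range K, ((kap (levOf D' ε) k univ : ℝ) - 1) + ((kap (levOf D ε) k S : ℝ) - 1) ≤
      ((kap (levOf D ε) k univ : ℝ) - 1) +
        ((F.filter fun x => ¬ levOf D' ε x.1 x.2.1 ≤ k).length : ℝ) := by
    intro k _
    have h := kap_exch hU hU' (k := k)
      (fun i j hij => (levOf_anti hε hK hle i j).trans hij) hS hF
    have h' : (kap (levOf D' ε) k univ : ℝ) + (kap (levOf D ε) k S : ℝ) ≤
        (kap (levOf D ε) k univ : ℝ) + 1 +
          ((F.filter fun x => ¬ levOf D' ε x.1 x.2.1 ≤ k).length : ℝ) := by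
      exact_mod_cast h
    linarith
  have h2 := Finset.sum_le_sum h1
  rw [Finset.sum_add_distrib, Finset.sum_add_distrib] at h2
  have h3 : ε * ∑ k ∈ range K, ((F.filter fun x => ¬ levOf D' ε x.1 x.2.1 ≤ k).length : ℝ) ≤
      (F.map fun x => x.2.2).sum + ε * F.length := by
    refine gexch_list hε K (fun x => levOf D' ε x.1 x.2.1) F ?_
    intro x hx
    obtain ⟨hx0, hx1⟩ := hf x hx
    have h4 : D' x.1 x.2.1 ≤ (⌈x.2.2 / ε⌉₊ : ℝ) * ε := by
      refine hx1.trans ?_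
      rw [← div_le_iff₀ hε]
      exact Nat.le_ceil _
    have h5 : ((levOf D' ε x.1 x.2.1 : ℕ) : ℝ) ≤ (⌈x.2.2 / ε⌉₊ : ℝ) := by
      exact_mod_cast levOf_le h4
    have h6 : (⌈x.2.2 / ε⌉₊ : ℝ) < x.2.2 / ε + 1 := Nat.ceil_lt_add_one (div_nonneg hx0 hε.le)
    have h7 : ε * ((levOf D' ε x.1 x.2.1 : ℕ) : ℝ) ≤ ε * (x.2.2 / ε + 1) :=
      mul_le_mul_of_nonneg_left (h5.trans h6.le) hε.le
    have h8 : ε * (x.2.2 / ε + 1) = x.2.2 + ε := by
      field_simp
    rw [h8] at h7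
    exact h7
  have h4 := mul_le_mul_of_nonneg_left h2 hε.le
  rw [mul_add, mul_add] at h4
  unfold mu
  linarith

theorem mst_le [Nonempty ι] {D : ι → ι → ℝ} {ε : ℝ} {K : ℕ} (hε : 0 < ε)
    (hs : ∀ i j, D i j = D j i) (hK : ∀ i j, D i j ≤ K * ε) {F : List (ι × ι × ℝ)}
    (hF : FConn univ F) (hf : ∀ x ∈ F, 0 ≤ x.2.2 ∧ D x.1 x.2.1 ≤ x.2.2) :
    mu (levOf D ε) K ε univ ≤ (F.map fun x => x.2.2).sum + ε * F.length := by
  have h := exch hε hs hs hK (fun i j => le_refl (D i j)) Finset.univ_nonempty hF hf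
  linarith

end BcrU
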