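import Pool.Agent.Lib.BcrU.LUlt
import Pool.Agent.Lib.BcrU.DefsG

/-!
MODULE GQuot (220 lines). Exchange of classes.

For an equivalence relation `E` on `ι` (a `Setoid`, or a relation with `Equivalence`) let `nc E` be the number of classes
(`Nat.card (Quotient E)`, or the card of the image of `univ` under `i ↦ univ.filter (E i)`).

(A) Adding one pair: let `E⁺` be the equivalence generated by `E` and `(a,b)`:
    `E⁺ i j ↔ E i j ∨ (E i a ∧ E b j) ∨ (E i b ∧ E a j)`. Then `nc E ≤ nc E⁺ + 1`: the map (class for `E`) ↦ (class for `E⁺`)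
    is injective on the classes different from the class of `a` (two different classes with the same image are the classes
    of `a` and of `b`).
(B) By induction on a list `B` of pairs: the equivalence `E_B` generated by `E` and the pairs of `B` has
    `nc E ≤ nc E_B + B.length`.
(C) If `E ⊆ E''`, and all elements of `S` are `E''`-equivalent, then `nc E'' + (number of E-classes meeting S) ≤ nc E + 1`:
    the map of classes is surjective and all the classes which meet `S` go to one class.
(D) Take `E' = {lev' ≤ k}`, `B = ` the list of the pairs of `F` with `¬ lev' x.1 x.2.1 ≤ k`, `E'' = E'_B`. The pairs of `F` with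
    `lev' ≤ k` are in `E'`, so by `FConn` all of `S` is in one class of `E''`. `E = {lev ≤ k} ⊆ E' ⊆ E''`. By (C) for `E, E''`
    and (B): `kap lev' k univ - bad + kap lev k S ≤ kap lev k univ + 1`.
    (`kap lev k S` = number of distinct classes `cl lev k i`, `i ∈ S`, and `cl lev k i = cl lev k j ↔ lev i j ≤ k`.)
-/

namespace BcrU

open Finset

variable {ι : Type} [Fintype ι] [DecidableEq ι]

omit [DecidableEq ι] in
private theorem gquot_list {α : Type} [DecidableEq α] (B : List (ι × ι × ℝ)) :
    ∀ f : ι → α, ∃ f' : ι → α, (∀ i j, f i = f j → f' i = f' j) ∧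
      (∀ x ∈ B, f' x.1 = f' x.2.1) ∧
      (univ.image f).card ≤ (univ.image f').card + B.length := by
  induction B with
  | nil => exact fun f => ⟨f, fun _ _ h => h, fun x hx => by simp at hx, by simp⟩
  | cons y B ih =>
    intro f
    obtain ⟨f', h1, h2, h3⟩ := ih (fun i => if f i = f y.2.1 then f y.1 else f i)
    refine ⟨f', fun i j hij => h1 i j (by rw [hij]), ?_, ?_⟩
    · intro x hx
      rcases List.mem_cons.1 hx with rfl | hx
      · refine h1 _ _ ?_
        by_cases h : f x.1 = f x.2.1
        · rw [if_pos h, if_pos rfl]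
        · rw [if_neg h, if_pos rfl]
      · exact h2 x hx
    · have h4 : univ.image f ⊆ insert (f y.2.1)
          (univ.image (fun i => if f i = f y.2.1 then f y.1 else f i)) := by
        intro w hw
        rw [mem_image] at hw
        obtain ⟨i, _, rfl⟩ := hw
        rw [mem_insert]
        by_cases h : f i = f y.2.1
        · exact Or.inl h
        · refine Or.inr (mem_image.2 ⟨i, mem_univ _, ?_⟩)
          rw [if_neg h]
      have h5 := (Finset.card_le_card h4).trans (Finset.card_insert_le _ _)
      rw [List.length_cons]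
      omega

omit [DecidableEq ι] in
private theorem gquot_count {α β : Type} [DecidableEq α] [DecidableEq β] (f : ι → α) (f' : ι → β)
    (h : ∀ i j, f i = f j → f' i = f' j) {S : Finset ι} {s : ι}
    (hc : ∀ i ∈ S, f' i = f' s) :
    (univ.image f').card + (S.image f).card ≤ (univ.image f).card + 1 := by
  classical
  have : Nonempty ι := ⟨s⟩
  have h1 : ((univ.image f').erase (f' s)).card ≤ ((univ.image f) \ (S.image f)).card := by
    refine Finset.card_le_card_of_injOn (fun w => f (Function.invFun f' w)) ?_ ?_
    · intro w hw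
      rw [Finset.mem_coe, mem_erase, mem_image] at hw
      obtain ⟨hw1, i, _, hi⟩ := hw
      have hinv : f' (Function.invFun f' w) = w := Function.invFun_eq ⟨i, hi⟩
      rw [Finset.mem_coe, mem_sdiff]
      refine ⟨mem_image_of_mem _ (mem_univ _), ?_⟩
      intro hm
      rw [mem_image] at hm
      obtain ⟨j, hj, hj2⟩ := hm
      have := h _ _ hj2
      rw [hc j hj, hinv] at this
      exact hw1 this.symm
    · intro w hw w' hw' he
      rw [Finset.mem_coe, mem_erase, mem_image] at hw hw'
      obtain ⟨_, i, _, hi⟩ := hw
      obtain ⟨_, i', _, hi'⟩ := hw'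
      have e1 : f' (Function.invFun f' w) = w := Function.invFun_eq ⟨i, hi⟩
      have e2 : f' (Function.invFun f' w') = w' := Function.invFun_eq ⟨i', hi'⟩
      rw [← e1, ← e2]
      exact h _ _ he
  have h2 : ((univ.image f) \ (S.image f)).card + (S.image f).card = (univ.image f).card :=
    Finset.card_sdiff_add_card_eq_card (Finset.image_subset_image (Finset.subset_univ S))
  have h3 : ((univ.image f').erase (f' s)).card + 1 = (univ.image f').card :=
    Finset.card_erase_add_one (mem_image_of_mem _ (mem_univ _))
  omega

theorem kap_exch {K K' : ℕ} {lev lev' : ι → ι → ℕ} (hU : Ult K lev) (hU' : Ult K' lev') {k : ℕ}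
    (hle : ∀ i j, lev i j ≤ k → lev' i j ≤ k) {S : Finset ι} (hS : S.Nonempty)
    {F : List (ι × ι × ℝ)} (hF : FConn S F) :
    kap lev' k univ + kap lev k S ≤
      kap lev k univ + 1 + (F.filter fun x => ¬ lev' x.1 x.2.1 ≤ k).length := by
  classical
  obtain ⟨f', h1, h2, h3⟩ := gquot_list (F.filter fun x => ¬ lev' x.1 x.2.1 ≤ k) (cl lev' k)
  have hF' : ∀ x ∈ F, f' x.1 = f' x.2.1 := by
    intro x hx
    by_cases h : lev' x.1 x.2.1 ≤ k
    · exact h1 _ _ ((cl_eq_iff hU').2 h)
    · exact h2 x (List.mem_filter.2 ⟨hx, by simpa using h⟩)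
  obtain ⟨s, hs⟩ := hS
  have hc : ∀ i ∈ S, f' i = f' s := by
    intro i hi
    have hr := hF i hi s hs
    clear hs
    induction hr with
    | refl => rfl
    | tail _ hbc ih =>
      obtain ⟨x, hx, hx2⟩ := hbc
      rw [ih]
      rcases hx2 with ⟨rfl, rfl⟩ | ⟨rfl, rfl⟩
      · exact hF' x hx
      · exact (hF' x hx).symm
  have h4 := gquot_count (cl lev k) f'
    (fun i j hij => h1 i j ((cl_eq_iff hU').2 (hle i j ((cl_eq_iff hU).1 hij)))) hc
  have e1 : kap lev' k univ = (univ.image (cl lev' k)).card := rfl
  have e2 : kap lev k univ = (univ.image (cl lev k)).card := rfl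
  have e3 : kap lev k S = (S.image (cl lev k)).card := rfl
  rw [e1, e2, e3]
  omega

end BcrU
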