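import Pool.Agent.Lib.BcrU.GDst

/-!
MODULE GReal (200 lines). Every structure can be realised by a purchase of its loss.

Induction on `Str` (write `t' i = ⟨t i, ht i⟩`). The statement for `(S, w, a)`: there are `X` (purchased edges), `F` (list of weighted
pairs of terminals), numbers `l, b` (loss and cost) and `τ ∈ S` with
 (i) `ec c X ≤ l`, (ii) `dst G (cY c X) w (t τ) = 0`, (iii) `F` connects `S`, (iv) every `x ∈ F`: `0 ≤ x.2.2` and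
 `dst G (cY c X) (t x.1) (t x.2.1) ≤ x.2.2`, (v) sum of the weights of `F` is `b - l`, (vi) `a = b + s l`, (vii) `F.length + 1 = S.card`.
* base: `X = ∅`, `F = []`, `l = b = 0`, `τ = i` (`dst_self`; `FConn` on a singleton is `refl`).
* pair: `X = X₁ ∪ X₂`, `F = (τ₁, τ₂, d w₁ w₂) :: (F₁ ++ F₂)`, `l = l₁ + l₂`, `b = b₁ + b₂ + d w₁ w₂`, `τ = τ₁`. By `dst_mono`, `cY_anti` all old
  inequalities survive, `dst_X (t τ₁) (t τ₂) ≤ 0 + dst_X w₁ w₂ + 0 ≤ d w₁ w₂` (`dst_tri`, `dst_symm`, `cY_le`; all points are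
  reachable from `r`). `ec (X₁ ∪ X₂) ≤ ec X₁ + ec X₂` (`Finset.sum_union_le`-like, `c ≥ 0`).
* hub, case `d v w₁ ≤ d v w₂`: take an optimal walk `p` from `v` to `w₁` for `c` (`exists_walk`), `X = X₁ ∪ X₂ ∪ p.edges.toFinset`,
  `l = l₁ + l₂ + d v w₁`, `b = b₁ + b₂ + d v w₁ + d v w₂`, `τ = τ₁`, `F = (τ₁, τ₂, d v w₂) :: (F₁ ++ F₂)`. `dst_X v w₁ = 0` (`wc_cY_zero`),
  `dst_X (t τ₁) (t τ₂) ≤ 0 + 0 + d v w₂ + 0`. The other case is symmetric (`τ = τ₂`).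
* `FConn` of a union: connect within `S₁`, within `S₂`, and `τ₁ - τ₂` by the new pair (relation is symmetric;
  `Relation.ReflTransGen.mono`).
-/

namespace BcrU

open Finset Bcr3

variable {V : Type} [Fintype V] [DecidableEq V] {G : SimpleGraph V} {c : Sym2 V → ℝ}

omit [Fintype V] [DecidableEq V] in
private theorem gReal_conn {ι : Type} [DecidableEq ι] {S₁ S₂ : Finset ι}
    {F₁ F₂ : List (ι × ι × ℝ)} {i₁ i₂ : ι} (x : ℝ) (h₁ : FConn S₁ F₁) (h₂ : FConn S₂ F₂)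
    (hi₁ : i₁ ∈ S₁) (hi₂ : i₂ ∈ S₂) : FConn (S₁ ∪ S₂) ((i₁, i₂, x) :: (F₁ ++ F₂)) := by
  have m₁ : ∀ i ∈ S₁, ∀ j ∈ S₁, Relation.ReflTransGen (fun a b =>
      ∃ y ∈ ((i₁, i₂, x) :: (F₁ ++ F₂) : List (ι × ι × ℝ)),
        (y.1 = a ∧ y.2.1 = b) ∨ (y.1 = b ∧ y.2.1 = a)) i j := by
    intro i hi j hj
    refine Relation.ReflTransGen.mono ?_ i j (h₁ i hi j hj)
    rintro a b ⟨y, hy, hab⟩
    exact ⟨y, by simp [hy], hab⟩
  have m₂ : ∀ i ∈ S₂, ∀ j ∈ S₂, Relation.ReflTransGen (fun a b =>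
      ∃ y ∈ ((i₁, i₂, x) :: (F₁ ++ F₂) : List (ι × ι × ℝ)),
        (y.1 = a ∧ y.2.1 = b) ∨ (y.1 = b ∧ y.2.1 = a)) i j := by
    intro i hi j hj
    refine Relation.ReflTransGen.mono ?_ i j (h₂ i hi j hj)
    rintro a b ⟨y, hy, hab⟩
    exact ⟨y, by simp [hy], hab⟩
  have e₁ : Relation.ReflTransGen (fun a b =>
      ∃ y ∈ ((i₁, i₂, x) :: (F₁ ++ F₂) : List (ι × ι × ℝ)),
        (y.1 = a ∧ y.2.1 = b) ∨ (y.1 = b ∧ y.2.1 = a)) i₁ i₂ :=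
    Relation.ReflTransGen.single ⟨(i₁, i₂, x), by simp, Or.inl ⟨rfl, rfl⟩⟩
  have e₂ : Relation.ReflTransGen (fun a b =>
      ∃ y ∈ ((i₁, i₂, x) :: (F₁ ++ F₂) : List (ι × ι × ℝ)),
        (y.1 = a ∧ y.2.1 = b) ∨ (y.1 = b ∧ y.2.1 = a)) i₂ i₁ :=
    Relation.ReflTransGen.single ⟨(i₁, i₂, x), by simp, Or.inr ⟨rfl, rfl⟩⟩
  intro i hi j hj
  rcases Finset.mem_union.1 hi with hi | hi <;> rcases Finset.mem_union.1 hj with hj | hj
  · exact m₁ i hi j hj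
  · exact ((m₁ i hi i₁ hi₁).trans e₁).trans (m₂ i₂ hi₂ j hj)
  · exact ((m₂ i hi i₂ hi₂).trans e₂).trans (m₁ i₁ hi₁ j hj)
  · exact m₂ i hi j hj

private theorem gReal_mono (hc : ∀ e, 0 ≤ c e) {X X' : Finset (Sym2 V)} (h : X ⊆ X') {u v : V}
    (hr : G.Reachable u v) : dst G (cY c X') u v ≤ dst G (cY c X) u v :=
  dst_mono (cY_nonneg hc X') (cY_nonneg hc X) (cY_anti hc h) hr

private theorem gReal_le (hc : ∀ e, 0 ≤ c e) (X : Finset (Sym2 V)) {u v : V}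
    (hr : G.Reachable u v) : dst G (cY c X) u v ≤ dst G c u v :=
  dst_mono (cY_nonneg hc X) hc (cY_le hc X) hr

private theorem gReal_zero (hc : ∀ e, 0 ≤ c e) {X X' : Finset (Sym2 V)} (h : X ⊆ X') {u v : V}
    (hr : G.Reachable u v) (h0 : dst G (cY c X) u v = 0) : dst G (cY c X') u v = 0 :=
  le_antisymm ((gReal_mono hc h hr).trans h0.le) (dst_nonneg (cY_nonneg hc X') u v)

omit [Fintype V] in
private theorem gReal_ec (hc : ∀ e, 0 ≤ c e) (X X' : Finset (Sym2 V)) :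
    ec c (X ∪ X') ≤ ec c X + ec c X' := by
  unfold ec
  have h := Finset.sum_union_inter (s₁ := X) (s₂ := X') (f := c)
  have h0 : 0 ≤ ∑ e ∈ X ∩ X', c e := Finset.sum_nonneg fun e _ => hc e
  linarith

/-- the common step: the two parts are joined by one new pair -/
private theorem gReal_step (hc : ∀ e, 0 ≤ c e) {ι : Type} {t : ι → V} {r : V}
    (ht : ∀ i, G.Reachable r (t i)) {X₁ X₂ X : Finset (Sym2 V)}
    {F₁ F₂ : List (ι × ι × ℝ)} {i₁ i₂ : ι} {y : ℝ} (hX₁ : X₁ ⊆ X) (hX₂ : X₂ ⊆ X)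
    (h₁ : ∀ x ∈ F₁, 0 ≤ x.2.2 ∧ dst G (cY c X₁) (t x.1) (t x.2.1) ≤ x.2.2)
    (h₂ : ∀ x ∈ F₂, 0 ≤ x.2.2 ∧ dst G (cY c X₂) (t x.1) (t x.2.1) ≤ x.2.2)
    (hy : 0 ≤ y) (hd : dst G (cY c X) (t i₁) (t i₂) ≤ y) :
    ∀ x ∈ ((i₁, i₂, y) :: (F₁ ++ F₂) : List (ι × ι × ℝ)),
      0 ≤ x.2.2 ∧ dst G (cY c X) (t x.1) (t x.2.1) ≤ x.2.2 := by
  have hr : ∀ i j, G.Reachable (t i) (t j) := fun i j => (ht i).symm.trans (ht j)
  intro x hx
  rcases List.mem_cons.1 hx with hx | hx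
  · subst hx
    exact ⟨hy, hd⟩
  · rcases List.mem_append.1 hx with hx | hx
    · exact ⟨(h₁ x hx).1, (gReal_mono hc hX₁ (hr _ _)).trans (h₁ x hx).2⟩
    · exact ⟨(h₂ x hx).1, (gReal_mono hc hX₂ (hr _ _)).trans (h₂ x hx).2⟩

theorem real_str (hc : ∀ e, 0 ≤ c e) {ι : Type} [DecidableEq ι] {t : ι → V} {r : V}
    (ht : ∀ i, G.Reachable r (t i)) {s : ℝ} {S : Finset ι} {w : Wr G r} {a : ℝ}
    (h : Str (fun i => (⟨t i, ht i⟩ : Wr G r)) (dW G c r) s S w a) :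
    ∃ (X : Finset (Sym2 V)) (F : List (ι × ι × ℝ)) (l b : ℝ) (τ : ι), τ ∈ S ∧ ec c X ≤ l ∧
      dst G (cY c X) w.1 (t τ) = 0 ∧ FConn S F ∧
      (∀ x ∈ F, 0 ≤ x.2.2 ∧ dst G (cY c X) (t x.1) (t x.2.1) ≤ x.2.2) ∧
      (F.map fun x => x.2.2).sum = b - l ∧ a = b + s * l ∧ F.length + 1 = S.card := by
  have hr : ∀ i j, G.Reachable (t i) (t j) := fun i j => (ht i).symm.trans (ht j)
  have hw : ∀ (u v : Wr G r), G.Reachable u.1 v.1 := fun u v => u.2.symm.trans v.2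
  have hwt : ∀ (u : Wr G r) i, G.Reachable u.1 (t i) := fun u i => u.2.symm.trans (ht i)
  induction h with
  | base i =>
    refine ⟨∅, [], 0, 0, i, by simp, by simp [ec], ?_, ?_, by simp, by simp, by simp, by simp⟩
    · exact dst_self (cY_nonneg hc ∅) (t i)
    · intro i' hi' j' hj'
      rw [Finset.mem_singleton] at hi' hj'
      subst hi'
      subst hj'
      exact Relation.ReflTransGen.refl
  | @hub S₁ S₂ w₁ w₂ a₁ a₂ v _ _ hd ih₁ ih₂ =>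
    obtain ⟨X₁, F₁, l₁, b₁, i₁, hi₁, hl₁, hz₁, hF₁, hx₁, hs₁, ha₁, hn₁⟩ := ih₁
    obtain ⟨X₂, F₂, l₂, b₂, i₂, hi₂, hl₂, hz₂, hF₂, hx₂, hs₂, ha₂, hn₂⟩ := ih₂
    have d₁ : 0 ≤ dst G c v.1 w₁.1 := dst_nonneg hc _ _
    have d₂ : 0 ≤ dst G c v.1 w₂.1 := dst_nonneg hc _ _
    rcases le_total (dst G c v.1 w₁.1) (dst G c v.1 w₂.1) with hle | hle
    · obtain ⟨p, hp⟩ := exists_walk hc (hw v w₁)
      have hX₁ : X₁ ⊆ X₁ ∪ X₂ ∪ p.edges.toFinset := fun e he => by simp [he]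
      have hX₂ : X₂ ⊆ X₁ ∪ X₂ ∪ p.edges.toFinset := fun e he => by simp [he]
      have hec : ec c (X₁ ∪ X₂ ∪ p.edges.toFinset) ≤ l₁ + l₂ + dst G c v.1 w₁.1 := by
        have e1 := extra hc (X₁ ∪ X₂) p
        have e2 := gReal_ec hc X₁ X₂
        have e3 : wc (cY c (X₁ ∪ X₂)) p ≤ wc c p :=
          List.sum_le_sum (fun e _ => cY_le hc _ e)
        linarith
      have hv₁ : dst G (cY c (X₁ ∪ X₂ ∪ p.edges.toFinset)) v.1 w₁.1 = 0 := by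
        refine le_antisymm ?_ (dst_nonneg (cY_nonneg hc _) _ _)
        refine (dst_le (cY_nonneg hc _) p).trans (le_of_eq (wc_cY_zero p fun e he => ?_))
        simp [he]
      have hq₁ := gReal_zero hc hX₁ (hwt w₁ i₁) hz₁
      have hq₂ := gReal_zero hc hX₂ (hwt w₂ i₂) hz₂
      have hn := cY_nonneg hc (X₁ ∪ X₂ ∪ p.edges.toFinset)
      have hvi : dst G (cY c (X₁ ∪ X₂ ∪ p.edges.toFinset)) v.1 (t i₁) = 0 := by
        refine le_antisymm ?_ (dst_nonneg hn _ _)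
        have := dst_tri hn (hw v w₁) (hwt w₁ i₁)
        linarith
      have hii : dst G (cY c (X₁ ∪ X₂ ∪ p.edges.toFinset)) (t i₁) (t i₂)
          ≤ dst G c v.1 w₂.1 := by
        have t1 := dst_tri hn (hwt v i₁).symm (hwt v i₂)
        have t2 := dst_tri hn (hw v w₂) (hwt w₂ i₂)
        have t3 := gReal_le hc (X₁ ∪ X₂ ∪ p.edges.toFinset) (hw v w₂)
        have t4 : dst G (cY c (X₁ ∪ X₂ ∪ p.edges.toFinset)) (t i₁) v.1 = 0 := by
          rw [dst_symm]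
          exact hvi
        linarith
      refine ⟨X₁ ∪ X₂ ∪ p.edges.toFinset, (i₁, i₂, dst G c v.1 w₂.1) :: (F₁ ++ F₂),
        l₁ + l₂ + dst G c v.1 w₁.1, b₁ + b₂ + dst G c v.1 w₁.1 + dst G c v.1 w₂.1, i₁,
        Finset.mem_union_left _ hi₁, hec, hvi, gReal_conn _ hF₁ hF₂ hi₁ hi₂,
        gReal_step hc ht hX₁ hX₂ hx₁ hx₂ d₂ hii, ?_, ?_, ?_⟩
      · rw [List.map_cons, List.map_append, List.sum_cons, List.sum_append, hs₁, hs₂]
        ring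
      · have hm : min (dW G c r v w₁) (dW G c r v w₂) = dst G c v.1 w₁.1 := min_eq_left hle
        rw [hm, ha₁, ha₂]
        simp only [dW]
        ring
      · rw [List.length_cons, List.length_append, Finset.card_union_of_disjoint hd]
        omega
    · obtain ⟨p, hp⟩ := exists_walk hc (hw v w₂)
      have hX₁ : X₁ ⊆ X₁ ∪ X₂ ∪ p.edges.toFinset := fun e he => by simp [he]
      have hX₂ : X₂ ⊆ X₁ ∪ X₂ ∪ p.edges.toFinset := fun e he => by simp [he]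
      have hec : ec c (X₁ ∪ X₂ ∪ p.edges.toFinset) ≤ l₁ + l₂ + dst G c v.1 w₂.1 := by
        have e1 := extra hc (X₁ ∪ X₂) p
        have e2 := gReal_ec hc X₁ X₂
        have e3 : wc (cY c (X₁ ∪ X₂)) p ≤ wc c p :=
          List.sum_le_sum (fun e _ => cY_le hc _ e)
        linarith
      have hv₂ : dst G (cY c (X₁ ∪ X₂ ∪ p.edges.toFinset)) v.1 w₂.1 = 0 := by
        refine le_antisymm ?_ (dst_nonneg (cY_nonneg hc _) _ _)
        refine (dst_le (cY_nonneg hc _) p).trans (le_of_eq (wc_cY_zero p fun e he => ?_))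
        simp [he]
      have hq₁ := gReal_zero hc hX₁ (hwt w₁ i₁) hz₁
      have hq₂ := gReal_zero hc hX₂ (hwt w₂ i₂) hz₂
      have hn := cY_nonneg hc (X₁ ∪ X₂ ∪ p.edges.toFinset)
      have hvi : dst G (cY c (X₁ ∪ X₂ ∪ p.edges.toFinset)) v.1 (t i₂) = 0 := by
        refine le_antisymm ?_ (dst_nonneg hn _ _)
        have := dst_tri hn (hw v w₂) (hwt w₂ i₂)
        linarith
      have hii : dst G (cY c (X₁ ∪ X₂ ∪ p.edges.toFinset)) (t i₁) (t i₂)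
          ≤ dst G c v.1 w₁.1 := by
        have t1 := dst_tri hn (hwt v i₁).symm (hwt v i₂)
        have t2 := dst_tri hn (hw v w₁) (hwt w₁ i₁)
        have t3 := gReal_le hc (X₁ ∪ X₂ ∪ p.edges.toFinset) (hw v w₁)
        have t4 : dst G (cY c (X₁ ∪ X₂ ∪ p.edges.toFinset)) (t i₁) v.1 =
            dst G (cY c (X₁ ∪ X₂ ∪ p.edges.toFinset)) v.1 (t i₁) := dst_symm _ _
        linarith
      refine ⟨X₁ ∪ X₂ ∪ p.edges.toFinset, (i₁, i₂, dst G c v.1 w₁.1) :: (F₁ ++ F₂),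
        l₁ + l₂ + dst G c v.1 w₂.1, b₁ + b₂ + dst G c v.1 w₁.1 + dst G c v.1 w₂.1, i₂,
        Finset.mem_union_right _ hi₂, hec, hvi, gReal_conn _ hF₁ hF₂ hi₁ hi₂,
        gReal_step hc ht hX₁ hX₂ hx₁ hx₂ d₁ hii, ?_, ?_, ?_⟩
      · rw [List.map_cons, List.map_append, List.sum_cons, List.sum_append, hs₁, hs₂]
        ring
      · have hm : min (dW G c r v w₁) (dW G c r v w₂) = dst G c v.1 w₂.1 := min_eq_right hle
        rw [hm, ha₁, ha₂]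
        simp only [dW]
        ring
      · rw [List.length_cons, List.length_append, Finset.card_union_of_disjoint hd]
        omega
  | @pair S₁ S₂ w₁ w₂ a₁ a₂ _ _ hd ih₁ ih₂ =>
    obtain ⟨X₁, F₁, l₁, b₁, i₁, hi₁, hl₁, hz₁, hF₁, hx₁, hs₁, ha₁, hn₁⟩ := ih₁
    obtain ⟨X₂, F₂, l₂, b₂, i₂, hi₂, hl₂, hz₂, hF₂, hx₂, hs₂, ha₂, hn₂⟩ := ih₂
    have d₁ : 0 ≤ dst G c w₁.1 w₂.1 := dst_nonneg hc _ _
    have hX₁ : X₁ ⊆ X₁ ∪ X₂ := Finset.subset_union_left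
    have hX₂ : X₂ ⊆ X₁ ∪ X₂ := Finset.subset_union_right
    have hq₁ := gReal_zero hc hX₁ (hwt w₁ i₁) hz₁
    have hq₂ := gReal_zero hc hX₂ (hwt w₂ i₂) hz₂
    have hn := cY_nonneg hc (X₁ ∪ X₂)
    have hii : dst G (cY c (X₁ ∪ X₂)) (t i₁) (t i₂) ≤ dst G c w₁.1 w₂.1 := by
      have t1 := dst_tri hn (hwt w₁ i₁).symm (hwt w₁ i₂)
      have t2 := dst_tri hn (hw w₁ w₂) (hwt w₂ i₂)
      have t3 := gReal_le hc (X₁ ∪ X₂) (hw w₁ w₂)
      have t4 : dst G (cY c (X₁ ∪ X₂)) (t i₁) w₁.1 = dst G (cY c (X₁ ∪ X₂)) w₁.1 (t i₁) :=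
        dst_symm _ _
      linarith
    refine ⟨X₁ ∪ X₂, (i₁, i₂, dst G c w₁.1 w₂.1) :: (F₁ ++ F₂), l₁ + l₂,
      b₁ + b₂ + dst G c w₁.1 w₂.1, i₁, Finset.mem_union_left _ hi₁, ?_, hq₁,
      gReal_conn _ hF₁ hF₂ hi₁ hi₂, gReal_step hc ht hX₁ hX₂ hx₁ hx₂ d₁ hii, ?_, ?_, ?_⟩
    · have := gReal_ec hc X₁ X₂
      linarith
    · rw [List.map_cons, List.map_append, List.sum_cons, List.sum_append, hs₁, hs₂]
      ring
    · rw [ha₁, ha₂]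
      simp only [dW]
      ring
    · rw [List.length_cons, List.length_append, Finset.card_union_of_disjoint hd]
      omega

end BcrU
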