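import Pool.Agent.Lib.BcrU.LJ

/-!
MODULE LCount (120 lines). The counting lemma (Lemma 4).

`X n = ∑ B ∈ cls lev n, J θ m (e B) (ε * n)`, `Y n = ∑ B ∈ cls lev n, J θ m (e B) (ε * (n + 1))`.
(1) For every `x` and `k`: `#{j < m : θ j (ε k) ≤ x, x < θ j (ε (k+1))} + J θ m x (ε k) = J θ m x (ε (k+1))`
    (`{x < θ j (ε k)} ⊆ {x < θ j (ε (k+1))}` since `θ j > 0`; filter cards).
    So the inner double sum of level `k` plus `X k` is `Y k`.
(2) `Y k ≤ X (k+1)`: every class `B` of level `k` is contained in exactly one class `C` of level `k+1`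
    (`B = cl k i ⊆ cl (k+1) i`); `∑ B = ∑ C ∈ cls (k+1), ∑ B ∈ (cls k).filter (· ⊆ C)`
    (`Finset.sum_fiberwise`-like; or `Finset.sum_biUnion`, the sets are disjoint as classes are nonempty), and
    `J_biUnion` with `cls_succ_union`; the cast `(k + 1 : ℕ)` to `ℝ` is `(k : ℝ) + 1`.
(3) Induction on `n ≤ K`: `∑ k ∈ range n, (inner sum) ≤ X n`: for `n = 0` the sum is empty;
    `∑_{k<n+1} = ∑_{k<n} + (Y n - X n) ≤ Y n ≤ X (n+1)`.
(4) `X K = J θ m (e univ) (ε K) ≤ m` by `cls_top`, `J_le`.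
-/

namespace BcrU

open Finset

variable {ι : Type} [Fintype ι] [DecidableEq ι] {lev : ι → ι → ℕ} {K : ℕ}

private theorem lc_one {ε x : ℝ} {m : ℕ} {θ : ℕ → ℝ} (hε : 0 < ε) (hθ : ∀ j < m, 0 < θ j) (k : ℕ) :
    ((range m).filter fun j => θ j * (ε * (k : ℝ)) ≤ x ∧ x < θ j * (ε * ((k : ℝ) + 1))).card +
      J θ m x (ε * (k : ℝ)) = J θ m x (ε * ((k : ℝ) + 1)) := by
  unfold J
  have h1 : (range m).filter (fun j => x < θ j * (ε * (k : ℝ))) =
      ((range m).filter fun j => x < θ j * (ε * ((k : ℝ) + 1))).filter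
        (fun j => x < θ j * (ε * (k : ℝ))) := by
    ext j
    simp only [mem_filter, mem_range]
    constructor
    · rintro ⟨hj, hx⟩
      refine ⟨⟨hj, hx.trans ?_⟩, hx⟩
      have := hθ j hj
      have h2 : ε * (k : ℝ) < ε * ((k : ℝ) + 1) := by nlinarith
      exact mul_lt_mul_of_pos_left h2 this
    · rintro ⟨⟨hj, _⟩, hx⟩
      exact ⟨hj, hx⟩
  have h2 : (range m).filter (fun j => θ j * (ε * (k : ℝ)) ≤ x ∧ x < θ j * (ε * ((k : ℝ) + 1))) =
      ((range m).filter fun j => x < θ j * (ε * ((k : ℝ) + 1))).filter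
        (fun j => ¬ x < θ j * (ε * (k : ℝ))) := by
    ext j
    simp only [mem_filter, mem_range, not_lt]
    tauto
  rw [h1, h2, add_comm]
  exact Finset.card_filter_add_card_filter_not _

private theorem lc_two {ε s : ℝ} {m q : ℕ} {θ : ℕ → ℝ} {e : Finset ι → ℝ}
    (hU : Ult K lev) (hε : 0 < ε) (hs : 0 ≤ s) (hD : Des s m q θ) (he : Adm lev ε s e) (k : ℕ) :
    ∑ B ∈ cls lev k, J θ m (e B) (ε * ((k : ℝ) + 1)) ≤
      ∑ C ∈ cls lev (k + 1), J θ m (e C) (ε * ((k : ℝ) + 1)) := by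
  have h1 : ∀ C ∈ cls lev (k + 1), ∑ B ∈ (cls lev k).filter (fun B => B ⊆ C),
      J θ m (e B) (ε * ((k : ℝ) + 1)) ≤ J θ m (e C) (ε * ((k : ℝ) + 1)) := by
    intro C hC
    have hu := cls_succ_union hU hC
    have hne : ((cls lev k).filter (fun B => B ⊆ C)).Nonempty := by
      rw [nonempty_iff_ne_empty]
      intro h0
      rw [h0, biUnion_empty] at hu
      have := cls_nonempty hU hC
      rw [← hu] at this
      exact absurd this (by simp)
    have h2 := J_biUnion hU hε hs hD he k (filter_subset (fun B => B ⊆ C) (cls lev k)) hne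
      (by
        rw [hu]
        intro i hi j hj
        exact cls_lev_le hU hC hi hj)
    rw [hu] at h2
    exact h2
  refine le_trans ?_ (Finset.sum_le_sum h1)
  simp only [sum_filter]
  rw [sum_comm]
  refine Finset.sum_le_sum fun B hB => ?_
  obtain ⟨i, hi⟩ := cls_nonempty hU hB
  have hBi := cls_eq_cl hU hB hi
  have hC : cl lev (k + 1) i ∈ cls lev (k + 1) := mem_image_of_mem _ (mem_univ i)
  have hsub : B ⊆ cl lev (k + 1) i := by
    rw [hBi]
    exact cl_mono (Nat.le_succ k) i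
  have h3 := Finset.single_le_sum (f := fun C : Finset ι =>
    if B ⊆ C then J θ m (e B) (ε * ((k : ℝ) + 1)) else 0) (fun C _ => Nat.zero_le _) hC
  simp only [if_pos hsub] at h3
  exact h3

theorem count_le [Nonempty ι] {ε s : ℝ} {m q : ℕ} {θ : ℕ → ℝ} {e : Finset ι → ℝ}
    (hU : Ult K lev) (hε : 0 < ε) (hs : 0 ≤ s) (hD : Des s m q θ) (he : Adm lev ε s e) :
    ∑ k ∈ range K, ∑ B ∈ cls lev k,
      ((range m).filter fun j => θ j * (ε * (k : ℝ)) ≤ e B ∧
        e B < θ j * (ε * ((k : ℝ) + 1))).card ≤ m := by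
  have h3 : ∀ n : ℕ, ∑ k ∈ range n, ∑ B ∈ cls lev k,
      ((range m).filter fun j => θ j * (ε * (k : ℝ)) ≤ e B ∧
        e B < θ j * (ε * ((k : ℝ) + 1))).card ≤ ∑ B ∈ cls lev n, J θ m (e B) (ε * (n : ℝ)) := by
    intro n
    induction n with
    | zero => simp
    | succ n ih =>
      rw [sum_range_succ]
      have h4 : ∑ B ∈ cls lev n, ((range m).filter fun j => θ j * (ε * (n : ℝ)) ≤ e B ∧
          e B < θ j * (ε * ((n : ℝ) + 1))).card + ∑ B ∈ cls lev n, J θ m (e B) (ε * (n : ℝ)) =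
          ∑ B ∈ cls lev n, J θ m (e B) (ε * ((n : ℝ) + 1)) := by
        rw [← sum_add_distrib]
        exact sum_congr rfl fun B _ => lc_one hε hD.pos n
      have h5 := lc_two hU hε hs hD he n
      have h6 : ((n + 1 : ℕ) : ℝ) = (n : ℝ) + 1 := by push_cast; ring
      rw [h6]
      omega
  have h7 := h3 K
  rw [cls_top hU, sum_singleton] at h7
  exact h7.trans (J_le _ _ _ _)

end BcrU
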