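import Pool.Agent.Lib.BcrU.LUlt

/-!
MODULE LJ (150 lines). Superadditivity of the number of passed thresholds.

`J θ m x τ = #{j < m : x < θ j * τ}`. For `τ ≥ 0` and `θ` antitone on `j < m` the set is an initial segment of `range m`:
`J_lt`: if `τ ≥ 0` and `j < J θ m x τ` then `j < m` and `x < θ j * τ` (otherwise the set is contained in `range j`:
for `i ≥ j`, `i < m`: `θ i * τ ≤ θ j * τ ≤ x`), and conversely `J_ge`: if `j < m`, `x < θ j * τ` then `j + 1 ≤ J`.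
`J_mono`: `x ≤ y` implies `J y ≤ J x`.

`J_superadd`. `τ = ε (k+1) > 0`. WLOG `e B ≤ e C` (`union_comm`, the hypotheses are symmetric: `lev` need not be symmetric in the
statement, so the cross hypothesis is given both ways). Let `a = J (e B) ≥ b = J (e C)`. If `b = 0`: `mono` gives `e (B ∪ C) ≤ e B`. If `b = j + 1`,
`a = i + 1`, `j ≤ i`: `e B < θ i τ`, `e C < θ j τ`, so `e (B ∪ C) ≤ (1+s) e B + e C - τ < τ ((1+s) θ i + θ j - 1)`.
If `i + j + 1 < m`: `≤ τ θ (i+j+1)` by `A`, so `i + j + 2 ≤ J (e (B ∪ C))`. If `m ≤ i + j + 1`: `B` gives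
`e B + e C < τ (θ i + θ j) ≤ τ`, against `pair`.

`J_biUnion`: induction on the set `T` of classes (`Finset.induction_on` or `Finset.Nonempty.cons_induction`), using
`J_superadd` for the class `B` and the union of the others; cross levels are `> k` by `cls_cross`.
-/

namespace BcrU

open Finset

variable {ι : Type} [Fintype ι] [DecidableEq ι] {lev : ι → ι → ℕ} {K : ℕ}

private theorem lj_sub {θ : ℕ → ℝ} {m : ℕ} {x y τ : ℝ} (h : x ≤ y) :
    ((range m).filter fun j => y < θ j * τ) ⊆ (range m).filter fun j => x < θ j * τ := by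
  intro j hj
  rw [mem_filter] at hj ⊢
  exact ⟨hj.1, lt_of_le_of_lt h hj.2⟩

theorem J_mono {θ : ℕ → ℝ} {m : ℕ} {x y τ : ℝ} (h : x ≤ y) : J θ m y τ ≤ J θ m x τ :=
  card_le_card (lj_sub h)

theorem J_le (θ : ℕ → ℝ) (m : ℕ) (x τ : ℝ) : J θ m x τ ≤ m := by
  unfold J
  refine (card_filter_le _ _).trans ?_
  rw [card_range]

private theorem lj_lt {θ : ℕ → ℝ} {m : ℕ} {x τ : ℝ} (hτ : 0 ≤ τ)
    (hθ : ∀ i j, i ≤ j → j < m → θ j ≤ θ i) {j : ℕ} (h : j < J θ m x τ) :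
    j < m ∧ x < θ j * τ := by
  have hjm : j < m := lt_of_lt_of_le h (J_le θ m x τ)
  refine ⟨hjm, ?_⟩
  by_contra hx
  rw [not_lt] at hx
  have hs : ((range m).filter fun i => x < θ i * τ) ⊆ range j := by
    intro i hi
    rw [mem_filter, mem_range] at hi
    rw [mem_range]
    by_contra hij
    rw [not_lt] at hij
    have h1 : θ i * τ ≤ θ j * τ := mul_le_mul_of_nonneg_right (hθ j i hij hi.1) hτ
    exact absurd hi.2 (not_lt.2 (h1.trans hx))
  have h2 := card_le_card hs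
  rw [card_range] at h2
  exact absurd h (not_lt.2 h2)

private theorem lj_ge {θ : ℕ → ℝ} {m : ℕ} {x τ : ℝ} (hτ : 0 ≤ τ)
    (hθ : ∀ i j, i ≤ j → j < m → θ j ≤ θ i) {j : ℕ} (hj : j < m) (hx : x < θ j * τ) :
    j + 1 ≤ J θ m x τ := by
  have hs : range (j + 1) ⊆ (range m).filter fun i => x < θ i * τ := by
    intro i hi
    rw [mem_range] at hi
    rw [mem_filter, mem_range]
    refine ⟨by omega, ?_⟩
    have h1 : θ j * τ ≤ θ i * τ := mul_le_mul_of_nonneg_right (hθ i j (by omega) hj) hτ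
    exact lt_of_lt_of_le hx h1
  have h2 := card_le_card hs
  rw [card_range] at h2
  exact h2

private theorem lj_aux {ε s : ℝ} {m q : ℕ} {θ : ℕ → ℝ} {e : Finset ι → ℝ} (hε : 0 < ε) (hs : 0 ≤ s)
    (hD : Des s m q θ) (he : Adm lev ε s e) (k : ℕ) {B C : Finset ι} (hB : B.Nonempty)
    (hC : C.Nonempty) (lB : ∀ i ∈ B, ∀ j ∈ B, lev i j ≤ k + 1)
    (lC : ∀ i ∈ C, ∀ j ∈ C, lev i j ≤ k + 1) (hBC : ∀ i ∈ B, ∀ j ∈ C, k < lev i j)
    (hle : e B ≤ e C) :
    J θ m (e B) (ε * ((k : ℝ) + 1)) + J θ m (e C) (ε * ((k : ℝ) + 1)) ≤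
      J θ m (e (B ∪ C)) (ε * ((k : ℝ) + 1)) := by
  have hk : (0 : ℝ) < (k : ℝ) + 1 := by positivity
  have hτ : 0 < ε * ((k : ℝ) + 1) := mul_pos hε hk
  have hmn : J θ m (e C) (ε * ((k : ℝ) + 1)) ≤ J θ m (e B) (ε * ((k : ℝ) + 1)) := J_mono hle
  have hu : e (B ∪ C) ≤ e B := he.mono B (B ∪ C) hB subset_union_left
  have hmu : J θ m (e B) (ε * ((k : ℝ) + 1)) ≤ J θ m (e (B ∪ C)) (ε * ((k : ℝ) + 1)) := J_mono hu
  have hp := he.pair k B C hB hC lB lC hBC
  have hh := he.hub k B C hB hC lB lC hBC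
  have hpi : ∀ j, j < J θ m (e B) (ε * ((k : ℝ) + 1)) → j < m ∧ e B < θ j * (ε * ((k : ℝ) + 1)) :=
    fun j h => lj_lt hτ.le hD.anti h
  have hpj : ∀ j, j < J θ m (e C) (ε * ((k : ℝ) + 1)) → j < m ∧ e C < θ j * (ε * ((k : ℝ) + 1)) :=
    fun j h => lj_lt hτ.le hD.anti h
  have hpu : ∀ j, j < m → e (B ∪ C) < θ j * (ε * ((k : ℝ) + 1)) →
      j + 1 ≤ J θ m (e (B ∪ C)) (ε * ((k : ℝ) + 1)) := fun j h1 h2 => lj_ge hτ.le hD.anti h1 h2
  generalize J θ m (e (B ∪ C)) (ε * ((k : ℝ) + 1)) = u at hmu hpu ⊢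
  generalize J θ m (e B) (ε * ((k : ℝ) + 1)) = a at hmn hmu hpi ⊢
  generalize J θ m (e C) (ε * ((k : ℝ) + 1)) = b at hmn hpj ⊢
  generalize ε * ((k : ℝ) + 1) = τ at hτ hp hh hpi hpj hpu
  rcases b with _ | j
  · simpa using hmu
  rcases a with _ | i
  · omega
  obtain ⟨him, hi⟩ := hpi i (Nat.lt_succ_self i)
  obtain ⟨hjm, hj⟩ := hpj j (Nat.lt_succ_self j)
  have hji : j ≤ i := by omega
  by_cases hm : i + j + 1 < m
  · have hA := hD.A i j hji hm
    have h1 : e (B ∪ C) < θ (i + j + 1) * τ := by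
      have h2 : (1 + s) * e B ≤ (1 + s) * (θ i * τ) :=
        mul_le_mul_of_nonneg_left hi.le (by linarith)
      have h3 : ((1 + s) * θ i + θ j - 1) * τ ≤ θ (i + j + 1) * τ :=
        mul_le_mul_of_nonneg_right hA hτ.le
      nlinarith [h2, h3, hh, hj]
    have h4 := hpu (i + j + 1) hm h1
    omega
  · exfalso
    have hBB := hD.B i j hji him (by omega)
    have h1 : (θ i + θ j) * τ ≤ 1 * τ := mul_le_mul_of_nonneg_right hBB hτ.le
    nlinarith [h1, hi, hj, hp]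

theorem J_superadd {ε s : ℝ} {m q : ℕ} {θ : ℕ → ℝ} {e : Finset ι → ℝ} (hε : 0 < ε) (hs : 0 ≤ s)
    (hD : Des s m q θ) (he : Adm lev ε s e) (k : ℕ) {B C : Finset ι} (hB : B.Nonempty)
    (hC : C.Nonempty) (lB : ∀ i ∈ B, ∀ j ∈ B, lev i j ≤ k + 1)
    (lC : ∀ i ∈ C, ∀ j ∈ C, lev i j ≤ k + 1) (hBC : ∀ i ∈ B, ∀ j ∈ C, k < lev i j)
    (hCB : ∀ i ∈ C, ∀ j ∈ B, k < lev i j) :
    J θ m (e B) (ε * ((k : ℝ) + 1)) + J θ m (e C) (ε * ((k : ℝ) + 1)) ≤
      J θ m (e (B ∪ C)) (ε * ((k : ℝ) + 1)) := by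
  rcases le_total (e B) (e C) with hle | hle
  · exact lj_aux hε hs hD he k hB hC lB lC hBC hle
  · have h := lj_aux hε hs hD he k hC hB lC lB hCB hle
    rw [union_comm, add_comm]
    exact h

theorem J_biUnion {ε s : ℝ} {m q : ℕ} {θ : ℕ → ℝ} {e : Finset ι → ℝ} (hU : Ult K lev)
    (hε : 0 < ε) (hs : 0 ≤ s) (hD : Des s m q θ) (he : Adm lev ε s e) (k : ℕ)
    {T : Finset (Finset ι)} (hT : T ⊆ cls lev k) (hne : T.Nonempty)
    (hin : ∀ i ∈ T.biUnion id, ∀ j ∈ T.biUnion id, lev i j ≤ k + 1) :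
    ∑ B ∈ T, J θ m (e B) (ε * ((k : ℝ) + 1)) ≤ J θ m (e (T.biUnion id)) (ε * ((k : ℝ) + 1)) := by
  induction T using Finset.induction_on with
  | empty => exact absurd hne (by simp)
  | insert B T' hBT ih =>
    rw [sum_insert hBT, biUnion_insert, id]
    rcases T'.eq_empty_or_nonempty with rfl | hne'
    · simp
    · have hT' : T' ⊆ cls lev k := (subset_insert B T').trans hT
      have hBc : B ∈ cls lev k := hT (mem_insert_self B T')
      have hin' : ∀ i ∈ T'.biUnion id, ∀ j ∈ T'.biUnion id, lev i j ≤ k + 1 := by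
        intro i hi j hj
        refine hin i ?_ j ?_
        · rw [biUnion_insert, mem_union]
          exact Or.inr hi
        · rw [biUnion_insert, mem_union]
          exact Or.inr hj
      have hB0 : B.Nonempty := cls_nonempty hU hBc
      have hC0 : (T'.biUnion id).Nonempty := by
        obtain ⟨C, hC⟩ := hne'
        obtain ⟨i, hi⟩ := cls_nonempty hU (hT' hC)
        exact ⟨i, mem_biUnion.2 ⟨C, hC, hi⟩⟩
      have hlB : ∀ i ∈ B, ∀ j ∈ B, lev i j ≤ k + 1 := fun i hi j hj =>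
        (cls_lev_le hU hBc hi hj).trans (Nat.le_succ k)
      have hcr : ∀ i ∈ B, ∀ j ∈ T'.biUnion id, k < lev i j := by
        intro i hi j hj
        obtain ⟨C, hC, hjC⟩ := mem_biUnion.1 hj
        refine cls_cross hU hBc (hT' hC) ?_ hi hjC
        rintro rfl
        exact hBT hC
      have hcr' : ∀ i ∈ T'.biUnion id, ∀ j ∈ B, k < lev i j := by
        intro i hi j hj
        rw [hU.symm i j]
        exact hcr j hj i hi
      have h1 := J_superadd hε hs hD he k hB0 hC0 hlB hin' hcr hcr'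
      have h2 := ih hT' hne' hin'
      exact (Nat.add_le_add_left h2 _).trans h1

end BcrU
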