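import Pool.Agent.Lib.BcrU.Dsg

/-!
MODULE Num (130 lines). The numerical sum for `n = 500`, `p = 499`, `q_j = 362 + j/8` (natural division).

For `1 ≤ j ≤ 500`, `q = 362 + j/8 ≤ 499`, `s = j/(1000 - j)`, `1 + s = 1000/(1000 - j)`, `1 - s = (1000 - 2j)/(1000 - j)`,
`4 + s = (4000 - 3j)/(1000 - j)`. By `beta_lin` (with `p = 499`, `2p+1 = 999`, `2p+2 = 1000`):
`1/beta = fA j / fB j` where (natural numbers, no truncation for `j ≤ 500`)
`fA j = (999 + 2q) * 500000 * (4000 - 3j)`,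
`fB j = 999 * 250000 * (4000 - 3j) + 1000 * q * (1000 - j) * (4000 - 3j) - 4 * (500 - j) * (1000 - j) * q * (q+1)` (positive).
`1/beta ≤ (fA j * 10^5 / fB j + 1) / 10^5` (`Nat.lt_succ_floor`-like, `Nat.div_add_mod`), and
`acc 500 ≤ 88300000` by `decide +kernel` (tested: acc 500 = 88294026).
-/

namespace BcrU

open Finset

/-- numerator -/
def fA (j : ℕ) : ℕ := (999 + 2 * (362 + j / 8)) * 500000 * (4000 - 3 * j)

/-- denominator -/
def fB (j : ℕ) : ℕ := 999 * 250000 * (4000 - 3 * j) +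
  1000 * (362 + j / 8) * (1000 - j) * (4000 - 3 * j) -
  4 * (500 - j) * (1000 - j) * (362 + j / 8) * (363 + j / 8)

/-- partial sums of the rounded values -/
def acc : ℕ → ℕ
  | 0 => 0
  | j + 1 => acc j + (fA (j + 1) * 100000 / fB (j + 1) + 1)

theorem acc_le : acc 500 ≤ 88300000 := by decide +kernel

theorem acc_sum (n : ℕ) :
    ∑ j ∈ Icc 1 n, (((fA j * 100000 / fB j + 1 : ℕ) : ℝ) / 100000) = (acc n : ℝ) / 100000 := by
  induction n with
  | zero => simp [acc]
  | succ n ih =>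
    rw [Finset.sum_Icc_succ_top (by omega), ih]
    simp only [acc]
    push_cast
    ring

theorem fB_le {j : ℕ} (hj : j ≤ 500) :
    4 * (500 - j) * (1000 - j) * (362 + j / 8) * (363 + j / 8) ≤
      999 * 250000 * (4000 - 3 * j) + 1000 * (362 + j / 8) * (1000 - j) * (4000 - 3 * j) := by
  have h1 : 4 * (500 - j) * (363 + j / 8) ≤ 1000 * (4000 - 3 * j) := by
    have a : 500 - j ≤ 500 := by omega
    have b : 363 + j / 8 ≤ 425 := by omega
    have c : 4 * (500 - j) * (363 + j / 8) ≤ 4 * 500 * 425 :=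
      Nat.mul_le_mul (Nat.mul_le_mul le_rfl a) b
    omega
  calc 4 * (500 - j) * (1000 - j) * (362 + j / 8) * (363 + j / 8)
      = (4 * (500 - j) * (363 + j / 8)) * ((1000 - j) * (362 + j / 8)) := by ring
    _ ≤ (1000 * (4000 - 3 * j)) * ((1000 - j) * (362 + j / 8)) := Nat.mul_le_mul h1 le_rfl
    _ = 1000 * (362 + j / 8) * (1000 - j) * (4000 - 3 * j) := by ring
    _ ≤ _ := Nat.le_add_left _ _

theorem fB_cast {j : ℕ} (hj : j ≤ 500) : (fB j : ℝ) =
    999 * 250000 * (4000 - 3 * j) + 1000 * (362 + (j / 8 : ℕ)) * (1000 - j) * (4000 - 3 * j) -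
      4 * (500 - j) * (1000 - j) * (362 + (j / 8 : ℕ)) * (363 + (j / 8 : ℕ)) := by
  unfold fB
  rw [Nat.cast_sub (fB_le hj)]
  have a : ((500 - j : ℕ) : ℝ) = 500 - j := by rw [Nat.cast_sub hj]; norm_num
  have b : ((1000 - j : ℕ) : ℝ) = 1000 - j := by rw [Nat.cast_sub (by omega)]; norm_num
  have c : ((4000 - 3 * j : ℕ) : ℝ) = 4000 - 3 * j := by
    rw [Nat.cast_sub (by omega)]; push_cast; norm_num
  push_cast [a, b, c]
  ring

theorem fB_pos {j : ℕ} (hj : j ≤ 500) : 0 < fB j := by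
  unfold fB
  have h := fB_le hj
  have h1 : 4 * (500 - j) * (363 + j / 8) ≤ 1000 * (4000 - 3 * j) := by
    have a : 500 - j ≤ 500 := by omega
    have b : 363 + j / 8 ≤ 425 := by omega
    have c : 4 * (500 - j) * (363 + j / 8) ≤ 4 * 500 * 425 :=
      Nat.mul_le_mul (Nat.mul_le_mul le_rfl a) b
    omega
  have h2 : 4 * (500 - j) * (1000 - j) * (362 + j / 8) * (363 + j / 8) ≤
      1000 * (362 + j / 8) * (1000 - j) * (4000 - 3 * j) := by
    calc 4 * (500 - j) * (1000 - j) * (362 + j / 8) * (363 + j / 8)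
        = (4 * (500 - j) * (363 + j / 8)) * ((1000 - j) * (362 + j / 8)) := by ring
      _ ≤ (1000 * (4000 - 3 * j)) * ((1000 - j) * (362 + j / 8)) := Nat.mul_le_mul h1 le_rfl
      _ = 1000 * (362 + j / 8) * (1000 - j) * (4000 - 3 * j) := by ring
  have h3 : 0 < 999 * 250000 * (4000 - 3 * j) := by omega
  omega

theorem term_le {j : ℕ} (hj : j ≤ 500) :
    1 / beta (2 * 499 + 1) (362 + j / 8) (thl ((j : ℝ) / (1000 - j)) 499) ≤
      ((fA j * 100000 / fB j + 1 : ℕ) : ℝ) / 100000 := by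
  have hj' : (j : ℝ) ≤ 500 := by exact_mod_cast hj
  have e1 : (0 : ℝ) < 1000 - j := by linarith
  have e2 : (0 : ℝ) < 4000 - 3 * j := by linarith
  have hs0 : (0 : ℝ) ≤ (j : ℝ) / (1000 - j) := by positivity
  have hq : 362 + j / 8 ≤ 499 := by omega
  have hb := beta_lin hs0 hq
  have hfB : (0 : ℝ) < fB j := by exact_mod_cast fB_pos hj
  have hfA : (0 : ℝ) < fA j := by
    have : 0 < fA j := by
      unfold fA
      have : 0 < 4000 - 3 * j := by omega
      positivity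
    exact_mod_cast this
  have hA : (fA j : ℝ) = (999 + 2 * (362 + (j / 8 : ℕ))) * 500000 * (4000 - 3 * j) := by
    have c : ((4000 - 3 * j : ℕ) : ℝ) = 4000 - 3 * j := by
      rw [Nat.cast_sub (by omega)]; push_cast; norm_num
    unfold fA
    push_cast [c]
    ring
  have hB := fB_cast hj
  have key : beta (2 * 499 + 1) (362 + j / 8) (thl ((j : ℝ) / (1000 - j)) 499) =
      (fB j : ℝ) / fA j := by
    rw [hb, hA, hB]
    have f1 : (1 : ℝ) + (j : ℝ) / (1000 - j) = 1000 / (1000 - j) := by field_simp; ring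
    have f2 : (1 : ℝ) - (j : ℝ) / (1000 - j) = (1000 - 2 * j) / (1000 - j) := by
      field_simp; ring
    have f3 : (4 : ℝ) + (j : ℝ) / (1000 - j) = (4000 - 3 * j) / (1000 - j) := by
      field_simp; ring
    have hk : kl ((j : ℝ) / (1000 - j)) = 4 * (1000 - 2 * j) * (1000 - j) /
        (1000 * (4000 - 3 * j)) := by
      unfold kl
      rw [f1, f2, f3]
      field_simp
    rw [hk, f1]
    have hQ : (0 : ℝ) ≤ ((j / 8 : ℕ) : ℝ) := Nat.cast_nonneg _
    have hd : (0 : ℝ) < 999 + 2 * (362 + ((j / 8 : ℕ) : ℝ)) := by linarith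
    have hc1 : ((499 : ℕ) : ℝ) = 499 := by norm_num
    have hc2 : ((362 + j / 8 : ℕ) : ℝ) = 362 + ((j / 8 : ℕ) : ℝ) := by push_cast; ring
    rw [hc1, hc2]
    generalize ((j / 8 : ℕ) : ℝ) = Q at *
    have e2' : (4000 - 3 * (j : ℝ)) ≠ 0 := e2.ne'
    have hd' : (999 + 2 * (362 + Q)) ≠ 0 := hd.ne'
    have hX : ((2 * (499 : ℝ) + 1) / 2 + 2 * (362 + Q) / (1000 / (1000 - j)) -
        4 * (1000 - 2 * j) * (1000 - j) / (1000 * (4000 - 3 * j)) *
          ((362 + Q) * (362 + Q + 1)) / (2 * 499 + 2)) =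
        (999 * 250000 * (4000 - 3 * j) + 1000 * (362 + Q) * (1000 - j) * (4000 - 3 * j) -
          4 * (500 - j) * (1000 - j) * (362 + Q) * (363 + Q)) / (500000 * (4000 - 3 * j)) := by
      rw [div_div_eq_mul_div]
      have hY : ∃ Y : ℝ, Y = 4000 - 3 * (j : ℝ) := ⟨_, rfl⟩
      obtain ⟨Y, hY⟩ := hY
      rw [← hY] at e2' ⊢
      have hj3 : (j : ℝ) = (4000 - Y) / 3 := by rw [hY]; ring
      rw [hj3]
      field_simp
      ring
    rw [hX, show (2 * (499 : ℝ) + 1 + 2 * (362 + Q)) = 999 + 2 * (362 + Q) by ring, div_div]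
    congr 1
    ring
  rw [key, one_div_div]
  rw [div_le_div_iff₀ hfB (by norm_num)]
  have := (Nat.lt_mul_div_succ (fA j * 100000) (fB_pos hj)).le
  have h2 : fA j * 100000 ≤ (fA j * 100000 / fB j + 1) * fB j := by
    rw [mul_comm (fA j * 100000 / fB j + 1)]
    exact this
  exact_mod_cast h2

theorem num_le : ∑ j ∈ Icc 1 500,
    1 / beta (2 * 499 + 1) (362 + j / 8) (thl ((j : ℝ) / (1000 - j)) 499) ≤ 883 := by
  calc ∑ j ∈ Icc 1 500, 1 / beta (2 * 499 + 1) (362 + j / 8) (thl ((j : ℝ) / (1000 - j)) 499)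
      ≤ ∑ j ∈ Icc 1 500, (((fA j * 100000 / fB j + 1 : ℕ) : ℝ) / 100000) :=
        Finset.sum_le_sum fun j hj => term_le (Finset.mem_Icc.mp hj).2
    _ = (acc 500 : ℝ) / 100000 := acc_sum 500
    _ ≤ (88300000 : ℝ) / 100000 := by
        have : (acc 500 : ℝ) ≤ 88300000 := by exact_mod_cast acc_le
        linarith
    _ = 883 := by norm_num

end BcrU
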