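import Pool.Agent.Lib.BcrU.LUlt

/-!
MODULE SAdm (220 lines). The laminar information `eB` of stable levels is admissible, Lipschitz, zero at terminals.

* `str_nonempty`, `str_nonneg`: induction on `Str`.
* The set `X v B = {x | ∃ S w a, S ⊆ B ∧ Str S w a ∧ x = a + d v w - mu S}` is nonempty for nonempty `B` (`base i`, `S = {i}`) and
  bounded below by `0` (`hst`: `mu S ≤ a`, `0 ≤ d v w`).
* `nn`: `le_csInf`. `mono`: `X v B ⊆ X v C` for `B ⊆ C`, `csInf_le_csInf`.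
* `eB_lip`: `a + d u w - mu ≤ (a + d v w - mu) + d u v` by `tri`; both directions.
* `eB_zero`: `i ∈ B`: the element for `base i` is `0 + d (t i) (t i) - mu {i} = 0` (`mu_singleton`), and `0 ≤`.
* `pair`: for all `x₁ ∈ X v B`, `x₂ ∈ X v C` (with `S₁ ⊆ B`, `S₂ ⊆ C`, disjoint because `lev i i = 0`): `Str.pair` gives
  `mu (S₁ ∪ S₂) ≤ a₁ + a₂ + d w₁ w₂ ≤ a₁ + a₂ + d v w₁ + d v w₂`, and `mu_union`:
  `mu S₁ + mu S₂ + ε (k+1) ≤ mu (S₁ ∪ S₂)`. So `ε (k+1) ≤ x₁ + x₂`; take infima (`le_csInf` twice, e.g. show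
  `ε(k+1) - x₂ ≤ sInf X` and so on).
* `hub`: `Str.hub v` gives the element `a₁ + a₂ + d v w₁ + d v w₂ + s min (d v w₁) (d v w₂) + d v v - mu (S₁ ∪ S₂)` of `X v (B ∪ C)`, at most
  `x₁ + x₂ - ε (k+1) + s d v w₁` and `d v w₁ ≤ x₁` because `mu S₁ ≤ a₁`. So `eB (B ∪ C) ≤ (1 + s) x₁ + x₂ - ε (k+1)` for all
  `x₁, x₂`; take infima (`1 + s > 0`).
-/

namespace BcrU

open Finset

variable {ι : Type} [Fintype ι] [DecidableEq ι] {lev : ι → ι → ℕ} {K : ℕ} {W : Type}
  {d : W → W → ℝ} {t : ι → W} {s ε : ℝ}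

omit [Fintype ι] in
theorem str_nonempty {S : Finset ι} {w : W} {a : ℝ} (h : Str t d s S w a) : S.Nonempty := by
  induction h with
  | base i => exact Finset.singleton_nonempty i
  | hub v _ _ _ ih1 _ => exact ih1.mono Finset.subset_union_left
  | pair _ _ _ ih1 _ => exact ih1.mono Finset.subset_union_left

omit [Fintype ι] in
theorem str_nonneg (hd : PMet d) (hs : 0 ≤ s) {S : Finset ι} {w : W} {a : ℝ}
    (h : Str t d s S w a) : 0 ≤ a := by
  induction h with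
  | base i => exact le_refl _
  | @hub S₁ S₂ w₁ w₂ a₁ a₂ v _ _ _ ih1 ih2 =>
    have h1 := hd.nn v w₁
    have h2 := hd.nn v w₂
    have h3 : 0 ≤ s * min (d v w₁) (d v w₂) := mul_nonneg hs (le_min h1 h2)
    linarith
  | @pair S₁ S₂ w₁ w₂ a₁ a₂ _ _ _ ih1 ih2 =>
    have h1 := hd.nn w₁ w₂
    linarith

private theorem sadm_ne (t : ι → W) (d : W → W → ℝ) (s : ℝ) (lev : ι → ι → ℕ) (K : ℕ) (ε : ℝ)
    (v : W) {B : Finset ι} (hB : B.Nonempty) :
    {x | ∃ (S : Finset ι) (w : W) (a : ℝ), S ⊆ B ∧ Str t d s S w a ∧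
      x = a + d v w - mu lev K ε S}.Nonempty := by
  obtain ⟨i, hi⟩ := hB
  exact ⟨_, {i}, t i, 0, Finset.singleton_subset_iff.2 hi, Str.base i, rfl⟩

private theorem sadm_nn (hd : PMet d) (hst : ∀ S w a, Str t d s S w a → mu lev K ε S ≤ a)
    (v : W) (B : Finset ι) {x : ℝ}
    (hx : x ∈ {x | ∃ (S : Finset ι) (w : W) (a : ℝ), S ⊆ B ∧ Str t d s S w a ∧
      x = a + d v w - mu lev K ε S}) : 0 ≤ x := by
  obtain ⟨S, w, a, _, h, rfl⟩ := hx
  have h1 := hst S w a h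
  have h2 := hd.nn v w
  linarith

private theorem sadm_bdd (hd : PMet d) (hst : ∀ S w a, Str t d s S w a → mu lev K ε S ≤ a)
    (v : W) (B : Finset ι) :
    BddBelow {x | ∃ (S : Finset ι) (w : W) (a : ℝ), S ⊆ B ∧ Str t d s S w a ∧
      x = a + d v w - mu lev K ε S} :=
  ⟨0, fun _ hx => sadm_nn hd hst v B hx⟩

private theorem sadm_le (hd : PMet d) (hst : ∀ S w a, Str t d s S w a → mu lev K ε S ≤ a)
    (v : W) {B S : Finset ι} {w : W} {a : ℝ} (hS : S ⊆ B) (h : Str t d s S w a) :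
    eB t d s lev K ε v B ≤ a + d v w - mu lev K ε S :=
  csInf_le (sadm_bdd hd hst v B) ⟨S, w, a, hS, h, rfl⟩

private theorem sadm_ge (v : W) {B : Finset ι} (hB : B.Nonempty) {c : ℝ}
    (h : ∀ (S : Finset ι) (w : W) (a : ℝ), S ⊆ B → Str t d s S w a →
      c ≤ a + d v w - mu lev K ε S) : c ≤ eB t d s lev K ε v B := by
  refine le_csInf (sadm_ne t d s lev K ε v hB) ?_
  rintro x ⟨S, w, a, hS, hw, rfl⟩
  exact h S w a hS hw

private theorem sadm_disj (hU : Ult K lev) {k : ℕ} {B C S₁ S₂ : Finset ι} (h1 : S₁ ⊆ B)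
    (h2 : S₂ ⊆ C) (hc : ∀ i ∈ B, ∀ j ∈ C, k < lev i j) : Disjoint S₁ S₂ := by
  rw [Finset.disjoint_left]
  intro i hi hj
  have h := hc i (h1 hi) i (h2 hj)
  rw [hU.refl] at h
  exact absurd h (Nat.not_lt_zero _)

theorem eB_adm (hU : Ult K lev) (hd : PMet d) (hs : 0 ≤ s) (hε : 0 ≤ ε)
    (hst : ∀ S w a, Str t d s S w a → mu lev K ε S ≤ a) (v : W) :
    Adm lev ε s (eB t d s lev K ε v) := by
  refine ⟨?_, ?_, ?_, ?_⟩
  · intro B hB
    refine sadm_ge v hB fun S w a hS hw => ?_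
    have h1 := hst S w a hw
    have h2 := hd.nn v w
    linarith
  · intro B C hB hBC
    refine sadm_ge v hB fun S w a hS hw => ?_
    exact sadm_le hd hst v (hS.trans hBC) hw
  · intro k B C hB hC lB lC hc
    have key : ∀ (S₁ : Finset ι) (w₁ : W) (a₁ : ℝ), S₁ ⊆ B → Str t d s S₁ w₁ a₁ →
        ∀ (S₂ : Finset ι) (w₂ : W) (a₂ : ℝ), S₂ ⊆ C → Str t d s S₂ w₂ a₂ →
        ε * ((k : ℝ) + 1) ≤ (a₁ + d v w₁ - mu lev K ε S₁) + (a₂ + d v w₂ - mu lev K ε S₂) := by
      intro S₁ w₁ a₁ hS1 h1 S₂ w₂ a₂ hS2 h2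
      have hdis := sadm_disj hU hS1 hS2 hc
      have h3 := hst _ _ _ (Str.pair h1 h2 hdis)
      have h4 := mu_union hU hε (str_nonempty h1) (str_nonempty h2)
        (fun i hi j hj => lB i (hS1 hi) j (hS1 hj)) (fun i hi j hj => lC i (hS2 hi) j (hS2 hj))
        (fun i hi j hj => hc i (hS1 hi) j (hS2 hj))
      have h5 := hd.tri w₁ v w₂
      have h6 := hd.symm w₁ v
      linarith
    have hA : ε * ((k : ℝ) + 1) - eB t d s lev K ε v C ≤ eB t d s lev K ε v B := by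
      refine sadm_ge v hB fun S₁ w₁ a₁ hS1 h1 => ?_
      have hB' : ε * ((k : ℝ) + 1) - (a₁ + d v w₁ - mu lev K ε S₁) ≤ eB t d s lev K ε v C := by
        refine sadm_ge v hC fun S₂ w₂ a₂ hS2 h2 => ?_
        have := key S₁ w₁ a₁ hS1 h1 S₂ w₂ a₂ hS2 h2
        linarith
      linarith
    linarith
  · intro k B C hB hC lB lC hc
    have key : ∀ (S₁ : Finset ι) (w₁ : W) (a₁ : ℝ), S₁ ⊆ B → Str t d s S₁ w₁ a₁ →
        ∀ (S₂ : Finset ι) (w₂ : W) (a₂ : ℝ), S₂ ⊆ C → Str t d s S₂ w₂ a₂ →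
        eB t d s lev K ε v (B ∪ C) ≤ (1 + s) * (a₁ + d v w₁ - mu lev K ε S₁) +
          (a₂ + d v w₂ - mu lev K ε S₂) - ε * ((k : ℝ) + 1) := by
      intro S₁ w₁ a₁ hS1 h1 S₂ w₂ a₂ hS2 h2
      have hdis := sadm_disj hU hS1 hS2 hc
      have h3 := sadm_le (lev := lev) (K := K) (ε := ε) hd hst v
        (Finset.union_subset_union hS1 hS2) (Str.hub v h1 h2 hdis)
      have h4 := mu_union hU hε (str_nonempty h1) (str_nonempty h2)
        (fun i hi j hj => lB i (hS1 hi) j (hS1 hj)) (fun i hi j hj => lC i (hS2 hi) j (hS2 hj))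
        (fun i hi j hj => hc i (hS1 hi) j (hS2 hj))
      have h5 := hd.self v
      have h6 : s * min (d v w₁) (d v w₂) ≤ s * d v w₁ :=
        mul_le_mul_of_nonneg_left (min_le_left _ _) hs
      have h7 : s * d v w₁ ≤ s * (a₁ + d v w₁ - mu lev K ε S₁) := by
        refine mul_le_mul_of_nonneg_left ?_ hs
        have := hst _ _ _ h1
        linarith
      have h8 : (1 + s) * (a₁ + d v w₁ - mu lev K ε S₁) =
        (a₁ + d v w₁ - mu lev K ε S₁) + s * (a₁ + d v w₁ - mu lev K ε S₁) := by ring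
      rw [h8]
      linarith
    have hs1 : 0 < 1 + s := by linarith
    have hA : (eB t d s lev K ε v (B ∪ C) + ε * ((k : ℝ) + 1) - eB t d s lev K ε v C) / (1 + s) ≤
        eB t d s lev K ε v B := by
      refine sadm_ge v hB fun S₁ w₁ a₁ hS1 h1 => ?_
      rw [div_le_iff₀ hs1]
      have hB' : eB t d s lev K ε v (B ∪ C) + ε * ((k : ℝ) + 1) -
          (1 + s) * (a₁ + d v w₁ - mu lev K ε S₁) ≤ eB t d s lev K ε v C := by
        refine sadm_ge v hC fun S₂ w₂ a₂ hS2 h2 => ?_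
        have := key S₁ w₁ a₁ hS1 h1 S₂ w₂ a₂ hS2 h2
        linarith
      have h9 : (a₁ + d v w₁ - mu lev K ε S₁) * (1 + s) =
        (1 + s) * (a₁ + d v w₁ - mu lev K ε S₁) := mul_comm _ _
      rw [h9]
      linarith
    rw [div_le_iff₀ hs1] at hA
    have h10 : eB t d s lev K ε v B * (1 + s) =
      eB t d s lev K ε v B + s * eB t d s lev K ε v B := by ring
    rw [h10] at hA
    linarith

theorem eB_lip (hd : PMet d) (hst : ∀ S w a, Str t d s S w a → mu lev K ε S ≤ a)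
    (u v : W) (B : Finset ι) (hB : B.Nonempty) :
    |eB t d s lev K ε u B - eB t d s lev K ε v B| ≤ d u v := by
  have key : ∀ x y : W, eB t d s lev K ε x B ≤ eB t d s lev K ε y B + d x y := by
    intro x y
    have h : eB t d s lev K ε x B - d x y ≤ eB t d s lev K ε y B := by
      refine sadm_ge y hB fun S w a hS hw => ?_
      have h1 := sadm_le (lev := lev) (K := K) (ε := ε) hd hst x hS hw
      have h2 := hd.tri x y w
      linarith
    linarith
  rw [abs_le]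
  have h1 := key u v
  have h2 := key v u
  have h3 := hd.symm u v
  constructor <;> linarith

theorem eB_zero (hU : Ult K lev) (hd : PMet d)
    (hst : ∀ S w a, Str t d s S w a → mu lev K ε S ≤ a) {i : ι} {B : Finset ι} (hi : i ∈ B) :
    eB t d s lev K ε (t i) B = 0 := by
  apply le_antisymm
  · have h1 := sadm_le (lev := lev) (K := K) (ε := ε) hd hst (t i)
      (Finset.singleton_subset_iff.2 hi) (Str.base i)
    rw [mu_singleton hU, hd.self] at h1
    linarith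
  · refine sadm_ge (t i) ⟨i, hi⟩ fun S w a hS hw => ?_
    have h1 := hst S w a hw
    have h2 := hd.nn (t i) w
    linarith

end BcrU
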