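import Mathlib

/-!
MODULE VRec (90 lines). The recursion of loss contraction (only finite minima).

`λ j = 1 + j/(2n - j) = 2n/(2n - j)` for `0 ≤ j ≤ n` (`2n - j > 0`), `1/λ j = (2n - j)/(2n)`. Let `V j = min_Y (M Y + λ j * C Y)`
(finite nonempty type: choose a minimiser `Y j`, `Finite.exists_min`). For `1 ≤ j ≤ n`:
`V (j-1)/λ (j-1) ≤ M (Y j)/λ (j-1) + C (Y j) = M (Y j) (1/λ (j-1) - 1/λ j) + V j/λ j = M (Y j)/(2n) + V j/λ j ≤ b j/(2n) + V j/λ j`.
Telescoping: `V 0/λ 0 ≤ (∑_{j=1}^n b j)/(2n) + V n/λ n`, `λ 0 = 1`, `λ n = 2`, `V n ≤ M Y0 + 2 C Y0 ≤ Bs`, `B ≤ V 0` (`hB`).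
-/

namespace BcrU

open Finset

theorem vrec {𝒴 : Type} [Finite 𝒴] (M C : 𝒴 → ℝ) {n : ℕ} (hn : 0 < n) (b : ℕ → ℝ) {B Bs : ℝ}
    (hB : ∀ Y, B ≤ M Y + C Y)
    (hm : ∀ j, 1 ≤ j → j ≤ n → ∀ Y, (∀ X, M Y + (1 + (j : ℝ) / (2 * n - j)) * C Y ≤
      M X + (1 + (j : ℝ) / (2 * n - j)) * C X) → M Y ≤ b j)
    {Y0 : 𝒴} (h0 : C Y0 = 0) (hs : M Y0 ≤ Bs) :
    B ≤ (∑ j ∈ Icc 1 n, b j) / (2 * n) + Bs / 2 := by
  have hne : Nonempty 𝒴 := ⟨Y0⟩
  have hex : ∀ j : ℕ, ∃ Y, ∀ X, M Y + (1 + (j : ℝ) / (2 * n - j)) * C Y ≤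
      M X + (1 + (j : ℝ) / (2 * n - j)) * C X := fun j =>
    Finite.exists_min fun Y => M Y + (1 + (j : ℝ) / (2 * n - j)) * C Y
  choose Y hY using hex
  have hn' : (0 : ℝ) < n := by exact_mod_cast hn
  have hlam : ∀ j : ℕ, j ≤ n → (1 + (j : ℝ) / (2 * n - j)) * ((2 * n - j) / (2 * n)) = 1 := by
    intro j hj
    have hj' : (j : ℝ) ≤ n := by exact_mod_cast hj
    have h1 : (2 * (n : ℝ) - j) ≠ 0 := by
      have : (0 : ℝ) < 2 * (n : ℝ) - j := by linarith
      exact this.ne'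
    field_simp
    ring
  have hg : ∀ j : ℕ, j ≤ n → (M (Y j) + (1 + (j : ℝ) / (2 * n - j)) * C (Y j)) *
      ((2 * n - j) / (2 * n)) = M (Y j) * ((2 * n - j) / (2 * n)) + C (Y j) := by
    intro j hj
    have h1 := hlam j hj
    linear_combination C (Y j) * h1
  have hind : ∀ k : ℕ, k ≤ n → B ≤ (∑ j ∈ Icc 1 k, b j) / (2 * n) +
      (M (Y k) * ((2 * n - k) / (2 * n)) + C (Y k)) := by
    intro k
    induction k with
    | zero =>
      intro _
      have h1 := hB (Y 0)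
      have h2 : ((2 * (n : ℝ) - (0 : ℕ)) / (2 * n)) = 1 := by
        rw [Nat.cast_zero, sub_zero, div_self (by positivity)]
      rw [h2, Finset.Icc_eq_empty (by omega), Finset.sum_empty, zero_div, mul_one, zero_add]
      exact h1
    | succ k ih =>
      intro hk
      have h1 := ih (by omega)
      have h2 := hY k (Y (k + 1))
      have hk' : ((k : ℝ)) + 1 ≤ n := by exact_mod_cast hk
      have hpos : (0 : ℝ) ≤ (2 * n - k) / (2 * n) := div_nonneg (by linarith) (by positivity)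
      have h3 := mul_le_mul_of_nonneg_right h2 hpos
      rw [hg k (by omega)] at h3
      have h4 := hlam k (by omega)
      have h5 : (M (Y (k + 1)) + (1 + (k : ℝ) / (2 * n - k)) * C (Y (k + 1))) *
          ((2 * n - k) / (2 * n)) = M (Y (k + 1)) * ((2 * n - k) / (2 * n)) + C (Y (k + 1)) := by
        linear_combination C (Y (k + 1)) * h4
      rw [h5] at h3
      have h6 := hm (k + 1) (by omega) hk (Y (k + 1)) (hY (k + 1))
      rw [Finset.sum_Icc_succ_top (by omega), add_div]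
      have h7 : M (Y (k + 1)) * ((2 * n - k) / (2 * n)) =
          M (Y (k + 1)) / (2 * n) + M (Y (k + 1)) * ((2 * n - ((k + 1 : ℕ) : ℝ)) / (2 * n)) := by
        push_cast
        field_simp
        ring
      have h8 : M (Y (k + 1)) / (2 * n) ≤ b (k + 1) / (2 * n) :=
        div_le_div_of_nonneg_right h6 (by positivity)
      linarith
  have hfin := hind n le_rfl
  have h1 := hY n Y0
  rw [h0, mul_zero, add_zero] at h1
  have h2 := mul_le_mul_of_nonneg_right h1 (show (0 : ℝ) ≤ (2 * n - n) / (2 * n) from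
    div_nonneg (by linarith) (by positivity))
  rw [hg n le_rfl] at h2
  have h3 : (2 * (n : ℝ) - n) / (2 * n) = 1 / 2 := by
    field_simp
    ring
  have h4 : M Y0 * ((2 * (n : ℝ) - n) / (2 * n)) ≤ Bs / 2 := by
    rw [h3]
    linarith
  linarith

end BcrU
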